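import Mathlib

/-!
The explicit banded model: transfer operators and their algebraic relations.
-/

set_option autoImplicit false
set_option linter.dupNamespace false
set_option linter.unusedSimpArgs false

namespace Pool.Agent.P.MP_c12967_pr

/-- Full states: values of a linear functional on the basis. -/
@[ext] structure St where
  o0 : ℝ
  o1 : ℝ
  o2 : ℝ
  e0 : ℕ → ℝ
  e1 : ℕ → ℝ
  e2 : ℕ → ℝ
  d0 : ℕ → ℝ
  d1 : ℕ → ℝ
  d2 : ℕ → ℝ

/-- The value at the cyclic vector. -/
noncomputable def St.w (f : St) : ℝ := (f.o0 + f.o1 + f.o2) / 6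

/-- Cyclic relabelling. -/
def rot (f : St) : St := ⟨f.o1, f.o2, f.o0, f.e1, f.e2, f.e0, f.d1, f.d2, f.d0⟩

/-- The first transfer operator. -/
noncomputable def T0 (f : St) : St where
  o0 := -3 * f.w + 3 * f.o0 + f.e1 0 / 4 - f.e2 0 / 4
  o1 := 9 / 2 * f.w + f.o0 - f.o1 + f.e2 0 / 4
  o2 := 9 / 2 * f.w + f.o0 - f.o2 - f.e1 0 / 4
  e0 := fun j => if j = 0 then f.e0 0 + 2 * f.o2 - 2 * f.o1 else f.e0 j
  d0 := fun j => if j = 0 then -f.d0 0 - 2 * f.w else -f.d0 j
  e1 := fun j => if j = 0 then 5 * f.w - 2 * f.o0 - f.e1 0 / 2 - f.d1 0 / 2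
    else -(f.d1 j + f.d1 (j - 1)) / 2
  d1 := fun j => if j = 0 then (f.e1 1 + f.e1 0) / 2 - f.w else (f.e1 (j + 1) + f.e1 j) / 2
  e2 := fun j => if j = 0 then -5 * f.w + 2 * f.o0 - f.e2 0 / 2 + f.d2 0 / 2
    else (f.d2 j - f.d2 (j - 1)) / 2
  d2 := fun j => if j = 0 then (f.e2 1 - f.e2 0) / 2 - f.w else (f.e2 (j + 1) - f.e2 j) / 2

/-- The second transfer operator. -/
noncomputable def T1 (f : St) : St := rot (rot (T0 (rot f)))
/-- The third transfer operator. -/
noncomputable def T2 (f : St) : St := rot (T0 (rot (rot f)))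

/-- Sum of states. -/
def St.add (f g : St) : St :=
  ⟨f.o0 + g.o0, f.o1 + g.o1, f.o2 + g.o2, fun j => f.e0 j + g.e0 j, fun j => f.e1 j + g.e1 j,
    fun j => f.e2 j + g.e2 j, fun j => f.d0 j + g.d0 j, fun j => f.d1 j + g.d1 j,
    fun j => f.d2 j + g.d2 j⟩

/-- Scalar multiple of a state. -/
def St.smul (k : ℝ) (f : St) : St :=
  ⟨k * f.o0, k * f.o1, k * f.o2, fun j => k * f.e0 j, fun j => k * f.e1 j,
    fun j => k * f.e2 j, fun j => k * f.d0 j, fun j => k * f.d1 j, fun j => k * f.d2 j⟩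

/-- The initial functional. -/
def lam : St :=
  ⟨18, 18, 18, fun j => if j = 1 then 1 else 0, fun j => if j = 1 then 1 else 0,
    fun j => if j = 1 then 1 else 0, fun j => if j = 0 then -5 else 0,
    fun j => if j = 0 then -5 else 0, fun j => if j = 0 then -5 else 0⟩

lemma T0_add (f g : St) : T0 (f.add g) = (T0 f).add (T0 g) := by
  ext j
  any_goals (simp only [T0, St.add, St.w]; try split_ifs)
  all_goals ring

lemma T0_smul (k : ℝ) (f : St) : T0 (St.smul k f) = St.smul k (T0 f) := by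
  ext j
  any_goals (simp only [T0, St.smul, St.w]; try split_ifs)
  all_goals ring

lemma rot_add (f g : St) : rot (f.add g) = (rot f).add (rot g) := rfl
lemma rot_smul (k : ℝ) (f : St) : rot (St.smul k f) = St.smul k (rot f) := rfl
lemma rot3 (f : St) : rot (rot (rot f)) = f := rfl
lemma rot_w (f : St) : (rot f).w = f.w := by simp only [rot, St.w]; ring

lemma rel_sq (f : St) :
    ((T0 (T0 f)).add (T1 (T1 f))).add (T2 (T2 f)) = St.smul f.w lam := by
  ext j
  any_goals (simp [T0, T1, T2, rot, St.add, St.smul, St.w, lam]; ring1)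
  all_goals
    rcases j with _ | _ | j <;> simp [T0, T1, T2, rot, St.add, St.smul, St.w, lam] <;> ring1

lemma rel_01 (f : St) : (T0 (T1 f)).add (T1 (T0 f)) = St.smul f.w lam := by
  ext j
  any_goals (simp [T0, T1, rot, St.add, St.smul, St.w, lam]; ring1)
  all_goals
    rcases j with _ | _ | j <;> simp [T0, T1, rot, St.add, St.smul, St.w, lam] <;> ring1

lemma rel_12 (f : St) : (T1 (T2 f)).add (T2 (T1 f)) = St.smul f.w lam := by
  have h := congrArg (fun g => rot (rot g)) (rel_01 (rot f))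
  simp only [rot_w] at h
  exact h

lemma rel_20 (f : St) : (T2 (T0 f)).add (T0 (T2 f)) = St.smul f.w lam := by
  have h := congrArg rot (rel_01 (rot (rot f)))
  simp only [rot_w] at h
  exact h

lemma rel_w (f : St) : (T0 f).w + (T1 f).w + (T2 f).w = 6 * f.w := by
  simp [T0, T1, T2, rot, St.w]; ring

lemma rel_lam : ((T0 lam).add (T1 lam)).add (T2 lam) = St.smul 6 lam := by
  ext j
  any_goals (simp [T0, T1, T2, rot, St.add, St.smul, St.w, lam]; norm_num)
  all_goals
    rcases j with _ | _ | _ | j <;> simp [T0, T1, T2, rot, St.add, St.smul, St.w, lam] <;> norm_num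


end Pool.Agent.P.MP_c12967_pr
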