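import Pool.Agent.P.MP_c12967_pr.Alg

/-!
Restriction of the banded model to the reduced two-operator system.
-/

set_option autoImplicit false
set_option linter.dupNamespace false
set_option linter.unusedSimpArgs false

namespace Pool.Agent.P.MP_c12967_pr

/-- Reduced states with the half-line split into even and odd sites. -/
@[ext] structure R4 where
  r : ℝ
  P : ℕ → ℝ
  Q : ℕ → ℝ
  Z : ℕ → ℝ

/-- The run operator on split states. -/
noncomputable def M4 (c : R4) : R4 where
  r := c.r - c.P 0 / 4
  P := fun i => if i = 0 then c.Q 0 + c.P 0 else (c.Q i - c.Q (i - 1)) / 2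
  Q := fun i => (c.P (i + 1) - c.P i) / 2
  Z := fun i => if i = 0 then 2 * c.r - c.Z 0 else (-1) ^ (i - 1) * c.Z i

/-- The reflection on split states. -/
noncomputable def sg (c : R4) : R4 where
  r := c.r
  P := fun i => if i = 0 then -4 * c.r - c.P 0 else (-1) ^ (i - 1) * c.P i
  Q := c.Z
  Z := c.Q

/-- Sum of split states. -/
def R4.add (c d : R4) : R4 where
  r := c.r + d.r
  P := fun i => c.P i + d.P i
  Q := fun i => c.Q i + d.Q i
  Z := fun i => c.Z i + d.Z i

lemma neg_one_mul_self (i : ℕ) : (-1 : ℝ) ^ i * (-1) ^ i = 1 := by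
  rw [← mul_pow]; simp

/-- The two operators of the reduced system. -/
noncomputable def opA (c : R4) : R4 := sg (M4 c)
/-- The second operator. -/
noncomputable def opB (c : R4) : R4 := M4 (sg c)

/-- Restriction to the subspace attached to an avoided colour. -/
noncomputable def res (f : St) : R4 where
  r := -f.o0 + f.o1 + f.o2
  P := fun i => if i = 0 then -2 * (-f.o0 + f.o1 + f.o2) - 2 * (f.e0 0 - 2 * f.o1 + 2 * f.o2)
    else (-1) ^ (i - 1) * (f.d0 (i - 1) + f.e0 i)
  Q := fun i => if i = 0 then f.e1 0 + f.d1 0 + 2 * f.w else f.e1 i + f.d1 i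
  Z := fun i => if i = 0 then -f.e2 0 + f.d2 0 + 2 * f.w
    else -((-1) ^ (i - 1) * (f.d2 i - f.e2 i))

lemma res_T1 (f : St) : res (T1 f) = opA (res (rot (rot f))) := by
  ext i
  · simp [res, T0, T1, rot, opA, sg, M4, St.w]; ring
  · rcases i with _ | _ | i <;> simp [res, T0, T1, rot, opA, sg, M4, St.w] <;> ring
  · rcases i with _ | i
    · simp [res, T0, T1, rot, opA, sg, M4, St.w]; ring
    · simp [res, T0, T1, rot, opA, sg, M4, St.w]
      linear_combination (f.d1 (i + 1) - f.e1 (i + 1)) * neg_one_mul_self i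
  · rcases i with _ | _ | i <;> simp [res, T0, T1, rot, opA, sg, M4, St.w] <;> ring


lemma res_T2 (f : St) : res (T2 f) = opB (res (rot f)) := by
  ext i
  · simp [res, T0, T2, rot, opB, sg, M4, St.w]; ring
  · rcases i with _ | _ | i <;> simp [res, T0, T2, rot, opB, sg, M4, St.w] <;> ring
  · rcases i with _ | i
    · simp [res, T0, T2, rot, opB, sg, M4, St.w]; ring
    · simp [res, T0, T2, rot, opB, sg, M4, St.w]
      linear_combination (-(f.d1 (i + 1) + f.e1 (i + 2) - f.d1 i - f.e1 (i + 1)) / 2)
        * neg_one_mul_self i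
  · rcases i with _ | i <;> simp [res, T0, T2, rot, opB, sg, M4, St.w] <;> ring

lemma res_T0 (f : St) :
    res (T0 f) = (opB (res (rot f))).add (opA (res (rot (rot f)))) := by
  ext i
  · simp [res, T0, rot, opA, opB, sg, M4, St.w, R4.add]; ring
  · rcases i with _ | _ | i <;> simp [res, T0, rot, opA, opB, sg, M4, St.w, R4.add] <;> ring
  · rcases i with _ | i
    · simp [res, T0, rot, opA, opB, sg, M4, St.w, R4.add]; ring
    · simp [res, T0, rot, opA, opB, sg, M4, St.w, R4.add]
      linear_combination (-(f.d1 (i + 1) + f.e1 (i + 2) - f.d1 i - f.e1 (i + 1)) / 2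
        + (f.d1 (i + 1) - f.e1 (i + 1))) * neg_one_mul_self i
  · rcases i with _ | _ | i <;> simp [res, T0, rot, opA, opB, sg, M4, St.w, R4.add] <;> ring

lemma w_res (f : St) : f.w = ((res f).r + (res (rot f)).r + (res (rot (rot f))).r) / 6 := by
  simp only [res, rot, St.w]; ring

end Pool.Agent.P.MP_c12967_pr
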