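import Pool.Agent.P.MP_c12967_pr.Pos
import Pool.Agent.P.MP_c12967_pr.Res

/-!
The invariant cone of the reduced two-operator system.
-/

set_option autoImplicit false
set_option linter.dupNamespace false
set_option linter.unusedSimpArgs false

namespace Pool.Agent.P.MP_c12967_pr

/-- Interleaving. -/
def toX (c : R4) : R where
  r := c.r
  X := fun k => if k % 2 = 0 then c.P (k / 2) else c.Q (k / 2)
  Z := c.Z

lemma toX_even (c : R4) (i : ℕ) : (toX c).X (2 * i) = c.P i := by simp [toX]
lemma toX_odd (c : R4) (i : ℕ) : (toX c).X (2 * i + 1) = c.Q i := by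
  have h1 : (2 * i + 1) % 2 = 1 := by omega
  have h2 : (2 * i + 1) / 2 = i := by omega
  simp [toX, h1, h2]

lemma toX_M (c : R4) : toX (M4 c) = M (toX c) := by
  have hX : (toX (M4 c)).X = (M (toX c)).X := by
    funext k
    obtain ⟨i, rfl | rfl⟩ := Nat.even_or_odd' k
    · rcases i with _ | i
      · simp [toX, M, M4]
      · rw [toX_even, show 2 * (i + 1) = (2 * i + 1) + 1 by ring, M_Xs,
          show 2 * i + 1 + 2 = 2 * (i + 1) + 1 by ring, toX_odd, toX_odd]
        simp [M4]
    · rw [toX_odd, M_Xs, show 2 * i + 2 = 2 * (i + 1) by ring, toX_even, toX_even]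
      simp [M4]
  have hr : (toX (M4 c)).r = (M (toX c)).r := by simp [toX, M, M4]
  have hZ : (toX (M4 c)).Z = (M (toX c)).Z := by funext i; simp [toX, M, M4]
  cases h1 : toX (M4 c)
  cases h2 : M (toX c)
  simp only [h1, h2] at hX hr hZ
  simp [hX, hr, hZ]

lemma toX_iter (c : R4) (n : ℕ) : toX (M4^[n] c) = M^[n] (toX c) := by
  induction n with
  | zero => rfl
  | succ n ih => rw [Function.iterate_succ_apply', toX_M, ih, it_succ]

lemma E_of_Out (c : R4) (h : Out (toX c)) : E (toX (sg c)) := by
  obtain ⟨h0, a1, a2, b1, b2, c1, c2, d1, d2, h3, ht, hz⟩ := h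
  have e0 : (toX (sg c)).X 0 = -4 * (toX c).r - (toX c).X 0 := by simp [toX, sg]
  have e1 : (toX (sg c)).X 1 = (toX c).Z 0 := by simp [toX, sg]
  have e2 : (toX (sg c)).X 2 = (toX c).X 2 := by simp [toX, sg]
  have e3 : (toX (sg c)).Z 0 = (toX c).X 1 := by simp [toX, sg]
  have er : (toX (sg c)).r = (toX c).r := rfl
  refine ⟨?_, ?_, ?_, ?_, ?_, ?_, ?_, ?_, ?_, ?_, ?_⟩
  any_goals (simp only [e0, e1, e2, e3, er]; linarith)
  · intro k hk
    rw [e0, er]
    obtain ⟨i, rfl | rfl⟩ := Nat.even_or_odd' k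
    · have := ht (2 * i) (by omega)
      rw [toX_even] at this ⊢
      have hi : i ≠ 0 := by omega
      have e : (sg c).P i = (-1) ^ (i - 1) * c.P i := by simp [sg, hi]
      rw [e, abs_mul, abs_pow, abs_neg, abs_one, one_pow, one_mul]
      linarith
    · have := hz i (by omega)
      rw [toX_odd]
      have e : (sg c).Q i = (toX c).Z i := rfl
      rw [e]; linarith
  · intro i hi
    rw [e0, er]
    have e : (toX (sg c)).Z i = (toX c).X (2 * i + 1) := by rw [toX_odd]; rfl
    rw [e]
    by_cases h1 : i = 1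
    · subst h1; norm_num only; linarith
    · have := ht (2 * i + 1) (by omega)
      linarith

lemma sg_sg (c : R4) : sg (sg c) = c := by
  ext i
  · rfl
  · rcases i with _ | i
    · simp [sg]
    · simp only [sg, Nat.add_eq_zero_iff, one_ne_zero, and_false, if_false, Nat.add_sub_cancel]
      linear_combination (c.P (i + 1)) * neg_one_mul_self i
  · rfl
  · rfl

/-- States reached after a nonempty run from the entry box. -/
def D (c : R4) : Prop := ∃ (c0 : R4) (n : ℕ), E (toX c0) ∧ c = M4^[n + 1] c0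

lemma D_sg (c : R4) (h : D c) : E (toX (sg c)) := by
  obtain ⟨c0, n, h0, rfl⟩ := h
  apply E_of_Out
  rw [toX_iter]
  exact main_out _ h0 _ (by omega)

lemma D_M (c : R4) (h : D c) : D (M4 c) := by
  obtain ⟨c0, n, h0, rfl⟩ := h
  exact ⟨c0, n + 1, h0, (Function.iterate_succ_apply' _ _ _).symm⟩

lemma D_of_E (c : R4) (h : E (toX c)) : D (M4 c) := ⟨c, 0, h, rfl⟩

lemma E_r (c : R4) (h : E (toX c)) : 0 ≤ c.r := by
  obtain ⟨h0, a1, -⟩ := h
  have : (toX c).r = c.r := rfl
  linarith

/-- The invariant of the two-operator system. -/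
def Inv (c : R4) : Prop := D c ∨ D (sg c) ∨ (E (toX c) ∧ E (toX (sg c)))

lemma Inv_r (c : R4) (h : Inv c) : 0 ≤ c.r := by
  rcases h with h | h | h
  · exact E_r (sg c) (D_sg c h)
  · have := D_sg _ h
    rw [sg_sg] at this
    exact E_r c this
  · exact E_r c h.1

lemma Inv_A (c : R4) (h : Inv c) : Inv (opA c) := by
  right; left
  rw [opA, sg_sg]
  rcases h with h | h | h
  · exact D_M c h
  · have := D_sg _ h
    rw [sg_sg] at this
    exact D_of_E c this
  · exact D_of_E c h.1

lemma Inv_B (c : R4) (h : Inv c) : Inv (opB c) := by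
  left
  rw [opB]
  rcases h with h | h | h
  · exact D_of_E _ (D_sg c h)
  · exact D_M _ h
  · exact D_of_E _ h.2

/-- The cone generated by the invariant states. -/
inductive Cone : R4 → Prop
  | base (c : R4) (h : Inv c) : Cone c
  | add (c d : R4) (hc : Cone c) (hd : Cone d) : Cone (c.add d)

lemma M4_add (c d : R4) : M4 (c.add d) = (M4 c).add (M4 d) := by
  ext i
  · simp [M4, R4.add]; ring
  · rcases i with _ | i <;> simp [M4, R4.add] <;> ring
  · simp [M4, R4.add]; ring
  · rcases i with _ | i <;> simp [M4, R4.add] <;> ring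

lemma sg_add (c d : R4) : sg (c.add d) = (sg c).add (sg d) := by
  ext i
  · simp [sg, R4.add]
  · rcases i with _ | i <;> simp [sg, R4.add] <;> ring
  · simp [sg, R4.add]
  · simp [sg, R4.add]

lemma Cone_A (c : R4) (h : Cone c) : Cone (opA c) := by
  induction h with
  | base c h => exact Cone.base _ (Inv_A c h)
  | add c d _ _ hc hd =>
    have : opA (c.add d) = (opA c).add (opA d) := by rw [opA, M4_add, sg_add]; rfl
    rw [this]; exact Cone.add _ _ hc hd

lemma Cone_B (c : R4) (h : Cone c) : Cone (opB c) := by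
  induction h with
  | base c h => exact Cone.base _ (Inv_B c h)
  | add c d _ _ hc hd =>
    have : opB (c.add d) = (opB c).add (opB d) := by rw [opB, sg_add, M4_add]; rfl
    rw [this]; exact Cone.add _ _ hc hd

lemma Cone_r (c : R4) (h : Cone c) : 0 ≤ c.r := by
  induction h with
  | base c h => exact Inv_r c h
  | add c d _ _ hc hd => exact add_nonneg hc hd


end Pool.Agent.P.MP_c12967_pr
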