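import Mathlib

/-!
The Holroyd-Liggett word function for four colours.
-/

set_option autoImplicit false

namespace Pool.Agent.P.MP_c12967_pr.HL

/-- Sum of `f` over all one-letter deletions of a word. -/
def del : (List (Fin 4) → ℝ) → List (Fin 4) → ℝ
  | _, [] => 0
  | f, a :: w => f w + del (fun u => f (a :: u)) w

theorem del_congr : ∀ (w : List (Fin 4)) (f g : List (Fin 4) → ℝ),
    (∀ u, u.length + 1 = w.length → f u = g u) → del f w = del g w
  | [], _, _, _ => rfl
  | a :: w, f, g, h => by
    simp only [del]
    rw [h w rfl, del_congr w (fun u => f (a :: u)) (fun u => g (a :: u))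
      (fun u hu => h (a :: u) (by simp [hu]))]

theorem del_nonneg : ∀ (w : List (Fin 4)) (f : List (Fin 4) → ℝ), (∀ u, 0 ≤ f u) → 0 ≤ del f w
  | [], _, _ => le_rfl
  | a :: w, _, h => add_nonneg (h w) (del_nonneg w _ fun u => h (a :: u))

theorem del_append : ∀ (x y : List (Fin 4)) (f : List (Fin 4) → ℝ),
    del f (x ++ y) = del (fun u => f (u ++ y)) x + del (fun u => f (x ++ u)) y
  | [], y, f => by simp [del]
  | a :: x, y, f => by
    simp only [List.cons_append, del]
    rw [del_append x y (fun u => f (a :: u))]
    ring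

theorem del_sum : ∀ (w : List (Fin 4)) (f : Fin 4 → List (Fin 4) → ℝ),
    ∑ a, del (f a) w = del (fun u => ∑ a, f a u) w
  | [], f => by simp [del]
  | b :: w, f => by
    simp only [del]
    rw [Finset.sum_add_distrib, del_sum w (fun a u => f a (b :: u))]

theorem del_mul : ∀ (w : List (Fin 4)) (c : ℝ) (f : List (Fin 4) → ℝ),
    del (fun u => c * f u) w = c * del f w
  | [], c, f => by simp [del]
  | b :: w, c, f => by
    simp only [del]
    rw [del_mul w c (fun u => f (b :: u))]
    ring

theorem del_zero (w : List (Fin 4)) : del (fun _ => 0) w = 0 := by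
  simpa using del_mul w 0 (fun _ => 0)

open Classical in
/-- The recursion, indexed by the length. -/
noncomputable def H : ℕ → List (Fin 4) → ℝ
  | 0, _ => 1
  | n + 1, w => if w.IsChain (· ≠ ·) then del (H n) w / (2 * (n + 2)) else 0

/-- The Holroyd-Liggett word function. -/
noncomputable def Q (w : List (Fin 4)) : ℝ := H w.length w

theorem H_nonneg : ∀ (n : ℕ) (w : List (Fin 4)), 0 ≤ H n w
  | 0, _ => zero_le_one
  | n + 1, w => by
    simp only [H]
    split_ifs
    · exact div_nonneg (del_nonneg w _ (H_nonneg n)) (by positivity)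
    · exact le_rfl

theorem Q_nil : Q [] = 1 := rfl

theorem Q_improper (w : List (Fin 4)) (h : ¬ w.IsChain (· ≠ ·)) : Q w = 0 := by
  rcases w with _ | ⟨a, w⟩
  · exact absurd List.isChain_nil h
  · simp only [Q, List.length_cons, H]
    rw [if_neg h]

theorem Q_proper (w : List (Fin 4)) (h : w.IsChain (· ≠ ·)) :
    2 * (w.length + 1) * Q w = del Q w + if w = [] then 2 else 0 := by
  rcases w with _ | ⟨a, w⟩
  · simp [Q_nil, del]
  · have e : del (H w.length) (a :: w) = del Q (a :: w) :=
      del_congr _ _ _ fun u hu => by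
        have : u.length = w.length := by simpa using hu
        rw [Q, this]
    rw [if_neg (by simp), Q, List.length_cons, H, if_pos h, e]
    push_cast
    field_simp
    ring

theorem Q_rep (x y : List (Fin 4)) (a : Fin 4) : Q (x ++ a :: a :: y) = 0 := by
  apply Q_improper
  intro h
  have := (List.isChain_append.1 h).2.1
  simp at this

theorem del_rep (x y : List (Fin 4)) (a : Fin 4) :
    del Q (x ++ a :: a :: y) = 2 * Q (x ++ a :: y) := by
  rw [del_append]
  simp only [del, Q_rep, del_zero]
  ring

theorem key (x y : List (Fin 4)) (hx : x.IsChain (· ≠ ·)) (hy : y.IsChain (· ≠ ·)) (a : Fin 4) :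
    2 * (x.length + y.length + 2) * Q (x ++ a :: y) = del Q (x ++ a :: y)
      - 2 * (if x.getLast? = some a then Q (x ++ y) else 0)
      - 2 * (if y.head? = some a then Q (x ++ y) else 0) := by
  by_cases h1 : x.getLast? = some a
  · obtain ⟨x', rfl⟩ := List.getLast?_eq_some_iff.1 h1
    rw [if_pos h1]
    simp only [List.append_assoc, List.cons_append, List.nil_append]
    rw [Q_rep, del_rep]
    split_ifs with h2
    · obtain ⟨y', rfl⟩ := List.head?_eq_some_iff.1 h2
      rw [Q_rep]
      ring
    · ring
  by_cases h2 : y.head? = some a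
  · obtain ⟨y', rfl⟩ := List.head?_eq_some_iff.1 h2
    rw [if_neg h1, if_pos h2, Q_rep, del_rep]
    ring
  · have h : (x ++ a :: y).IsChain (· ≠ ·) := by
      rw [List.isChain_append]
      refine ⟨hx, ?_, ?_⟩
      · rw [List.isChain_cons]
        refine ⟨fun b hb hab => h2 ?_, hy⟩
        rw [hab]
        exact hb
      · intro b hb c hc hbc
        apply h1
        simp only [List.head?_cons, Option.mem_def, Option.some.injEq] at hc
        rw [hc, ← hbc]
        exact hb
    have := Q_proper _ h
    rw [if_neg (by simp)] at this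
    rw [if_neg h1, if_neg h2]
    simp only [List.length_append, List.length_cons] at this
    push_cast at this
    linarith

theorem sum_last (x : List (Fin 4)) (c : ℝ) :
    ∑ a, (if x.getLast? = some a then c else 0) = if x = [] then 0 else c := by
  rcases List.eq_nil_or_concat x with rfl | ⟨x', b, rfl⟩
  · simp
  · simp

theorem sum_head (y : List (Fin 4)) (c : ℝ) :
    ∑ a, (if y.head? = some a then c else 0) = if y = [] then 0 else c := by
  rcases y with _ | ⟨b, y⟩
  · simp
  · simp

theorem Q_sum (n : ℕ) : ∀ x y : List (Fin 4), x.length + y.length = n →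
    ∑ a, Q (x ++ a :: y) = Q x * Q y := by
  induction n using Nat.strong_induction_on with
  | _ n ih =>
    intro x y hn
    by_cases hx : x.IsChain (· ≠ ·)
    swap
    · rw [Q_improper x hx, zero_mul]
      exact Finset.sum_eq_zero fun a _ =>
        Q_improper _ fun h => hx (List.isChain_append.1 h).1
    by_cases hy : y.IsChain (· ≠ ·)
    swap
    · rw [Q_improper y hy, mul_zero]
      exact Finset.sum_eq_zero fun a _ =>
        Q_improper _ fun h => hy (List.isChain_cons.1 (List.isChain_append.1 h).2.1).2
    have e1 : ∑ a, del Q (x ++ a :: y) = Q y * del Q x + 4 * Q (x ++ y) + Q x * del Q y := by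
      simp only [del_append, del, Finset.sum_add_distrib]
      rw [del_sum x (fun a u => Q (u ++ a :: y)), del_sum y (fun a u => Q (x ++ a :: u)),
        del_congr x _ (fun u => Q y * Q u)
          (fun u hu => by rw [ih (u.length + y.length) (by omega) u y rfl, mul_comm]),
        del_congr y _ (fun u => Q x * Q u)
          (fun u hu => ih (x.length + u.length) (by omega) x u rfl), del_mul, del_mul]
      simp
      ring
    have e2 : 2 * (x.length + y.length + 2) * ∑ a, Q (x ++ a :: y) =
        2 * (x.length + y.length + 2) * (Q x * Q y) := by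
      rw [Finset.mul_sum, Finset.sum_congr rfl fun a _ => key x y hx hy a,
        Finset.sum_sub_distrib, Finset.sum_sub_distrib, ← Finset.mul_sum, ← Finset.mul_sum,
        sum_last, sum_head, e1]
      have f1 := Q_proper x hx
      have f2 := Q_proper y hy
      have g1 : del Q x = 2 * (x.length + 1) * Q x - if x = [] then 2 else 0 := by linarith
      have g2 : del Q y = 2 * (y.length + 1) * Q y - if y = [] then 2 else 0 := by linarith
      rw [g1, g2]
      by_cases h1 : x = [] <;> by_cases h2 : y = []
      · subst h1 h2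
        simp [Q_nil]
        norm_num
      · subst h1
        simp [Q_nil, h2]
        ring
      · subst h2
        simp [Q_nil, h1]
        ring
      · simp [h1, h2]
        ring
    exact mul_left_cancel₀ (by positivity) e2

theorem Q_val : Q [0, 1, 0, 1] = 1 / 240 := by
  simp [Q, H, del]
  norm_num

end Pool.Agent.P.MP_c12967_pr.HL

namespace Pool.Agent.P.MP_c12967_pr

theorem exists_HL : ∃ P : List (Fin 4) → ℝ, P [] = 1 ∧ (∀ x, 0 ≤ P x) ∧
    (∀ x y, ∑ a, P (x ++ a :: y) = P x * P y) ∧ (∀ x y a, P (x ++ a :: a :: y) = 0) ∧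
    P [0, 1, 0, 1] = 1 / 240 :=
  ⟨HL.Q, HL.Q_nil, fun _ => HL.H_nonneg _ _, fun x y => HL.Q_sum _ x y rfl, HL.Q_rep, HL.Q_val⟩

end Pool.Agent.P.MP_c12967_pr
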