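import Mathlib

/-!
From a word function to a stationary 1-dependent colouring of the integers.
-/

set_option autoImplicit false
open MeasureTheory ProbabilityTheory Filter Topology

namespace Pool.Agent.P.MP_c12967_pr.Meas

/-- Sum of `Q` over all words whose `i`-th letter lies in the `i`-th set of the list. -/
noncomputable def ext : (List (Fin 4) → ℝ) → List (Finset (Fin 4)) → ℝ
  | Q, [] => Q []
  | Q, A :: L => ∑ a ∈ A, ext (fun w => Q (a :: w)) L

theorem ext_nonneg : ∀ (L : List (Finset (Fin 4))) (Q : List (Fin 4) → ℝ),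
    (∀ w, 0 ≤ Q w) → 0 ≤ ext Q L
  | [], _, h => h []
  | _ :: L, _, h => Finset.sum_nonneg fun a _ => ext_nonneg L _ fun w => h (a :: w)

theorem ext_sum : ∀ (L : List (Finset (Fin 4))) (Q : Fin 4 → List (Fin 4) → ℝ),
    ∑ a, ext (Q a) L = ext (fun w => ∑ a, Q a w) L
  | [], _ => rfl
  | A :: L, Q => by
    simp only [ext]
    rw [Finset.sum_comm]
    exact Finset.sum_congr rfl fun b _ => ext_sum L (fun a w => Q a (b :: w))

theorem ext_mul : ∀ (L : List (Finset (Fin 4))) (c : ℝ) (Q : List (Fin 4) → ℝ),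
    ext (fun w => c * Q w) L = c * ext Q L
  | [], _, _ => rfl
  | A :: L, c, Q => by
    simp only [ext]
    rw [Finset.mul_sum]
    exact Finset.sum_congr rfl fun b _ => ext_mul L c (fun w => Q (b :: w))

theorem ext_gap : ∀ (L1 L2 : List (Finset (Fin 4))) (Q Q1 Q2 : List (Fin 4) → ℝ),
    (∀ x y, ∑ a, Q (x ++ a :: y) = Q1 x * Q2 y) →
    ext Q (L1 ++ Finset.univ :: L2) = ext Q1 L1 * ext Q2 L2
  | [], L2, Q, Q1, Q2, h => by
    simp only [List.nil_append, ext]
    rw [ext_sum L2 (fun a w => Q (a :: w)), ← ext_mul]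
    congr 1
    funext w
    simpa using h [] w
  | A :: L1, L2, Q, Q1, Q2, h => by
    simp only [List.cons_append, ext]
    rw [Finset.sum_mul]
    refine Finset.sum_congr rfl fun b _ => ?_
    exact ext_gap L1 L2 (fun w => Q (b :: w)) (fun w => Q1 (b :: w)) Q2
      (fun x y => by simpa using h (b :: x) y)

/-- The list of the sets `A t, A (t+1), …, A (t+n-1)`. -/
def lst (A : ℤ → Finset (Fin 4)) : ℤ → ℕ → List (Finset (Fin 4))
  | _, 0 => []
  | t, n + 1 => A t :: lst A (t + 1) n

theorem lst_add (A : ℤ → Finset (Fin 4)) : ∀ (k : ℕ) (t : ℤ) (n : ℕ),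
    lst A t (k + n) = lst A t k ++ lst A (t + k) n
  | 0, t, n => by simp [lst]
  | k + 1, t, n => by
    rw [show k + 1 + n = (k + n) + 1 by omega]
    simp only [lst, List.cons_append]
    rw [lst_add A k (t + 1) n]
    congr 3
    push_cast
    ring

theorem lst_congr (A B : ℤ → Finset (Fin 4)) : ∀ (n : ℕ) (s t : ℤ),
    (∀ i : ℕ, i < n → A (s + i) = B (t + i)) → lst A s n = lst B t n
  | 0, _, _, _ => rfl
  | n + 1, s, t, h => by
    simp only [lst]
    have h0 := h 0 (by omega)
    simp only [Nat.cast_zero, add_zero] at h0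
    rw [h0, lst_congr A B n (s + 1) (t + 1)]
    intro i hi
    have := h (i + 1) (by omega)
    push_cast at this
    rwa [show s + 1 + i = s + (i + 1) by ring, show t + 1 + i = t + (i + 1) by ring]

section
variable {P : List (Fin 4) → ℝ}

theorem val_split (hsum : ∀ x y, ∑ a, P (x ++ a :: y) = P x * P y)
    (A : ℤ → Finset (Fin 4)) (t : ℤ) (k n : ℕ) (h : A (t + k) = Finset.univ) :
    ext P (lst A t (k + (n + 1))) = ext P (lst A t k) * ext P (lst A (t + k + 1) n) := by
  rw [lst_add, lst, h]
  exact ext_gap _ _ P P P hsum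

theorem val_triv (h0 : P [] = 1) (hsum : ∀ x y, ∑ a, P (x ++ a :: y) = P x * P y)
    (A : ℤ → Finset (Fin 4)) : ∀ (n : ℕ) (t : ℤ),
    (∀ i : ℕ, i < n → A (t + i) = Finset.univ) → ext P (lst A t n) = 1
  | 0, _, _ => h0
  | n + 1, t, h => by
    have h1 := val_split hsum A t 0 n (h 0 (by omega))
    simp only [zero_add, Nat.cast_zero, add_zero] at h1
    rw [h1, val_triv h0 hsum A n (t + 1)]
    · simp [lst, ext, h0]
    · intro i hi
      have := h (i + 1) (by omega)
      push_cast at this
      rwa [show t + 1 + i = t + (i + 1) by ring]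

theorem val_left (h0 : P [] = 1) (hsum : ∀ x y, ∑ a, P (x ++ a :: y) = P x * P y)
    (A : ℤ → Finset (Fin 4)) : ∀ (k n : ℕ) (t : ℤ),
    (∀ i : ℕ, i < k → A (t + i) = Finset.univ) →
      ext P (lst A t (k + n)) = ext P (lst A (t + k) n)
  | 0, n, t, _ => by simp
  | k + 1, n, t, h => by
    have h1 := val_split hsum A t k n (h k (by omega))
    rw [show k + 1 + n = k + (n + 1) by omega, h1,
      val_triv h0 hsum A k t (fun i hi => h i (by omega))]
    push_cast
    rw [one_mul, add_assoc]

theorem val_right (h0 : P [] = 1) (hsum : ∀ x y, ∑ a, P (x ++ a :: y) = P x * P y)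
    (A : ℤ → Finset (Fin 4)) (k n : ℕ) (t : ℤ)
    (h : ∀ i : ℕ, i < k → A (t + n + i) = Finset.univ) :
    ext P (lst A t (n + k)) = ext P (lst A t n) := by
  rcases k with _ | k
  · rfl
  · have h1 := val_split hsum A t n k (by simpa using h 0 (by omega))
    rw [h1, val_triv h0 hsum A k (t + n + 1), mul_one]
    intro i hi
    have := h (i + 1) (by omega)
    push_cast at this
    rwa [show t + n + 1 + i = t + n + (i + 1) by ring]

theorem exists_gap (A B : ℤ → Finset (Fin 4))
    (h : ∀ i j, A i ≠ Finset.univ → B j ≠ Finset.univ → 1 < |i - j|) :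
    ∀ (d : ℕ) (i : ℤ), A i ≠ Finset.univ → B (i + d) ≠ Finset.univ →
      ∃ k : ℕ, k ≤ d ∧ A (i + k) = Finset.univ ∧ B (i + k) = Finset.univ
  | 0, i, hA, hB => by
    have := h i _ hA hB
    simp at this
  | d + 1, i, hA, hB => by
    have hB1 : B (i + 1) = Finset.univ := by
      by_contra hc
      have := h i _ hA hc
      simp at this
    by_cases hA1 : A (i + 1) = Finset.univ
    · exact ⟨1, by omega, by simpa using hA1, by simpa using hB1⟩
    · obtain ⟨k, hk, h1, h2⟩ := exists_gap A B h d (i + 1) hA1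
        (by rw [show i + 1 + (d : ℤ) = i + ((d + 1 : ℕ) : ℤ) by push_cast; ring]; exact hB)
      refine ⟨k + 1, by omega, ?_, ?_⟩
      · rw [show i + ((k + 1 : ℕ) : ℤ) = i + 1 + k by push_cast; ring]; exact h1
      · rw [show i + ((k + 1 : ℕ) : ℤ) = i + 1 + k by push_cast; ring]; exact h2

theorem val_inter (h0 : P [] = 1) (hsum : ∀ x y, ∑ a, P (x ++ a :: y) = P x * P y)
    (A B : ℤ → Finset (Fin 4))
    (h : ∀ i j, A i ≠ Finset.univ → B j ≠ Finset.univ → 1 < |i - j|) (n : ℕ) :
    ∀ t : ℤ, ext P (lst (fun i => A i ∩ B i) t n) = ext P (lst A t n) * ext P (lst B t n) := by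
  induction n using Nat.strong_induction_on with
  | _ n ih =>
    intro t
    by_cases hB : ∀ i : ℕ, i < n → B (t + i) = Finset.univ
    · rw [val_triv h0 hsum B n t hB, mul_one]
      congr 1
      exact lst_congr _ _ n t t fun i hi => by simp [hB i hi]
    by_cases hA : ∀ i : ℕ, i < n → A (t + i) = Finset.univ
    · rw [val_triv h0 hsum A n t hA, one_mul]
      congr 1
      exact lst_congr _ _ n t t fun i hi => by simp [hA i hi]
    push Not at hA hB
    obtain ⟨i, hi, hAi⟩ := hA
    obtain ⟨j, hj, hBj⟩ := hB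
    have key : ∃ k : ℕ, k < n ∧ A (t + k) = Finset.univ ∧ B (t + k) = Finset.univ := by
      rcases le_total i j with hij | hij
      · obtain ⟨d, rfl⟩ := Nat.exists_eq_add_of_le hij
        obtain ⟨k, hk, h1, h2⟩ := exists_gap A B h d (t + i) hAi
          (by rw [show t + i + (d : ℤ) = t + ((i + d : ℕ) : ℤ) by push_cast; ring]; exact hBj)
        refine ⟨i + k, by omega, ?_, ?_⟩
        · rw [show t + ((i + k : ℕ) : ℤ) = t + i + k by push_cast; ring]; exact h1
        · rw [show t + ((i + k : ℕ) : ℤ) = t + i + k by push_cast; ring]; exact h2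
      · obtain ⟨d, rfl⟩ := Nat.exists_eq_add_of_le hij
        obtain ⟨k, hk, h1, h2⟩ := exists_gap B A
          (fun i j hi hj => by rw [abs_sub_comm]; exact h j i hj hi) d (t + j) hBj
          (by rw [show t + j + (d : ℤ) = t + ((j + d : ℕ) : ℤ) by push_cast; ring]; exact hAi)
        refine ⟨j + k, by omega, ?_, ?_⟩
        · rw [show t + ((j + k : ℕ) : ℤ) = t + j + k by push_cast; ring]; exact h2
        · rw [show t + ((j + k : ℕ) : ℤ) = t + j + k by push_cast; ring]; exact h1
    obtain ⟨k, hk, h1, h2⟩ := key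
    obtain ⟨m, rfl⟩ : ∃ m, n = k + (m + 1) := ⟨n - k - 1, by omega⟩
    rw [val_split hsum _ t k m (by simp [h1, h2]), val_split hsum A t k m h1,
      val_split hsum B t k m h2, ih k (by omega), ih m (by omega)]
    ring

end

/-- The rectangle with sides `A i` on the window of length `n` starting at `t`. -/
def rect (A : ℤ → Finset (Fin 4)) (t : ℤ) (n : ℕ) : Set (ℤ → Fin 4) :=
  {x | ∀ i : ℕ, i < n → x (t + i) ∈ A (t + i)}

theorem isClopen_rect (A : ℤ → Finset (Fin 4)) (t : ℤ) (n : ℕ) : IsClopen (rect A t n) := by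
  have : rect A t n = ⋂ i ∈ Finset.range n, (fun x : ℤ → Fin 4 => x (t + i)) ⁻¹' (A (t + i)) := by
    ext x
    simp [rect]
  rw [this]
  exact isClopen_biInter_finset fun i _ =>
    (isClopen_discrete _).preimage (continuous_apply _)

theorem measurableSet_rect (A : ℤ → Finset (Fin 4)) (t : ℤ) (n : ℕ) :
    MeasurableSet (rect A t n) :=
  (isClopen_rect A t n).isOpen.measurableSet

/-- The finite-window measure. -/
noncomputable def mu : (List (Fin 4) → ℝ) → ℤ → ℕ → Measure (ℤ → Fin 4)
  | Q, _, 0 => ENNReal.ofReal (Q []) • Measure.dirac (fun _ => 0)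
  | Q, t, n + 1 => ∑ a : Fin 4,
      Measure.map (fun x => Function.update x t a) (mu (fun w => Q (a :: w)) (t + 1) n)

theorem mu_rect (A : ℤ → Finset (Fin 4)) : ∀ (n : ℕ) (Q : List (Fin 4) → ℝ) (t : ℤ),
    (∀ w, 0 ≤ Q w) → mu Q t n (rect A t n) = ENNReal.ofReal (ext Q (lst A t n))
  | 0, Q, t, _ => by
    have : rect A t 0 = Set.univ := by
      ext x
      simp [rect]
    simp [mu, this, lst, ext]
  | n + 1, Q, t, hQ => by
    simp only [mu, lst, ext, Measure.coe_finsetSum, Finset.sum_apply]
    rw [ENNReal.ofReal_sum_of_nonneg (fun a _ => ext_nonneg _ _ fun w => hQ (a :: w)),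
      ← Finset.sum_filter_add_sum_filter_not Finset.univ (fun a => a ∈ A t)]
    have e1 : ∀ a : Fin 4, (fun x : ℤ → Fin 4 => Function.update x t a) ⁻¹' rect A t (n + 1) =
        if a ∈ A t then rect A (t + 1) n else ∅ := by
      intro a
      ext x
      simp only [rect, Set.mem_preimage, Set.mem_ofPred_eq]
      constructor
      · intro h
        have h0 := h 0 (by omega)
        simp only [Nat.cast_zero, add_zero, Function.update_self] at h0
        rw [if_pos h0]
        intro i hi
        have h1 := h (i + 1) (by omega)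
        rw [Function.update_of_ne (by push_cast; omega)] at h1
        push_cast at h1
        rwa [show t + 1 + i = t + (i + 1) by ring]
      · intro h i hi
        by_cases ha : a ∈ A t
        · rw [if_pos ha] at h
          rcases i with _ | i
          · simpa using ha
          · rw [Function.update_of_ne (by push_cast; omega)]
            have h1 := h i (by omega)
            push_cast
            rwa [show t + 1 + i = t + (i + 1) by ring] at h1
        · rw [if_neg ha] at h
          exact absurd h (Set.notMem_empty x)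
    have e2 : ∀ a : Fin 4, Measure.map (fun x => Function.update x t a)
        (mu (fun w => Q (a :: w)) (t + 1) n) (rect A t (n + 1)) =
        if a ∈ A t then ENNReal.ofReal (ext (fun w => Q (a :: w)) (lst A (t + 1) n)) else 0 := by
      intro a
      rw [Measure.map_apply (measurable_update_left) (measurableSet_rect _ _ _), e1]
      split_ifs
      · exact mu_rect A n _ (t + 1) fun w => hQ (a :: w)
      · simp
    simp only [e2]
    rw [Finset.sum_congr rfl (fun a ha => if_neg (Finset.mem_filter.1 ha).2),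
      Finset.sum_congr rfl (fun a ha => if_pos (Finset.mem_filter.1 ha).2)]
    simp

theorem exists_limit {P : List (Fin 4) → ℝ} (h0 : P [] = 1) (hpos : ∀ x, 0 ≤ P x)
    (hsum : ∀ x y, ∑ a, P (x ++ a :: y) = P x * P y) :
    ∃ μ : Measure (ℤ → Fin 4), IsProbabilityMeasure μ ∧
      ∀ (A : ℤ → Finset (Fin 4)) (t : ℤ) (n : ℕ),
        μ (rect A t n) = ENNReal.ofReal (ext P (lst A t n)) := by
  have hprob : ∀ N : ℕ, IsProbabilityMeasure (mu P (-N) (2 * N)) := by
    intro N
    constructor
    have : rect (fun _ => Finset.univ) (-N) (2 * N) = Set.univ := by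
      ext x
      simp [rect]
    rw [← this, mu_rect _ _ _ _ hpos, val_triv h0 hsum _ _ _ (fun _ _ => rfl)]
    simp
  let ν : ℕ → ProbabilityMeasure (ℤ → Fin 4) := fun N => ⟨mu P (-N) (2 * N), hprob N⟩
  obtain ⟨μ, hμ⟩ := exists_clusterPt_of_compactSpace (Filter.map ν atTop)
  obtain ⟨U, hU1, hU2⟩ := mapClusterPt_iff_ultrafilter.1 (show MapClusterPt μ atTop ν from hμ)
  refine ⟨μ, inferInstance, fun A t n => ?_⟩
  have h1 := ProbabilityMeasure.tendsto_measure_of_isClopen_of_tendsto hU2 (isClopen_rect A t n)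
  have h2 : ∀ᶠ N in atTop, (ν N : Measure (ℤ → Fin 4)) (rect A t n) =
      ENNReal.ofReal (ext P (lst A t n)) := by
    filter_upwards [eventually_ge_atTop (t.natAbs + n)] with N hN
    obtain ⟨k, hk⟩ : ∃ k : ℕ, t = -N + k := ⟨(t + N).toNat, by omega⟩
    obtain ⟨j, hj⟩ : ∃ j : ℕ, 2 * N = k + (n + j) := ⟨2 * N - k - n, by omega⟩
    let B : ℤ → Finset (Fin 4) := fun i => if t ≤ i ∧ i < t + n then A i else Finset.univ
    have e1 : rect A t n = rect B (-N) (2 * N) := by
      ext x
      simp only [rect, Set.mem_ofPred_eq, B]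
      constructor
      · intro h i hi
        split_ifs with hc
        · have := h (i - k) (by omega)
          rwa [show t + ((i - k : ℕ) : ℤ) = -N + i by omega] at this
        · simp
      · intro h i hi
        have := h (k + i) (by omega)
        rw [show -(N : ℤ) + ((k + i : ℕ) : ℤ) = t + i by push_cast; omega,
          if_pos (by omega)] at this
        exact this
    show mu P (-N) (2 * N) (rect A t n) = _
    rw [e1, mu_rect _ _ _ _ hpos, hj, val_left h0 hsum B k _ _ (fun i hi => if_neg (by omega)),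
      ← hk, val_right h0 hsum B j n t (fun i hi => if_neg (by omega))]
    congr 2
    exact lst_congr _ _ n t t fun i hi => if_pos (by omega)
  have h3 : Tendsto (fun N => (ν N : Measure (ℤ → Fin 4)) (rect A t n)) U
      (𝓝 ((μ : Measure (ℤ → Fin 4)) (rect A t n))) := by
    have := ENNReal.tendsto_coe.2 h1
    simpa using this
  exact tendsto_nhds_unique h3 (tendsto_const_nhds.congr' ((h2.filter_mono hU1).mono fun N h => h.symm))

/-- Rectangles whose nontrivial sides are indexed by elements of `S`. -/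
def rects (S : Set ℤ) : Set (Set (ℤ → Fin 4)) :=
  {E | ∃ (A : ℤ → Finset (Fin 4)) (N : ℕ), (∀ i, A i ≠ Finset.univ → i ∈ S ∧ -N ≤ i ∧ i < N) ∧
    E = {x | ∀ i, x i ∈ A i}}

theorem box_eq (A : ℤ → Finset (Fin 4)) (N : ℕ)
    (h : ∀ i, A i ≠ Finset.univ → -(N : ℤ) ≤ i ∧ i < N) :
    {x : ℤ → Fin 4 | ∀ i, x i ∈ A i} = rect A (-N) (2 * N) := by
  ext x
  simp only [rect, Set.mem_ofPred_eq]
  constructor
  · intro hx i _
    exact hx _
  · intro hx i
    by_cases hi : A i = Finset.univ
    · simp [hi]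
    · have := hx (i + N).toNat (by have := h i hi; omega)
      rwa [show -(N : ℤ) + ((i + N).toNat : ℤ) = i by have := h i hi; omega] at this

theorem inter_ne_univ {A B : Finset (Fin 4)} (h : A ∩ B ≠ Finset.univ) :
    A ≠ Finset.univ ∨ B ≠ Finset.univ := by
  by_contra hc
  push Not at hc
  simp [hc.1, hc.2] at h

theorem box_inter (A B : ℤ → Finset (Fin 4)) :
    {x : ℤ → Fin 4 | ∀ i, x i ∈ A i} ∩ {x | ∀ i, x i ∈ B i} = {x | ∀ i, x i ∈ A i ∩ B i} := by
  ext x
  simp [forall_and]

theorem isPiSystem_rects (S : Set ℤ) : IsPiSystem (rects S) := by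
  rintro _ ⟨A, N, hA, rfl⟩ _ ⟨B, M, hB, rfl⟩ _
  refine ⟨fun i => A i ∩ B i, N + M, fun i hi => ?_, box_inter A B⟩
  rcases inter_ne_univ hi with h | h
  · have := hA i h
    refine ⟨this.1, ?_⟩
    push_cast
    omega
  · have := hB i h
    refine ⟨this.1, ?_⟩
    push_cast
    omega

theorem generateFrom_rects (S : Set ℤ) :
    (⨆ a ∈ S, MeasurableSpace.comap (fun x : ℤ → Fin 4 => x a) (⊤ : MeasurableSpace (Fin 4))) =
      MeasurableSpace.generateFrom (rects S) := by
  apply le_antisymm
  · refine iSup₂_le fun a ha => ?_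
    rintro _ ⟨s, -, rfl⟩
    apply MeasurableSpace.measurableSet_generateFrom
    classical
    refine ⟨fun i => if i = a then s.toFinset else Finset.univ, a.natAbs + 1, fun i hi => ?_, ?_⟩
    · have : i = a := by
        by_contra hc
        exact hi (if_neg hc)
      subst this
      refine ⟨ha, ?_⟩
      omega
    · ext x
      simp only [Set.mem_preimage, Set.mem_ofPred_eq]
      constructor
      · intro h i
        split_ifs with hc
        · subst hc
          simpa using h
        · simp
      · intro h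
        simpa using h a
  · refine MeasurableSpace.generateFrom_le ?_
    rintro _ ⟨A, N, hA, rfl⟩
    have : {x : ℤ → Fin 4 | ∀ i, x i ∈ A i} = ⋂ i, (fun x : ℤ → Fin 4 => x i) ⁻¹' (A i) := by
      ext x
      simp
    rw [this]
    refine MeasurableSet.iInter fun i => ?_
    by_cases hi : A i = Finset.univ
    · simp [hi]
    · have hle : MeasurableSpace.comap (fun x : ℤ → Fin 4 => x i) (⊤ : MeasurableSpace (Fin 4)) ≤
          ⨆ a ∈ S, MeasurableSpace.comap (fun x : ℤ → Fin 4 => x a)
            (⊤ : MeasurableSpace (Fin 4)) :=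
        le_iSup₂_of_le (f := fun a (_ : a ∈ S) => MeasurableSpace.comap
          (fun x : ℤ → Fin 4 => x a) (⊤ : MeasurableSpace (Fin 4))) i (hA i hi).1 le_rfl
      exact hle _ ⟨_, trivial, rfl⟩

theorem pi_eq : (MeasurableSpace.pi : MeasurableSpace (ℤ → Fin 4)) =
    MeasurableSpace.generateFrom (rects Set.univ) := by
  rw [← generateFrom_rects]
  simp only [Set.mem_univ, iSup_true]
  rfl

theorem sup_le_pi (S : Set ℤ) :
    (⨆ a ∈ S, MeasurableSpace.comap (fun x : ℤ → Fin 4 => x a) (⊤ : MeasurableSpace (Fin 4))) ≤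
      (MeasurableSpace.pi : MeasurableSpace (ℤ → Fin 4)) :=
  iSup₂_le fun a _ => (measurable_pi_apply a).comap_le

theorem exists_measure (P : List (Fin 4) → ℝ) (h0 : P [] = 1) (hpos : ∀ x, 0 ≤ P x)
    (hsum : ∀ x y, ∑ a, P (x ++ a :: y) = P x * P y) (hrep : ∀ a, P [a, a] = 0) :
    ∃ μ : Measure (ℤ → Fin 4), IsProbabilityMeasure μ ∧
      Measure.map (fun x : ℤ → Fin 4 => fun n : ℤ => x (n + 1)) μ = μ ∧
      (∀ᵐ x ∂μ, ∀ n : ℤ, x n ≠ x (n + 1)) ∧
      (∀ A B : Set ℤ, (∀ a ∈ A, ∀ b ∈ B, 1 < |a - b|) →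
        Indep (⨆ a ∈ A, MeasurableSpace.comap (fun x : ℤ → Fin 4 => x a)
            (⊤ : MeasurableSpace (Fin 4)))
          (⨆ b ∈ B, MeasurableSpace.comap (fun x : ℤ → Fin 4 => x b)
            (⊤ : MeasurableSpace (Fin 4))) μ) ∧
      μ {x | x 0 = 0 ∧ x 1 = 1 ∧ x 2 = 0 ∧ x 3 = 1} = ENNReal.ofReal (P [0, 1, 0, 1]) := by
  obtain ⟨μ, hμ, hr⟩ := exists_limit h0 hpos hsum
  have hshift : Measurable (fun x : ℤ → Fin 4 => fun n : ℤ => x (n + 1)) :=
    measurable_pi_lambda _ fun n => measurable_pi_apply _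
  refine ⟨μ, hμ, ?_, ?_, ?_, ?_⟩
  · have : IsProbabilityMeasure (Measure.map (fun x : ℤ → Fin 4 => fun n : ℤ => x (n + 1)) μ) :=
      Measure.isProbabilityMeasure_map hshift.aemeasurable
    refine ext_of_generate_finite (rects Set.univ) pi_eq (isPiSystem_rects _) ?_ (by simp)
    rintro _ ⟨A, N, hA, rfl⟩
    rw [box_eq A N fun i hi => (hA i hi).2, Measure.map_apply hshift (measurableSet_rect _ _ _)]
    have : (fun x : ℤ → Fin 4 => fun n : ℤ => x (n + 1)) ⁻¹' rect A (-N) (2 * N) =
        rect (fun i => A (i - 1)) (-N + 1) (2 * N) := by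
      ext x
      simp only [rect, Set.mem_preimage, Set.mem_ofPred_eq]
      refine forall_congr' fun i => forall_congr' fun _ => ?_
      rw [show -(N : ℤ) + 1 + i - 1 = -N + i by ring, show -(N : ℤ) + 1 + i = -N + i + 1 by ring]
    rw [this, hr, hr]
    congr 2
    exact lst_congr _ _ _ _ _ fun i _ => by
      show A _ = A _
      congr 1
      ring
  · rw [ae_all_iff]
    intro n
    rw [ae_iff]
    have : {x : ℤ → Fin 4 | ¬x n ≠ x (n + 1)} = ⋃ a : Fin 4, rect (fun _ => {a}) n 2 := by
      ext x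
      simp only [rect, Set.mem_ofPred_eq, Set.mem_iUnion, not_not, Finset.mem_singleton]
      constructor
      · intro h
        refine ⟨x n, fun i hi => ?_⟩
        interval_cases i
        · simp
        · simp [h]
      · rintro ⟨a, h⟩
        have h1 := h 0 (by omega)
        have h2 := h 1 (by omega)
        simp only [Nat.cast_zero, add_zero, Nat.cast_one] at h1 h2
        rw [h1, h2]
    rw [this]
    refine measure_iUnion_null fun a => ?_
    rw [hr]
    simp [lst, ext, hrep]
  · intro S T hST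
    refine IndepSets.indep (sup_le_pi S) (sup_le_pi T) (isPiSystem_rects S) (isPiSystem_rects T)
      (generateFrom_rects S) (generateFrom_rects T) ?_
    rw [IndepSets_iff]
    rintro _ _ ⟨A, N, hA, rfl⟩ ⟨B, M, hB, rfl⟩
    have hA' : ∀ i, A i ≠ Finset.univ → -((N + M : ℕ) : ℤ) ≤ i ∧ i < (N + M : ℕ) := by
      intro i hi
      have := hA i hi
      push_cast
      omega
    have hB' : ∀ i, B i ≠ Finset.univ → -((N + M : ℕ) : ℤ) ≤ i ∧ i < (N + M : ℕ) := by
      intro i hi
      have := hB i hi
      push_cast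
      omega
    rw [box_inter, box_eq A _ hA', box_eq B _ hB', box_eq (fun i => A i ∩ B i) (N + M)
      (fun i hi => (inter_ne_univ hi).elim (hA' i) (hB' i)), hr, hr, hr,
      val_inter h0 hsum A B (fun i j hi hj => hST i (hA i hi).1 j (hB j hj).1),
      ENNReal.ofReal_mul (ext_nonneg _ _ hpos)]
  · have : {x : ℤ → Fin 4 | x 0 = 0 ∧ x 1 = 1 ∧ x 2 = 0 ∧ x 3 = 1} =
        rect (fun i => if i = 0 ∨ i = 2 then {0} else {1}) 0 4 := by
      ext x
      simp only [rect, Set.mem_ofPred_eq]
      constructor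
      · rintro ⟨h1, h2, h3, h4⟩ i hi
        interval_cases i <;> simp [h1, h2, h3, h4]
      · intro h
        have h1 := h 0 (by omega)
        have h2 := h 1 (by omega)
        have h3 := h 2 (by omega)
        have h4 := h 3 (by omega)
        simp at h1 h2 h3 h4
        exact ⟨h1, h2, h3, h4⟩
    rw [this, hr]
    simp [lst, ext]

end Pool.Agent.P.MP_c12967_pr.Meas
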