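import Pool.Agent.P.MP_c12967_pr.Cone

/-!
The second stationary one-dependent four-colouring, as a function on words.
-/

set_option autoImplicit false
set_option linter.unusedSimpArgs false

namespace Pool.Agent.P.MP_c12967_pr

/-- Transfer operator attached to an ordered pair of colours (Klein four-group increments). -/
noncomputable def Tc (c d : Fin 4) (f : St) : St :=
  if c = d then St.smul 0 f
  else if c.val + d.val = 1 ∨ c.val + d.val = 5 then T0 f
  else if c.val + d.val = 3 then T2 f else T1 f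

/-- Weight of a continuation of a word. -/
noncomputable def ev : St → Fin 4 → List (Fin 4) → ℝ
  | f, _, [] => f.w
  | f, c, d :: x => ev (Tc c d f) d x

lemma smul_smul' (k l : ℝ) (f : St) : St.smul k (St.smul l f) = St.smul l (St.smul k f) := by
  ext j <;> simp only [St.smul] <;> ring

lemma smul_add' (k : ℝ) (f g : St) : St.smul k (f.add g) = (St.smul k f).add (St.smul k g) := by
  ext j <;> simp only [St.smul, St.add] <;> ring

lemma Tc_add (c d : Fin 4) (f g : St) : Tc c d (f.add g) = (Tc c d f).add (Tc c d g) := by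
  unfold Tc
  split_ifs
  · exact smul_add' 0 f g
  · exact T0_add f g
  · simp only [T2, rot_add, T0_add]
  · simp only [T1, rot_add, T0_add]

lemma Tc_smul (c d : Fin 4) (k : ℝ) (f : St) : Tc c d (St.smul k f) = St.smul k (Tc c d f) := by
  unfold Tc
  split_ifs
  · exact smul_smul' 0 k f
  · exact T0_smul k f
  · simp only [T2, rot_smul, T0_smul]
  · simp only [T1, rot_smul, T0_smul]

lemma ev_add (x : List (Fin 4)) : ∀ (f g : St) (c : Fin 4),
    ev (f.add g) c x = ev f c x + ev g c x := by
  induction x with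
  | nil => intro f g c; simp only [ev, St.w, St.add]; ring
  | cons d x ih => intro f g c; simp only [ev, Tc_add, ih]

lemma ev_smul (x : List (Fin 4)) : ∀ (k : ℝ) (f : St) (c : Fin 4),
    ev (St.smul k f) c x = k * ev f c x := by
  induction x with
  | nil => intro k f c; simp only [ev, St.w, St.smul]; ring
  | cons d x ih => intro k f c; simp only [ev, Tc_smul, ih]

lemma T0_z (f : St) : T0 (St.smul 0 f) = St.smul 0 (T0 f) := T0_smul 0 f
lemma T1_z (f : St) : T1 (St.smul 0 f) = St.smul 0 (T1 f) := by simp only [T1, rot_smul, T0_smul]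
lemma T2_z (f : St) : T2 (St.smul 0 f) = St.smul 0 (T2 f) := by simp only [T2, rot_smul, T0_smul]

lemma sum_two (f : St) (p q : Fin 4) (y : List (Fin 4)) :
    ∑ a, ev (Tc a q (Tc p a f)) q y = f.w * ev lam q y := by
  have hsq := congrArg (fun g => ev g q y) (rel_sq f)
  have h01 := congrArg (fun g => ev g q y) (rel_01 f)
  have h12 := congrArg (fun g => ev g q y) (rel_12 f)
  have h20 := congrArg (fun g => ev g q y) (rel_20 f)
  simp only [ev_add, ev_smul] at hsq h01 h12 h20
  rw [Fin.sum_univ_four]
  fin_cases p <;> fin_cases q <;>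
    simp [Tc, T0_z, T1_z, T2_z, ev_smul] at hsq h01 h12 h20 ⊢ <;> linarith

lemma sum_w (f : St) (p : Fin 4) : ∑ a, (Tc p a f).w = 6 * f.w := by
  have h := rel_w f
  have hz : (St.smul 0 f).w = 0 := by simp [St.smul, St.w]
  rw [Fin.sum_univ_four]
  fin_cases p <;> simp [Tc, hz] <;> linarith

lemma sum_lam (q : Fin 4) (y : List (Fin 4)) :
    ∑ a, ev (Tc a q lam) q y = 6 * ev lam q y := by
  have h := congrArg (fun g => ev g q y) rel_lam
  simp only [ev_add, ev_smul] at h
  rw [Fin.sum_univ_four]
  fin_cases q <;> simp [Tc, ev_smul] at h ⊢ <;> linarith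

lemma ev_mid (q : Fin 4) (y x : List (Fin 4)) : ∀ (f : St) (c : Fin 4),
    ∑ a, ev f c (x ++ a :: q :: y) = ev f c x * ev lam q y := by
  induction x with
  | nil => intro f c; simp only [List.nil_append, ev]; exact sum_two f c q y
  | cons d x ih => intro f c; simp only [List.cons_append, ev]; exact ih _ d

lemma ev_last (x : List (Fin 4)) : ∀ (f : St) (c : Fin 4),
    ∑ a, ev f c (x ++ [a]) = 6 * ev f c x := by
  induction x with
  | nil => intro f c; simp only [List.nil_append, ev]; exact sum_w f c
  | cons d x ih => intro f c; simp only [List.cons_append, ev]; exact ih _ d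

lemma ev_rep0 (f : St) (a : Fin 4) (y : List (Fin 4)) : ev f a (a :: y) = 0 := by
  simp [ev, Tc, ev_smul]

lemma ev_rep (a : Fin 4) (y x : List (Fin 4)) : ∀ (f : St) (c : Fin 4),
    ev f c (x ++ a :: a :: y) = 0 := by
  induction x with
  | nil => intro f c; simp only [List.nil_append]; rw [ev]; exact ev_rep0 _ a y
  | cons d x ih => intro f c; simp only [List.cons_append, ev]; exact ih _ d

/-- All three restrictions lie in the cone. -/
def Good (f : St) : Prop := Cone (res f) ∧ Cone (res (rot f)) ∧ Cone (res (rot (rot f)))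

lemma Good_rot (f : St) (h : Good f) : Good (rot f) := ⟨h.2.1, h.2.2, h.1⟩

lemma Good_T0 (f : St) (h : Good f) : Good (T0 f) := by
  obtain ⟨h0, h1, h2⟩ := h
  refine ⟨?_, ?_, ?_⟩
  · rw [res_T0]; exact Cone.add _ _ (Cone_B _ h1) (Cone_A _ h2)
  · have e : rot (T0 f) = T2 (rot f) := rfl
    rw [e, res_T2]; exact Cone_B _ h2
  · have e : rot (rot (T0 f)) = T1 (rot (rot f)) := rfl
    rw [e, res_T1]; exact Cone_A _ h1

lemma Good_w (f : St) (h : Good f) : 0 ≤ f.w := by
  have h0 := Cone_r _ h.1
  have h1 := Cone_r _ h.2.1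
  have h2 := Cone_r _ h.2.2
  rw [w_res]; linarith

lemma ev_nonneg (x : List (Fin 4)) : ∀ (f : St) (c : Fin 4), Good f → 0 ≤ ev f c x := by
  induction x with
  | nil => intro f c h; exact Good_w f h
  | cons d x ih =>
    intro f c h
    rw [ev, Tc]
    split_ifs
    · rw [ev_smul, zero_mul]
    · exact ih _ d (Good_T0 f h)
    · exact ih _ d (Good_rot _ (Good_T0 _ (Good_rot _ (Good_rot _ h))))
    · exact ih _ d (Good_rot _ (Good_rot _ (Good_T0 _ (Good_rot _ h))))

lemma sg_lam : sg (res lam) = res lam := by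
  ext i
  · rfl
  · rcases i with _ | _ | i <;> simp [sg, res, lam]; norm_num
  · rcases i with _ | _ | i <;> simp [sg, res, lam]
  · rcases i with _ | _ | i <;> simp [sg, res, lam]

lemma E_lam : E (toX (res lam)) := by
  have er : (toX (res lam)).r = 18 := by simp [toX, res, lam]
  have e0 : (toX (res lam)).X 0 = -36 := by simp [toX, res, lam]; norm_num
  have e1 : (toX (res lam)).X 1 = 13 := by simp [toX, res, lam, St.w]; norm_num
  have e2 : (toX (res lam)).X 2 = -4 := by simp [toX, res, lam]; norm_num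
  have e3 : (toX (res lam)).Z 0 = 13 := by simp [toX, res, lam, St.w]; norm_num
  refine ⟨?_, ?_, ?_, ?_, ?_, ?_, ?_, ?_, ?_, ?_, ?_⟩
  any_goals (simp only [er, e0, e1, e2, e3]; norm_num)
  · intro k hk
    obtain ⟨i, rfl | rfl⟩ := Nat.even_or_odd' k
    · rw [toX_even]
      obtain ⟨i, rfl⟩ : ∃ j, i = j + 2 := ⟨i - 2, by omega⟩
      simp [res, lam]; norm_num
    · rw [toX_odd]
      obtain ⟨i, rfl⟩ : ∃ j, i = j + 1 := ⟨i - 1, by omega⟩
      rcases i with _ | i <;> simp [res, lam] <;> norm_num
  · intro i hi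
    obtain ⟨i, rfl⟩ : ∃ j, i = j + 1 := ⟨i - 1, by omega⟩
    rcases i with _ | i <;> simp [toX, res, lam] <;> norm_num

lemma Good_lam : Good lam := by
  have h : Cone (res lam) := Cone.base _ (Or.inr (Or.inr ⟨E_lam, by rw [sg_lam]; exact E_lam⟩))
  exact ⟨h, h, h⟩

/-- Cylinder probabilities of the new colouring. -/
noncomputable def Pnew : List (Fin 4) → ℝ
  | [] => 1
  | c :: x => ev lam c x / 6 ^ (x.length + 2)

theorem exists_new : ∃ P : List (Fin 4) → ℝ, P [] = 1 ∧ (∀ x, 0 ≤ P x) ∧
    (∀ x y, ∑ a, P (x ++ a :: y) = P x * P y) ∧ (∀ x y a, P (x ++ a :: a :: y) = 0) ∧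
    P [0, 1, 0, 1] = 131 / 31104 := by
  refine ⟨Pnew, rfl, ?_, ?_, ?_, ?_⟩
  · intro x
    rcases x with _ | ⟨c, x⟩
    · exact zero_le_one
    · exact div_nonneg (ev_nonneg x lam c Good_lam) (by positivity)
  · intro x y
    rcases x with _ | ⟨c, x⟩ <;> rcases y with _ | ⟨q, y⟩
    · simp [Pnew, ev, St.w, lam]; norm_num
    · simp only [List.nil_append, Pnew, ev, List.length_cons, ← Finset.sum_div, sum_lam]
      ring
    · simp only [List.cons_append, Pnew, List.length_append, List.length_cons, List.length_nil,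
        ← Finset.sum_div, ev_last]
      ring
    · simp only [List.cons_append, Pnew, List.length_append, List.length_cons,
        ← Finset.sum_div, ev_mid]
      ring
  · intro x y a
    rcases x with _ | ⟨c, x⟩
    · simp only [List.nil_append, Pnew, ev_rep0, zero_div]
    · simp only [List.cons_append, Pnew, ev_rep, zero_div]
  · simp [Pnew, ev, Tc, T0, St.w, lam]; norm_num

end Pool.Agent.P.MP_c12967_pr
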