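import Pool.Agent.P.MP_c12967_pr.PosBase

/-!
Entry into the long-run invariant.
-/

set_option autoImplicit false

namespace Pool.Agent.P.MP_c12967_pr

/-- The normalising quantity after eight steps. -/
noncomputable def nu (c : R) : ℝ :=
  (M^[8] c).r - (12 / 29 * bb (M^[6] c) 1 + 5 / 29 * bb (M^[6] c) 2 + 2 / 29 * bb (M^[6] c) 3)

lemma nu_eq (c : R) : nu c = (1/1) * c.r + (-2241/3712) * c.X 0 + (-3703/7424) * c.X 1 + (-189/928) * c.X 2 + (-633/7424) * c.X 3 + (-37/928) * c.X 4 + (-125/7424) * c.X 5 + (-13/3712) * c.X 6 + (-1/1856) * c.X 7 + (-3/1856) * c.X 8 + (-9/7424) * c.X 9 + (-1/3712) * c.X 10 := by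
  rw [nu, bb_1, bb_2, bb_3, f8_r, f6_X0, f6_X1, f6_X2, f6_X3, f6_X4]; ring

lemma nu_ge (c : R) (h : E c) : 9616 / 10000 * (c.r - c.X 0 / 4) ≤ nu c := by
  obtain ⟨hN, a1, a2, b1, b2, c1, c2, d1, d2, ht, -⟩ := h
  obtain ⟨t3, u3⟩ := abs_le.mp (ht 3 (by norm_num))
  obtain ⟨t4, u4⟩ := abs_le.mp (ht 4 (by norm_num))
  obtain ⟨t5, u5⟩ := abs_le.mp (ht 5 (by norm_num))
  obtain ⟨t6, u6⟩ := abs_le.mp (ht 6 (by norm_num))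
  obtain ⟨t7, u7⟩ := abs_le.mp (ht 7 (by norm_num))
  obtain ⟨t8, u8⟩ := abs_le.mp (ht 8 (by norm_num))
  obtain ⟨t9, u9⟩ := abs_le.mp (ht 9 (by norm_num))
  obtain ⟨t10, u10⟩ := abs_le.mp (ht 10 (by norm_num))
  clear ht
  rw [nu_eq]; linarith

lemma ent_b1 (c : R) (h : E c) : |bb (M^[6] c) 1| ≤ 13 / 200 * nu c := by
  obtain ⟨hN, a1, a2, b1, b2, c1, c2, d1, d2, ht, -⟩ := h
  obtain ⟨t3, u3⟩ := abs_le.mp (ht 3 (by norm_num))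
  obtain ⟨t4, u4⟩ := abs_le.mp (ht 4 (by norm_num))
  obtain ⟨t5, u5⟩ := abs_le.mp (ht 5 (by norm_num))
  obtain ⟨t6, u6⟩ := abs_le.mp (ht 6 (by norm_num))
  obtain ⟨t7, u7⟩ := abs_le.mp (ht 7 (by norm_num))
  obtain ⟨t8, u8⟩ := abs_le.mp (ht 8 (by norm_num))
  obtain ⟨t9, u9⟩ := abs_le.mp (ht 9 (by norm_num))
  obtain ⟨t10, u10⟩ := abs_le.mp (ht 10 (by norm_num))
  clear ht
  rw [bb_1, nu_eq, f6_X0, f6_X1, f6_X2, abs_le]; constructor <;> linarith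

lemma ent_c0 (c : R) (h : E c) :
    |((M^[6] c).X 0 + 2 * (M^[6] c).X 1 + (M^[6] c).X 2) / 4| ≤ 2 * (13 / 200 * nu c) := by
  obtain ⟨hN, a1, a2, b1, b2, c1, c2, d1, d2, ht, -⟩ := h
  obtain ⟨t3, u3⟩ := abs_le.mp (ht 3 (by norm_num))
  obtain ⟨t4, u4⟩ := abs_le.mp (ht 4 (by norm_num))
  obtain ⟨t5, u5⟩ := abs_le.mp (ht 5 (by norm_num))
  obtain ⟨t6, u6⟩ := abs_le.mp (ht 6 (by norm_num))
  obtain ⟨t7, u7⟩ := abs_le.mp (ht 7 (by norm_num))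
  obtain ⟨t8, u8⟩ := abs_le.mp (ht 8 (by norm_num))
  obtain ⟨t9, u9⟩ := abs_le.mp (ht 9 (by norm_num))
  obtain ⟨t10, u10⟩ := abs_le.mp (ht 10 (by norm_num))
  clear ht
  rw [nu_eq, f6_X0, f6_X1, f6_X2, abs_le]; constructor <;> linarith

lemma ent_c1 (c : R) (h : E c) :
    |((M^[6] c).X 1 + 2 * (M^[6] c).X 2 + (M^[6] c).X 3) / 4| ≤ 2 * (13 / 200 * nu c) := by
  obtain ⟨hN, a1, a2, b1, b2, c1, c2, d1, d2, ht, -⟩ := h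
  obtain ⟨t3, u3⟩ := abs_le.mp (ht 3 (by norm_num))
  obtain ⟨t4, u4⟩ := abs_le.mp (ht 4 (by norm_num))
  obtain ⟨t5, u5⟩ := abs_le.mp (ht 5 (by norm_num))
  obtain ⟨t6, u6⟩ := abs_le.mp (ht 6 (by norm_num))
  obtain ⟨t7, u7⟩ := abs_le.mp (ht 7 (by norm_num))
  obtain ⟨t8, u8⟩ := abs_le.mp (ht 8 (by norm_num))
  obtain ⟨t9, u9⟩ := abs_le.mp (ht 9 (by norm_num))
  obtain ⟨t10, u10⟩ := abs_le.mp (ht 10 (by norm_num))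
  clear ht
  rw [nu_eq, f6_X1, f6_X2, f6_X3, abs_le]; constructor <;> linarith

lemma ent_c2 (c : R) (h : E c) :
    |((M^[6] c).X 2 + 2 * (M^[6] c).X 3 + (M^[6] c).X 4) / 4| ≤ 2 * (13 / 200 * nu c) := by
  obtain ⟨hN, a1, a2, b1, b2, c1, c2, d1, d2, ht, -⟩ := h
  obtain ⟨t3, u3⟩ := abs_le.mp (ht 3 (by norm_num))
  obtain ⟨t4, u4⟩ := abs_le.mp (ht 4 (by norm_num))
  obtain ⟨t5, u5⟩ := abs_le.mp (ht 5 (by norm_num))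
  obtain ⟨t6, u6⟩ := abs_le.mp (ht 6 (by norm_num))
  obtain ⟨t7, u7⟩ := abs_le.mp (ht 7 (by norm_num))
  obtain ⟨t8, u8⟩ := abs_le.mp (ht 8 (by norm_num))
  obtain ⟨t9, u9⟩ := abs_le.mp (ht 9 (by norm_num))
  obtain ⟨t10, u10⟩ := abs_le.mp (ht 10 (by norm_num))
  clear ht
  rw [nu_eq, f6_X2, f6_X3, f6_X4, abs_le]; constructor <;> linarith

lemma ent_c3 (c : R) (h : E c) :
    |((M^[6] c).X 3 + 2 * (M^[6] c).X 4 + (M^[6] c).X 5) / 4| ≤ 2 * (13 / 200 * nu c) := by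
  obtain ⟨hN, a1, a2, b1, b2, c1, c2, d1, d2, ht, -⟩ := h
  obtain ⟨t3, u3⟩ := abs_le.mp (ht 3 (by norm_num))
  obtain ⟨t4, u4⟩ := abs_le.mp (ht 4 (by norm_num))
  obtain ⟨t5, u5⟩ := abs_le.mp (ht 5 (by norm_num))
  obtain ⟨t6, u6⟩ := abs_le.mp (ht 6 (by norm_num))
  obtain ⟨t7, u7⟩ := abs_le.mp (ht 7 (by norm_num))
  obtain ⟨t8, u8⟩ := abs_le.mp (ht 8 (by norm_num))
  obtain ⟨t9, u9⟩ := abs_le.mp (ht 9 (by norm_num))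
  obtain ⟨t10, u10⟩ := abs_le.mp (ht 10 (by norm_num))
  obtain ⟨t11, u11⟩ := abs_le.mp (ht 11 (by norm_num))
  clear ht
  rw [nu_eq, f6_X3, f6_X4, f6_X5, abs_le]; constructor <;> linarith

lemma ent_c4 (c : R) (h : E c) :
    |((M^[6] c).X 4 + 2 * (M^[6] c).X 5 + (M^[6] c).X 6) / 4| ≤ 2 * (13 / 200 * nu c) := by
  obtain ⟨hN, a1, a2, b1, b2, c1, c2, d1, d2, ht, -⟩ := h
  obtain ⟨t3, u3⟩ := abs_le.mp (ht 3 (by norm_num))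
  obtain ⟨t4, u4⟩ := abs_le.mp (ht 4 (by norm_num))
  obtain ⟨t5, u5⟩ := abs_le.mp (ht 5 (by norm_num))
  obtain ⟨t6, u6⟩ := abs_le.mp (ht 6 (by norm_num))
  obtain ⟨t7, u7⟩ := abs_le.mp (ht 7 (by norm_num))
  obtain ⟨t8, u8⟩ := abs_le.mp (ht 8 (by norm_num))
  obtain ⟨t9, u9⟩ := abs_le.mp (ht 9 (by norm_num))
  obtain ⟨t10, u10⟩ := abs_le.mp (ht 10 (by norm_num))
  obtain ⟨t11, u11⟩ := abs_le.mp (ht 11 (by norm_num))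
  obtain ⟨t12, u12⟩ := abs_le.mp (ht 12 (by norm_num))
  clear ht
  rw [nu_eq, f6_X4, f6_X5, f6_X6, abs_le]; constructor <;> linarith

lemma ent_c5 (c : R) (h : E c) :
    |((M^[6] c).X 5 + 2 * (M^[6] c).X 6 + (M^[6] c).X 7) / 4| ≤ 2 * (13 / 200 * nu c) := by
  obtain ⟨hN, a1, a2, b1, b2, c1, c2, d1, d2, ht, -⟩ := h
  obtain ⟨t3, u3⟩ := abs_le.mp (ht 3 (by norm_num))
  obtain ⟨t4, u4⟩ := abs_le.mp (ht 4 (by norm_num))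
  obtain ⟨t5, u5⟩ := abs_le.mp (ht 5 (by norm_num))
  obtain ⟨t6, u6⟩ := abs_le.mp (ht 6 (by norm_num))
  obtain ⟨t7, u7⟩ := abs_le.mp (ht 7 (by norm_num))
  obtain ⟨t8, u8⟩ := abs_le.mp (ht 8 (by norm_num))
  obtain ⟨t9, u9⟩ := abs_le.mp (ht 9 (by norm_num))
  obtain ⟨t10, u10⟩ := abs_le.mp (ht 10 (by norm_num))
  obtain ⟨t11, u11⟩ := abs_le.mp (ht 11 (by norm_num))
  obtain ⟨t12, u12⟩ := abs_le.mp (ht 12 (by norm_num))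
  obtain ⟨t13, u13⟩ := abs_le.mp (ht 13 (by norm_num))
  clear ht
  rw [nu_eq, f6_X5, f6_X6, f6_X7, abs_le]; constructor <;> linarith

lemma ent_c6 (c : R) (h : E c) :
    |((M^[6] c).X 6 + 2 * (M^[6] c).X 7 + (M^[6] c).X 8) / 4| ≤ 2 * (13 / 200 * nu c) := by
  obtain ⟨hN, a1, a2, b1, b2, c1, c2, d1, d2, ht, -⟩ := h
  obtain ⟨t3, u3⟩ := abs_le.mp (ht 3 (by norm_num))
  obtain ⟨t4, u4⟩ := abs_le.mp (ht 4 (by norm_num))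
  obtain ⟨t5, u5⟩ := abs_le.mp (ht 5 (by norm_num))
  obtain ⟨t6, u6⟩ := abs_le.mp (ht 6 (by norm_num))
  obtain ⟨t7, u7⟩ := abs_le.mp (ht 7 (by norm_num))
  obtain ⟨t8, u8⟩ := abs_le.mp (ht 8 (by norm_num))
  obtain ⟨t9, u9⟩ := abs_le.mp (ht 9 (by norm_num))
  obtain ⟨t10, u10⟩ := abs_le.mp (ht 10 (by norm_num))
  obtain ⟨t11, u11⟩ := abs_le.mp (ht 11 (by norm_num))
  obtain ⟨t12, u12⟩ := abs_le.mp (ht 12 (by norm_num))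
  obtain ⟨t13, u13⟩ := abs_le.mp (ht 13 (by norm_num))
  obtain ⟨t14, u14⟩ := abs_le.mp (ht 14 (by norm_num))
  clear ht
  rw [nu_eq, f6_X6, f6_X7, f6_X8, abs_le]; constructor <;> linarith

lemma ent_c7 (c : R) (h : E c) :
    |((M^[6] c).X 7 + 2 * (M^[6] c).X 8 + (M^[6] c).X 9) / 4| ≤ 2 * (13 / 200 * nu c) := by
  obtain ⟨hN, a1, a2, b1, b2, c1, c2, d1, d2, ht, -⟩ := h
  obtain ⟨t3, u3⟩ := abs_le.mp (ht 3 (by norm_num))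
  obtain ⟨t4, u4⟩ := abs_le.mp (ht 4 (by norm_num))
  obtain ⟨t5, u5⟩ := abs_le.mp (ht 5 (by norm_num))
  obtain ⟨t6, u6⟩ := abs_le.mp (ht 6 (by norm_num))
  obtain ⟨t7, u7⟩ := abs_le.mp (ht 7 (by norm_num))
  obtain ⟨t8, u8⟩ := abs_le.mp (ht 8 (by norm_num))
  obtain ⟨t9, u9⟩ := abs_le.mp (ht 9 (by norm_num))
  obtain ⟨t10, u10⟩ := abs_le.mp (ht 10 (by norm_num))
  obtain ⟨t11, u11⟩ := abs_le.mp (ht 11 (by norm_num))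
  obtain ⟨t12, u12⟩ := abs_le.mp (ht 12 (by norm_num))
  obtain ⟨t13, u13⟩ := abs_le.mp (ht 13 (by norm_num))
  obtain ⟨t14, u14⟩ := abs_le.mp (ht 14 (by norm_num))
  obtain ⟨t15, u15⟩ := abs_le.mp (ht 15 (by norm_num))
  clear ht
  rw [nu_eq, f6_X7, f6_X8, f6_X9, abs_le]; constructor <;> linarith

lemma ent_c8 (c : R) (h : E c) :
    |((M^[6] c).X 8 + 2 * (M^[6] c).X 9 + (M^[6] c).X 10) / 4| ≤ 2 * (13 / 200 * nu c) := by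
  obtain ⟨hN, a1, a2, b1, b2, c1, c2, d1, d2, ht, -⟩ := h
  obtain ⟨t3, u3⟩ := abs_le.mp (ht 3 (by norm_num))
  obtain ⟨t4, u4⟩ := abs_le.mp (ht 4 (by norm_num))
  obtain ⟨t5, u5⟩ := abs_le.mp (ht 5 (by norm_num))
  obtain ⟨t6, u6⟩ := abs_le.mp (ht 6 (by norm_num))
  obtain ⟨t7, u7⟩ := abs_le.mp (ht 7 (by norm_num))
  obtain ⟨t8, u8⟩ := abs_le.mp (ht 8 (by norm_num))
  obtain ⟨t9, u9⟩ := abs_le.mp (ht 9 (by norm_num))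
  obtain ⟨t10, u10⟩ := abs_le.mp (ht 10 (by norm_num))
  obtain ⟨t11, u11⟩ := abs_le.mp (ht 11 (by norm_num))
  obtain ⟨t12, u12⟩ := abs_le.mp (ht 12 (by norm_num))
  obtain ⟨t13, u13⟩ := abs_le.mp (ht 13 (by norm_num))
  obtain ⟨t14, u14⟩ := abs_le.mp (ht 14 (by norm_num))
  obtain ⟨t15, u15⟩ := abs_le.mp (ht 15 (by norm_num))
  obtain ⟨t16, u16⟩ := abs_le.mp (ht 16 (by norm_num))
  clear ht
  rw [nu_eq, f6_X8, f6_X9, f6_X10, abs_le]; constructor <;> linarith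

lemma ent_x1 (c : R) (h : E c) : |(M^[8] c).X 1| ≤ 11 / 50 * nu c := by
  obtain ⟨hN, a1, a2, b1, b2, c1, c2, d1, d2, ht, -⟩ := h
  obtain ⟨t3, u3⟩ := abs_le.mp (ht 3 (by norm_num))
  obtain ⟨t4, u4⟩ := abs_le.mp (ht 4 (by norm_num))
  obtain ⟨t5, u5⟩ := abs_le.mp (ht 5 (by norm_num))
  obtain ⟨t6, u6⟩ := abs_le.mp (ht 6 (by norm_num))
  obtain ⟨t7, u7⟩ := abs_le.mp (ht 7 (by norm_num))
  obtain ⟨t8, u8⟩ := abs_le.mp (ht 8 (by norm_num))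
  obtain ⟨t9, u9⟩ := abs_le.mp (ht 9 (by norm_num))
  obtain ⟨t10, u10⟩ := abs_le.mp (ht 10 (by norm_num))
  clear ht
  rw [nu_eq, f8_X1, abs_le]; constructor <;> linarith

lemma ent_x2 (c : R) (h : E c) : |(M^[8] c).X 2| ≤ 11 / 50 * nu c := by
  obtain ⟨hN, a1, a2, b1, b2, c1, c2, d1, d2, ht, -⟩ := h
  obtain ⟨t3, u3⟩ := abs_le.mp (ht 3 (by norm_num))
  obtain ⟨t4, u4⟩ := abs_le.mp (ht 4 (by norm_num))
  obtain ⟨t5, u5⟩ := abs_le.mp (ht 5 (by norm_num))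
  obtain ⟨t6, u6⟩ := abs_le.mp (ht 6 (by norm_num))
  obtain ⟨t7, u7⟩ := abs_le.mp (ht 7 (by norm_num))
  obtain ⟨t8, u8⟩ := abs_le.mp (ht 8 (by norm_num))
  obtain ⟨t9, u9⟩ := abs_le.mp (ht 9 (by norm_num))
  obtain ⟨t10, u10⟩ := abs_le.mp (ht 10 (by norm_num))
  clear ht
  rw [nu_eq, f8_X2, abs_le]; constructor <;> linarith

lemma ent_x3 (c : R) (h : E c) : |(M^[8] c).X 3| ≤ 11 / 50 * nu c := by
  obtain ⟨hN, a1, a2, b1, b2, c1, c2, d1, d2, ht, -⟩ := h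
  obtain ⟨t3, u3⟩ := abs_le.mp (ht 3 (by norm_num))
  obtain ⟨t4, u4⟩ := abs_le.mp (ht 4 (by norm_num))
  obtain ⟨t5, u5⟩ := abs_le.mp (ht 5 (by norm_num))
  obtain ⟨t6, u6⟩ := abs_le.mp (ht 6 (by norm_num))
  obtain ⟨t7, u7⟩ := abs_le.mp (ht 7 (by norm_num))
  obtain ⟨t8, u8⟩ := abs_le.mp (ht 8 (by norm_num))
  obtain ⟨t9, u9⟩ := abs_le.mp (ht 9 (by norm_num))
  obtain ⟨t10, u10⟩ := abs_le.mp (ht 10 (by norm_num))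
  obtain ⟨t11, u11⟩ := abs_le.mp (ht 11 (by norm_num))
  clear ht
  rw [nu_eq, f8_X3, abs_le]; constructor <;> linarith

lemma ent_x4 (c : R) (h : E c) : |(M^[8] c).X 4| ≤ 11 / 50 * nu c := by
  obtain ⟨hN, a1, a2, b1, b2, c1, c2, d1, d2, ht, -⟩ := h
  obtain ⟨t3, u3⟩ := abs_le.mp (ht 3 (by norm_num))
  obtain ⟨t4, u4⟩ := abs_le.mp (ht 4 (by norm_num))
  obtain ⟨t5, u5⟩ := abs_le.mp (ht 5 (by norm_num))
  obtain ⟨t6, u6⟩ := abs_le.mp (ht 6 (by norm_num))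
  obtain ⟨t7, u7⟩ := abs_le.mp (ht 7 (by norm_num))
  obtain ⟨t8, u8⟩ := abs_le.mp (ht 8 (by norm_num))
  obtain ⟨t9, u9⟩ := abs_le.mp (ht 9 (by norm_num))
  obtain ⟨t10, u10⟩ := abs_le.mp (ht 10 (by norm_num))
  obtain ⟨t11, u11⟩ := abs_le.mp (ht 11 (by norm_num))
  obtain ⟨t12, u12⟩ := abs_le.mp (ht 12 (by norm_num))
  clear ht
  rw [nu_eq, f8_X4, abs_le]; constructor <;> linarith

lemma ent_x5 (c : R) (h : E c) : |(M^[8] c).X 5| ≤ 11 / 50 * nu c := by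
  obtain ⟨hN, a1, a2, b1, b2, c1, c2, d1, d2, ht, -⟩ := h
  obtain ⟨t3, u3⟩ := abs_le.mp (ht 3 (by norm_num))
  obtain ⟨t4, u4⟩ := abs_le.mp (ht 4 (by norm_num))
  obtain ⟨t5, u5⟩ := abs_le.mp (ht 5 (by norm_num))
  obtain ⟨t6, u6⟩ := abs_le.mp (ht 6 (by norm_num))
  obtain ⟨t7, u7⟩ := abs_le.mp (ht 7 (by norm_num))
  obtain ⟨t8, u8⟩ := abs_le.mp (ht 8 (by norm_num))
  obtain ⟨t9, u9⟩ := abs_le.mp (ht 9 (by norm_num))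
  obtain ⟨t10, u10⟩ := abs_le.mp (ht 10 (by norm_num))
  obtain ⟨t11, u11⟩ := abs_le.mp (ht 11 (by norm_num))
  obtain ⟨t12, u12⟩ := abs_le.mp (ht 12 (by norm_num))
  obtain ⟨t13, u13⟩ := abs_le.mp (ht 13 (by norm_num))
  clear ht
  rw [nu_eq, f8_X5, abs_le]; constructor <;> linarith

lemma ent_x6 (c : R) (h : E c) : |(M^[8] c).X 6| ≤ 11 / 50 * nu c := by
  obtain ⟨hN, a1, a2, b1, b2, c1, c2, d1, d2, ht, -⟩ := h
  obtain ⟨t3, u3⟩ := abs_le.mp (ht 3 (by norm_num))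
  obtain ⟨t4, u4⟩ := abs_le.mp (ht 4 (by norm_num))
  obtain ⟨t5, u5⟩ := abs_le.mp (ht 5 (by norm_num))
  obtain ⟨t6, u6⟩ := abs_le.mp (ht 6 (by norm_num))
  obtain ⟨t7, u7⟩ := abs_le.mp (ht 7 (by norm_num))
  obtain ⟨t8, u8⟩ := abs_le.mp (ht 8 (by norm_num))
  obtain ⟨t9, u9⟩ := abs_le.mp (ht 9 (by norm_num))
  obtain ⟨t10, u10⟩ := abs_le.mp (ht 10 (by norm_num))
  obtain ⟨t11, u11⟩ := abs_le.mp (ht 11 (by norm_num))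
  obtain ⟨t12, u12⟩ := abs_le.mp (ht 12 (by norm_num))
  obtain ⟨t13, u13⟩ := abs_le.mp (ht 13 (by norm_num))
  obtain ⟨t14, u14⟩ := abs_le.mp (ht 14 (by norm_num))
  clear ht
  rw [nu_eq, f8_X6, abs_le]; constructor <;> linarith

lemma ent_x7 (c : R) (h : E c) : |(M^[8] c).X 7| ≤ 11 / 50 * nu c := by
  obtain ⟨hN, a1, a2, b1, b2, c1, c2, d1, d2, ht, -⟩ := h
  obtain ⟨t3, u3⟩ := abs_le.mp (ht 3 (by norm_num))
  obtain ⟨t4, u4⟩ := abs_le.mp (ht 4 (by norm_num))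
  obtain ⟨t5, u5⟩ := abs_le.mp (ht 5 (by norm_num))
  obtain ⟨t6, u6⟩ := abs_le.mp (ht 6 (by norm_num))
  obtain ⟨t7, u7⟩ := abs_le.mp (ht 7 (by norm_num))
  obtain ⟨t8, u8⟩ := abs_le.mp (ht 8 (by norm_num))
  obtain ⟨t9, u9⟩ := abs_le.mp (ht 9 (by norm_num))
  obtain ⟨t10, u10⟩ := abs_le.mp (ht 10 (by norm_num))
  obtain ⟨t11, u11⟩ := abs_le.mp (ht 11 (by norm_num))
  obtain ⟨t12, u12⟩ := abs_le.mp (ht 12 (by norm_num))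
  obtain ⟨t13, u13⟩ := abs_le.mp (ht 13 (by norm_num))
  obtain ⟨t14, u14⟩ := abs_le.mp (ht 14 (by norm_num))
  obtain ⟨t15, u15⟩ := abs_le.mp (ht 15 (by norm_num))
  clear ht
  rw [nu_eq, f8_X7, abs_le]; constructor <;> linarith

lemma ent_x8 (c : R) (h : E c) : |(M^[8] c).X 8| ≤ 11 / 50 * nu c := by
  obtain ⟨hN, a1, a2, b1, b2, c1, c2, d1, d2, ht, -⟩ := h
  obtain ⟨t3, u3⟩ := abs_le.mp (ht 3 (by norm_num))
  obtain ⟨t4, u4⟩ := abs_le.mp (ht 4 (by norm_num))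
  obtain ⟨t5, u5⟩ := abs_le.mp (ht 5 (by norm_num))
  obtain ⟨t6, u6⟩ := abs_le.mp (ht 6 (by norm_num))
  obtain ⟨t7, u7⟩ := abs_le.mp (ht 7 (by norm_num))
  obtain ⟨t8, u8⟩ := abs_le.mp (ht 8 (by norm_num))
  obtain ⟨t9, u9⟩ := abs_le.mp (ht 9 (by norm_num))
  obtain ⟨t10, u10⟩ := abs_le.mp (ht 10 (by norm_num))
  obtain ⟨t11, u11⟩ := abs_le.mp (ht 11 (by norm_num))
  obtain ⟨t12, u12⟩ := abs_le.mp (ht 12 (by norm_num))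
  obtain ⟨t13, u13⟩ := abs_le.mp (ht 13 (by norm_num))
  obtain ⟨t14, u14⟩ := abs_le.mp (ht 14 (by norm_num))
  obtain ⟨t15, u15⟩ := abs_le.mp (ht 15 (by norm_num))
  obtain ⟨t16, u16⟩ := abs_le.mp (ht 16 (by norm_num))
  clear ht
  rw [nu_eq, f8_X8, abs_le]; constructor <;> linarith

lemma ent_x9 (c : R) (h : E c) : |(M^[8] c).X 9| ≤ 11 / 50 * nu c := by
  obtain ⟨hN, a1, a2, b1, b2, c1, c2, d1, d2, ht, -⟩ := h
  obtain ⟨t3, u3⟩ := abs_le.mp (ht 3 (by norm_num))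
  obtain ⟨t4, u4⟩ := abs_le.mp (ht 4 (by norm_num))
  obtain ⟨t5, u5⟩ := abs_le.mp (ht 5 (by norm_num))
  obtain ⟨t6, u6⟩ := abs_le.mp (ht 6 (by norm_num))
  obtain ⟨t7, u7⟩ := abs_le.mp (ht 7 (by norm_num))
  obtain ⟨t8, u8⟩ := abs_le.mp (ht 8 (by norm_num))
  obtain ⟨t9, u9⟩ := abs_le.mp (ht 9 (by norm_num))
  obtain ⟨t10, u10⟩ := abs_le.mp (ht 10 (by norm_num))
  obtain ⟨t11, u11⟩ := abs_le.mp (ht 11 (by norm_num))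
  obtain ⟨t12, u12⟩ := abs_le.mp (ht 12 (by norm_num))
  obtain ⟨t13, u13⟩ := abs_le.mp (ht 13 (by norm_num))
  obtain ⟨t14, u14⟩ := abs_le.mp (ht 14 (by norm_num))
  obtain ⟨t15, u15⟩ := abs_le.mp (ht 15 (by norm_num))
  obtain ⟨t16, u16⟩ := abs_le.mp (ht 16 (by norm_num))
  obtain ⟨t17, u17⟩ := abs_le.mp (ht 17 (by norm_num))
  clear ht
  rw [nu_eq, f8_X9, abs_le]; constructor <;> linarith

lemma ent_x10 (c : R) (h : E c) : |(M^[8] c).X 10| ≤ 11 / 50 * nu c := by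
  obtain ⟨hN, a1, a2, b1, b2, c1, c2, d1, d2, ht, -⟩ := h
  obtain ⟨t3, u3⟩ := abs_le.mp (ht 3 (by norm_num))
  obtain ⟨t4, u4⟩ := abs_le.mp (ht 4 (by norm_num))
  obtain ⟨t5, u5⟩ := abs_le.mp (ht 5 (by norm_num))
  obtain ⟨t6, u6⟩ := abs_le.mp (ht 6 (by norm_num))
  obtain ⟨t7, u7⟩ := abs_le.mp (ht 7 (by norm_num))
  obtain ⟨t8, u8⟩ := abs_le.mp (ht 8 (by norm_num))
  obtain ⟨t9, u9⟩ := abs_le.mp (ht 9 (by norm_num))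
  obtain ⟨t10, u10⟩ := abs_le.mp (ht 10 (by norm_num))
  obtain ⟨t11, u11⟩ := abs_le.mp (ht 11 (by norm_num))
  obtain ⟨t12, u12⟩ := abs_le.mp (ht 12 (by norm_num))
  obtain ⟨t13, u13⟩ := abs_le.mp (ht 13 (by norm_num))
  obtain ⟨t14, u14⟩ := abs_le.mp (ht 14 (by norm_num))
  obtain ⟨t15, u15⟩ := abs_le.mp (ht 15 (by norm_num))
  obtain ⟨t16, u16⟩ := abs_le.mp (ht 16 (by norm_num))
  obtain ⟨t17, u17⟩ := abs_le.mp (ht 17 (by norm_num))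
  obtain ⟨t18, u18⟩ := abs_le.mp (ht 18 (by norm_num))
  clear ht
  rw [nu_eq, f8_X10, abs_le]; constructor <;> linarith

lemma ent_W (c : R) (h : E c) : |(M^[8] c).Z 0 - (M^[8] c).r + (-(12 / 29) * bb (M^[6] c) 1
    + 5 / 29 * bb (M^[6] c) 2 - 2 / 29 * bb (M^[6] c) 3)| ≤ 17 / 25 * nu c := by
  obtain ⟨hN, a1, a2, b1, b2, c1, c2, d1, d2, ht, -⟩ := h
  obtain ⟨t3, u3⟩ := abs_le.mp (ht 3 (by norm_num))
  obtain ⟨t4, u4⟩ := abs_le.mp (ht 4 (by norm_num))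
  obtain ⟨t5, u5⟩ := abs_le.mp (ht 5 (by norm_num))
  obtain ⟨t6, u6⟩ := abs_le.mp (ht 6 (by norm_num))
  obtain ⟨t7, u7⟩ := abs_le.mp (ht 7 (by norm_num))
  obtain ⟨t8, u8⟩ := abs_le.mp (ht 8 (by norm_num))
  obtain ⟨t9, u9⟩ := abs_le.mp (ht 9 (by norm_num))
  obtain ⟨t10, u10⟩ := abs_le.mp (ht 10 (by norm_num))
  clear ht
  rw [bb_1, bb_2, bb_3, nu_eq, f8_r, f8_Z, f6_X0, f6_X1, f6_X2, f6_X3, f6_X4, abs_le]
  constructor <;> linarith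

lemma entry (c : R) (h : E c) : F (M^[8] c) := by
  have hT6 := tailX c h 6
  have hT := tailX c h 8
  have hZ := tailZ c 8
  have g0 := nu_ge c h
  have hN := h.1
  have hz := h.2.2.2.2.2.2.2.2.2.2
  have e8 : M^[8] c = M (M (M^[6] c)) := by rw [← it_succ, ← it_succ]
  have hb1 := ent_b1 c h
  have hb : ∀ j, |bb (M^[6] c) j| ≤ 2 * (13 / 200 * nu c) := by
    intro j
    rcases j with _ | j
    · rw [bb_0, abs_zero]; linarith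
    rw [bb_s]
    by_cases hj : 9 ≤ j
    · obtain ⟨p1, q1⟩ := abs_le.mp (hT6 j (by omega))
      obtain ⟨p2, q2⟩ := abs_le.mp (hT6 (j + 1) (by omega))
      obtain ⟨p3, q3⟩ := abs_le.mp (hT6 (j + 2) (by omega))
      rw [abs_le]; constructor <;> linarith
    · have hj3 : j < 9 := by omega
      interval_cases j
      exacts [ent_c0 c h, ent_c1 c h, ent_c2 c h, ent_c3 c h, ent_c4 c h, ent_c5 c h,
        ent_c6 c h, ent_c7 c h, ent_c8 c h]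
  have hX : ∀ k, 1 ≤ k → |(M^[8] c).X k| ≤ 11 / 50 * nu c := by
    intro k hk
    by_cases hk2 : 11 ≤ k
    · have := hT k hk2; linarith
    · have hk3 : k < 11 := by omega
      interval_cases k
      exacts [ent_x1 c h, ent_x2 c h, ent_x3 c h, ent_x4 c h, ent_x5 c h, ent_x6 c h,
        ent_x7 c h, ent_x8 c h, ent_x9 c h, ent_x10 c h]
  have hν0 : 0 ≤ nu c := by linarith
  have g1 := (G_approx 1 (Or.inl rfl) (bb (M^[6] c)) _ (bb_0 _) hb1 hb).1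
  rw [one_mul] at g1
  obtain ⟨u1, u2⟩ := abs_le.mp g1
  have g2 := (G_approx (-1) (Or.inr rfl) (bb (M^[6] c)) _ (bb_0 _) hb1 hb).1
  rw [neg_one_mul] at g2
  obtain ⟨v1, v2⟩ := abs_le.mp g2
  obtain ⟨w1, w2⟩ := abs_le.mp (ent_W c h)
  have hν : nu c = (M^[8] c).r - (12 / 29 * bb (M^[6] c) 1 + 5 / 29 * bb (M^[6] c) 2
    + 2 / 29 * bb (M^[6] c) 3) := rfl
  refine ⟨nu c, bb (M^[6] c), hν0, bb_0 _, ?_, ?_, hb1, hb, hX, ?_, ?_, ?_⟩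
  · rw [e8]; exact bb_rel0 _
  · intro k; rw [e8]; exact bb_rel _ k
  · rw [abs_le]; constructor <;> linarith
  · rw [abs_le]; constructor <;> linarith
  · intro i hi; rw [hZ i hi]; have := hz i hi; linarith

end Pool.Agent.P.MP_c12967_pr
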