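import Pool.Agent.P.MP_c12967_pr.PosOut
import Pool.Agent.P.MP_c12967_pr.PosEntry

/-!
The main exit lemma.
-/

set_option autoImplicit false

namespace Pool.Agent.P.MP_c12967_pr

theorem main_out (c : R) (h : E c) (n : ℕ) (hn : 1 ≤ n) : Out (M^[n] c) := by
  by_cases h8 : 8 ≤ n
  · apply F_out
    induction n, h8 using Nat.le_induction with
    | base => exact entry c h
    | succ n hn' ih => rw [it_succ]; exact F_step _ (ih (by omega))
  · have h9 : n < 8 := by omega
    interval_cases n
    exacts [out1 c h, out2 c h, out3 c h, out4 c h, out5 c h, out6 c h, out7 c h]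

end Pool.Agent.P.MP_c12967_pr
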