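import Mathlib

/-!
Positivity of the reduced two-operator system: an inductive box invariant.
-/

set_option autoImplicit false

namespace Pool.Agent.P.MP_c12967_pr

/-- Geometric transform of a sequence. -/
noncomputable def G (c : ℝ) (a : ℕ → ℝ) : ℝ := ∑' j, c ^ j * a j

lemma G_summable (c : ℝ) (hc : |c| < 1) (a : ℕ → ℝ) (C : ℝ) (h : ∀ j, |a j| ≤ C) :
    Summable (fun j => c ^ j * a j) := by
  refine Summable.of_norm_bounded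
    ((summable_geometric_of_lt_one (abs_nonneg c) hc).mul_right C) (fun j => ?_)
  rw [Real.norm_eq_abs, abs_mul, abs_pow]
  exact mul_le_mul_of_nonneg_left (h j) (pow_nonneg (abs_nonneg c) j)

lemma G_succ (c : ℝ) (hc : |c| < 1) (a : ℕ → ℝ) (C : ℝ) (h : ∀ j, |a j| ≤ C) :
    G c a = a 0 + c * G c (fun j => a (j + 1)) := by
  unfold G
  rw [(G_summable c hc a C h).tsum_eq_zero_add, ← tsum_mul_left]
  congr 1
  · simp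
  · refine tsum_congr (fun j => ?_); ring

lemma G_bound (c : ℝ) (hc : |c| < 1) (a : ℕ → ℝ) (C : ℝ) (h : ∀ j, |a j| ≤ C) :
    |G c a| ≤ (1 - |c|)⁻¹ * C := by
  unfold G
  have hs := (hasSum_geometric_of_lt_one (abs_nonneg c) hc).mul_right C
  rw [← Real.norm_eq_abs]
  refine tsum_of_norm_bounded hs (fun j => ?_)
  rw [Real.norm_eq_abs, abs_mul, abs_pow]
  exact mul_le_mul_of_nonneg_left (h j) (pow_nonneg (abs_nonneg c) j)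

lemma G_half (c : ℝ) (hc : |c| < 1) (a b : ℕ → ℝ) (C : ℝ) (ha : ∀ j, |a j| ≤ C)
    (hb : ∀ j, |b j| ≤ C) : G c (fun j => (a j - b j) / 2) = (G c a - G c b) / 2 := by
  unfold G
  rw [← (G_summable c hc a C ha).tsum_sub (G_summable c hc b C hb), ← tsum_div_const]
  refine tsum_congr (fun j => ?_); ring

/-- One averaging step of a half-line sequence vanishing at the origin. -/
noncomputable def av (a : ℕ → ℝ) : ℕ → ℝ :=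
  fun j => if j = 0 then 0 else (a (j + 1) - a (j - 1)) / 2

lemma av_0 (a : ℕ → ℝ) : av a 0 = 0 := by simp [av]
lemma av_s (a : ℕ → ℝ) (j : ℕ) : av a (j + 1) = (a (j + 2) - a j) / 2 := by simp [av]

lemma av_bound (a : ℕ → ℝ) (C : ℝ) (h : ∀ j, |a j| ≤ C) : ∀ j, |av a j| ≤ C := by
  intro j
  rcases j with _ | j
  · rw [av_0, abs_zero]; exact le_trans (abs_nonneg _) (h 0)
  · rw [av_s]
    obtain ⟨p, q⟩ := abs_le.mp (h (j + 2))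
    obtain ⟨p', q'⟩ := abs_le.mp (h j)
    rw [abs_le]; constructor <;> linarith

lemma G_av (c : ℝ) (hc : |c| < 1) (a : ℕ → ℝ) (C : ℝ) (h : ∀ j, |a j| ≤ C) (h0 : a 0 = 0) :
    c * G c (av a) = ((1 - c ^ 2) * G c a - c * a 1) / 2 := by
  have e1 := G_succ c hc (av a) C (av_bound a C h)
  have e2 := G_succ c hc a C h
  have e3 := G_succ c hc (fun j => a (j + 1)) C (fun j => h _)
  have e4 := G_half c hc (fun j => a (j + 2)) a C (fun j => h _) h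
  simp only [av_0, av_s] at e1
  simp only [zero_add] at e3
  have e5 : (fun j => a (j + 1 + 1)) = fun j => a (j + 2) := rfl
  rw [e5] at e3
  rw [e1, e4]
  rw [h0, e3] at e2
  linear_combination (-1 / 2 : ℝ) * e2

/-- The number `√2 - 1`. -/
noncomputable def zeta : ℝ := Real.sqrt 2 - 1

lemma zeta_sq : zeta ^ 2 = 1 - 2 * zeta := by
  have : Real.sqrt 2 ^ 2 = 2 := Real.sq_sqrt (by norm_num)
  unfold zeta; linear_combination this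

lemma zeta_lo : 41421 / 100000 ≤ zeta := by
  have : (141421 / 100000 : ℝ) ≤ Real.sqrt 2 := Real.le_sqrt_of_sq_le (by norm_num)
  unfold zeta; linarith

lemma zeta_hi : zeta ≤ 41422 / 100000 := by
  have : Real.sqrt 2 ≤ 141422 / 100000 := Real.sqrt_le_iff.mpr ⟨by norm_num, by norm_num⟩
  unfold zeta; linarith

lemma zeta_abs : |zeta| = zeta := abs_of_nonneg (by linarith [zeta_lo])

lemma zeta_lt : |zeta| < 1 := by rw [zeta_abs]; linarith [zeta_hi]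

lemma zeta_neg_lt : |-zeta| < 1 := by rw [abs_neg]; exact zeta_lt

lemma G_av_pos (a : ℕ → ℝ) (C : ℝ) (h : ∀ j, |a j| ≤ C) (h0 : a 0 = 0) :
    G zeta (av a) = G zeta a - a 1 / 2 := by
  have e := G_av zeta zeta_lt a C h h0
  have hz : zeta ≠ 0 := by linarith [zeta_lo] |> ne_of_gt
  apply mul_left_cancel₀ hz
  rw [e, zeta_sq]; ring

lemma G_av_neg (a : ℕ → ℝ) (C : ℝ) (h : ∀ j, |a j| ≤ C) (h0 : a 0 = 0) :
    G (-zeta) (av a) = - G (-zeta) a - a 1 / 2 := by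
  have e := G_av (-zeta) zeta_neg_lt a C h h0
  have hz : -zeta ≠ 0 := by
    have := zeta_lo
    intro hh; linarith
  apply mul_left_cancel₀ hz
  rw [e, neg_sq, zeta_sq]; ring

lemma G_expand (c : ℝ) (hc : |c| = zeta) (a : ℕ → ℝ) (C : ℝ) (h : ∀ j, |a j| ≤ C) :
    ∃ T : ℝ, |T| ≤ 17072 / 10000 * C ∧
      G c a = a 0 + c * a 1 + c ^ 2 * a 2 + c ^ 3 * a 3 + c ^ 4 * T := by
  have hc1 : |c| < 1 := by rw [hc]; linarith [zeta_hi]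
  have hC : 0 ≤ C := le_trans (abs_nonneg _) (h 0)
  refine ⟨G c (fun j => a (j + 4)), ?_, ?_⟩
  · refine le_trans (G_bound c hc1 _ C (fun j => h _)) (mul_le_mul_of_nonneg_right ?_ hC)
    rw [hc, inv_le_comm₀ (by linarith [zeta_hi]) (by norm_num)]
    have := zeta_hi
    norm_num
    linarith
  · have e1 := G_succ c hc1 a C h
    have e2 := G_succ c hc1 (fun j => a (j + 1)) C (fun j => h _)
    have e3 := G_succ c hc1 (fun j => a (j + 2)) C (fun j => h _)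
    have e4 := G_succ c hc1 (fun j => a (j + 3)) C (fun j => h _)
    simp only [zero_add] at e2 e3 e4
    have r2 : (fun j => a (j + 1 + 1)) = fun j => a (j + 2) := rfl
    have r3 : (fun j => a (j + 1 + 2)) = fun j => a (j + 3) := rfl
    have r4 : (fun j => a (j + 1 + 3)) = fun j => a (j + 4) := rfl
    rw [r2] at e2; rw [r3] at e3; rw [r4] at e4
    rw [e1, e2, e3, e4]; ring

lemma abs_mul_le' {u v p q : ℝ} (hu : |u| ≤ p) (hv : |v| ≤ q) : |u * v| ≤ p * q := by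
  rw [abs_mul]
  exact mul_le_mul hu hv (abs_nonneg _) (le_trans (abs_nonneg _) hu)

lemma G_approx (s : ℝ) (hs : s = 1 ∨ s = -1) (a : ℕ → ℝ) (A : ℝ) (h0 : a 0 = 0)
    (h1 : |a 1| ≤ A) (h : ∀ j, |a j| ≤ 2 * A) :
    |G (s * zeta) a - (s * (12 / 29) * a 1 + 5 / 29 * a 2 + s * (2 / 29) * a 3)| ≤ 1075 / 10000 * A ∧
    |G (s * zeta) a - s * (12 / 29) * a 1| ≤ 587 / 1000 * A := by
  have hsa : |s| = 1 := by rcases hs with rfl | rfl <;> simp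
  have hs2 : s ^ 2 = 1 := by rcases hs with rfl | rfl <;> norm_num
  have hc : |s * zeta| = zeta := by rw [abs_mul, hsa, zeta_abs, one_mul]
  obtain ⟨T, hT, e⟩ := G_expand (s * zeta) hc a (2 * A) h
  have lo := zeta_lo
  have hi := zeta_hi
  have hA : 0 ≤ A := le_trans (abs_nonneg _) h1
  have z2 := zeta_sq
  have e' : G (s * zeta) a = s * (zeta * a 1) + (1 - 2 * zeta) * a 2
      + s * ((5 * zeta - 2) * a 3) + (5 - 12 * zeta) * T := by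
    rw [e, h0]
    have z3 : zeta ^ 3 = 5 * zeta - 2 := by linear_combination (zeta - 2) * z2
    have z4 : zeta ^ 4 = 5 - 12 * zeta := by linear_combination (zeta ^ 2 - 2 * zeta + 5) * z2
    have s3 : s ^ 3 = s := by linear_combination s * hs2
    have s4 : s ^ 4 = 1 := by linear_combination (s ^ 2 + 1) * hs2
    rw [mul_pow, mul_pow, mul_pow, hs2, s3, s4, z2, z3, z4]; ring
  have k1 : |(zeta - 12 / 29) * a 1| ≤ 43 / 100000 * A :=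
    abs_mul_le' (by rw [abs_le]; constructor <;> linarith) h1
  have k2 : |(1 - 2 * zeta - 5 / 29) * a 2| ≤ 86 / 100000 * (2 * A) :=
    abs_mul_le' (by rw [abs_le]; constructor <;> linarith) (h 2)
  have k3 : |(5 * zeta - 2 - 2 / 29) * a 3| ≤ 214 / 100000 * (2 * A) :=
    abs_mul_le' (by rw [abs_le]; constructor <;> linarith) (h 3)
  have k4 : |(5 - 12 * zeta) * T| ≤ 2948 / 100000 * (17072 / 10000 * (2 * A)) :=
    abs_mul_le' (by rw [abs_le]; constructor <;> linarith) hT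
  have k5 : |(1 - 2 * zeta) * a 2| ≤ 17158 / 100000 * (2 * A) :=
    abs_mul_le' (by rw [abs_le]; constructor <;> linarith) (h 2)
  have k6 : |(5 * zeta - 2) * a 3| ≤ 7110 / 100000 * (2 * A) :=
    abs_mul_le' (by rw [abs_le]; constructor <;> linarith) (h 3)
  rw [abs_le] at k1 k2 k3 k4 k5 k6
  rw [e']
  rcases hs with rfl | rfl
  · constructor <;> (rw [abs_le]; constructor <;> linarith [k1.1, k1.2, k2.1, k2.2, k3.1, k3.2, k4.1, k4.2, k5.1, k5.2, k6.1, k6.2])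
  · constructor <;> (rw [abs_le]; constructor <;> linarith [k1.1, k1.2, k2.1, k2.2, k3.1, k3.2, k4.1, k4.2, k5.1, k5.2, k6.1, k6.2])

/-- States of the reduced system. -/
structure R where
  r : ℝ
  X : ℕ → ℝ
  Z : ℕ → ℝ

/-- The run operator. -/
noncomputable def M (c : R) : R where
  r := c.r - c.X 0 / 4
  X := fun k => if k = 0 then c.X 1 + c.X 0 else (c.X (k + 1) - c.X (k - 1)) / 2
  Z := fun i => if i = 0 then 2 * c.r - c.Z 0 else (-1) ^ (i - 1) * c.Z i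

lemma M_r (c : R) : (M c).r = c.r - c.X 0 / 4 := rfl
lemma M_X0 (c : R) : (M c).X 0 = c.X 1 + c.X 0 := by simp [M]
lemma M_Xs (c : R) (k : ℕ) : (M c).X (k + 1) = (c.X (k + 2) - c.X k) / 2 := by simp [M]
lemma M_Z0 (c : R) : (M c).Z 0 = 2 * c.r - c.Z 0 := by simp [M]
lemma M_Zs (c : R) (i : ℕ) : (M c).Z (i + 1) = (-1) ^ i * c.Z (i + 1) := by simp [M]
lemma it_succ (n : ℕ) (c : R) : M^[n + 1] c = M (M^[n] c) := Function.iterate_succ_apply' _ _ _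

/-- The entry box. -/
def E (c : R) : Prop :=
  0 ≤ c.r - c.X 0 / 4 ∧
  -(209 / 100) * (c.r - c.X 0 / 4) ≤ c.X 0 ∧ c.X 0 ≤ -(133 / 100) * (c.r - c.X 0 / 4) ∧
  9 / 100 * (c.r - c.X 0 / 4) ≤ c.X 1 ∧ c.X 1 ≤ 181 / 200 * (c.r - c.X 0 / 4) ∧
  -(61 / 200) * (c.r - c.X 0 / 4) ≤ c.X 2 ∧ c.X 2 ≤ 19 / 100 * (c.r - c.X 0 / 4) ∧
  -(19 / 100) * (c.r - c.X 0 / 4) ≤ c.Z 0 ∧ c.Z 0 ≤ 153 / 200 * (c.r - c.X 0 / 4) ∧
  (∀ k, 3 ≤ k → |c.X k| ≤ 1 / 8 * (c.r - c.X 0 / 4)) ∧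
  (∀ i, 1 ≤ i → |c.Z i| ≤ 4 / 25 * (c.r - c.X 0 / 4))

/-- The exit conditions. -/
def Out (c : R) : Prop :=
  0 ≤ 2 * c.r + c.X 0 / 4 ∧
  -(209 / 100) * (2 * c.r + c.X 0 / 4) ≤ -4 * c.r - c.X 0 ∧
  -4 * c.r - c.X 0 ≤ -(133 / 100) * (2 * c.r + c.X 0 / 4) ∧
  9 / 100 * (2 * c.r + c.X 0 / 4) ≤ c.Z 0 ∧ c.Z 0 ≤ 181 / 200 * (2 * c.r + c.X 0 / 4) ∧
  -(61 / 200) * (2 * c.r + c.X 0 / 4) ≤ c.X 2 ∧ c.X 2 ≤ 19 / 100 * (2 * c.r + c.X 0 / 4) ∧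
  -(19 / 100) * (2 * c.r + c.X 0 / 4) ≤ c.X 1 ∧ c.X 1 ≤ 153 / 200 * (2 * c.r + c.X 0 / 4) ∧
  |c.X 3| ≤ 4 / 25 * (2 * c.r + c.X 0 / 4) ∧
  (∀ k, 4 ≤ k → |c.X k| ≤ 1 / 8 * (2 * c.r + c.X 0 / 4)) ∧
  (∀ i, 1 ≤ i → |c.Z i| ≤ 1 / 8 * (2 * c.r + c.X 0 / 4))

lemma tailX (c : R) (h : E c) (n : ℕ) :
    ∀ k, 3 + n ≤ k → |(M^[n] c).X k| ≤ 1 / 8 * (c.r - c.X 0 / 4) := by
  induction n with
  | zero => intro k hk; exact h.2.2.2.2.2.2.2.2.2.1 k hk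
  | succ n ih =>
    intro k hk
    obtain ⟨k, rfl⟩ : ∃ j, k = j + 1 := ⟨k - 1, by omega⟩
    rw [it_succ, M_Xs]
    obtain ⟨p, q⟩ := abs_le.mp (ih (k + 2) (by omega))
    obtain ⟨p', q'⟩ := abs_le.mp (ih k (by omega))
    rw [abs_le]; constructor <;> linarith

lemma M_absZ (c : R) (i : ℕ) (hi : 1 ≤ i) : |(M c).Z i| = |c.Z i| := by
  obtain ⟨i, rfl⟩ : ∃ j, i = j + 1 := ⟨i - 1, by omega⟩
  rw [M_Zs, abs_mul, abs_pow, abs_neg, abs_one, one_pow, one_mul]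

lemma tailZ (c : R) (n : ℕ) : ∀ i, 1 ≤ i → |(M^[n] c).Z i| = |c.Z i| := by
  induction n with
  | zero => intro i _; rfl
  | succ n ih => intro i hi; rw [it_succ, M_absZ _ i hi, ih i hi]

/-- Local averages: the double primitive of the state two steps later. -/
noncomputable def bb (c : R) : ℕ → ℝ :=
  fun j => if j = 0 then 0 else (c.X (j - 1) + 2 * c.X j + c.X (j + 1)) / 4

lemma bb_0 (c : R) : bb c 0 = 0 := by simp [bb]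
lemma bb_s (c : R) (j : ℕ) : bb c (j + 1) = (c.X j + 2 * c.X (j + 1) + c.X (j + 2)) / 4 := by
  simp [bb]
lemma bb_1 (c : R) : bb c 1 = (c.X 0 + 2 * c.X 1 + c.X 2) / 4 := by simp [bb]
lemma bb_2 (c : R) : bb c 2 = (c.X 1 + 2 * c.X 2 + c.X 3) / 4 := by simp [bb]
lemma bb_3 (c : R) : bb c 3 = (c.X 2 + 2 * c.X 3 + c.X 4) / 4 := by simp [bb]

lemma bb_rel0 (c : R) : (M (M c)).X 0 = 2 * bb c 1 := by
  simp [M, bb]; ring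

lemma bb_rel (c : R) (k : ℕ) :
    (M (M c)).X (k + 1) = bb c (k + 2) - 2 * bb c (k + 1) + bb c k := by
  rcases k with _ | k
  · simp [M, bb]; ring
  · rw [M_Xs, M_Xs, M_Xs, bb_s, bb_s, bb_s]; ring

/-- The long-run invariant. -/
def F (c : R) : Prop :=
  ∃ (ν : ℝ) (a : ℕ → ℝ), 0 ≤ ν ∧ a 0 = 0 ∧ c.X 0 = 2 * a 1 ∧
    (∀ k, c.X (k + 1) = a (k + 2) - 2 * a (k + 1) + a k) ∧
    |a 1| ≤ 13 / 200 * ν ∧ (∀ j, |a j| ≤ 2 * (13 / 200 * ν)) ∧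
    (∀ k, 1 ≤ k → |c.X k| ≤ 11 / 50 * ν) ∧
    |c.r - G zeta a - ν| ≤ 7 / 1000 * ν ∧
    |c.Z 0 - c.r + G (-zeta) a| ≤ 687 / 1000 * ν ∧
    (∀ i, 1 ≤ i → |c.Z i| ≤ 17 / 100 * ν)

lemma F_step (c : R) (h : F c) : F (M c) := by
  obtain ⟨ν, a, hν, h0, hx0, hx, h1, ha, hX, hU, hW, hZ⟩ := h
  refine ⟨ν, av a, hν, av_0 a, ?_, ?_, ?_, av_bound a _ ha, ?_, ?_, ?_, ?_⟩
  · have e := hx 0
    rw [M_X0, av_s a 0, hx0]; simp only [zero_add] at e ⊢; rw [e, h0]; ring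
  · intro k
    rcases k with _ | k
    · have e := hx 1
      rw [M_Xs, av_s, av_s, av_0, hx0]; simp only [zero_add] at e ⊢; rw [e, h0]; ring
    · rw [M_Xs, av_s, av_s, av_s, hx, hx]; ring
  · rw [av_s a 0, h0]
    obtain ⟨p, q⟩ := abs_le.mp (ha (0 + 2))
    rw [abs_le]; constructor <;> linarith
  · intro k hk
    obtain ⟨k, rfl⟩ : ∃ j, k = j + 1 := ⟨k - 1, by omega⟩
    rw [M_Xs]
    obtain ⟨p, q⟩ := abs_le.mp (hX (k + 2) (by omega))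
    obtain ⟨p1, q1⟩ := abs_le.mp h1
    rcases k with _ | k
    · rw [hx0, abs_le]; constructor <;> linarith
    · obtain ⟨p', q'⟩ := abs_le.mp (hX (k + 1) (by omega))
      rw [abs_le]; constructor <;> linarith
  · rw [M_r, G_av_pos a _ ha h0, hx0]
    convert hU using 2; ring
  · rw [M_r, M_Z0, G_av_neg a _ ha h0, hx0, ← abs_neg]
    convert hW using 2; ring
  · intro i hi; rw [M_absZ c i hi]; exact hZ i hi

lemma F_out (c : R) (h : F c) : Out c := by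
  obtain ⟨ν, a, hν, h0, hx0, hx, h1, ha, hX, hU, hW, hZ⟩ := h
  have g1 := (G_approx 1 (Or.inl rfl) a _ h0 h1 ha).2
  have g2 := (G_approx (-1) (Or.inr rfl) a _ h0 h1 ha).2
  rw [one_mul] at g1
  rw [neg_one_mul] at g2
  obtain ⟨g1a, g1b⟩ := abs_le.mp g1
  obtain ⟨g2a, g2b⟩ := abs_le.mp g2
  obtain ⟨p1, q1⟩ := abs_le.mp h1
  obtain ⟨pU, qU⟩ := abs_le.mp hU
  obtain ⟨pW, qW⟩ := abs_le.mp hW
  obtain ⟨x1, y1⟩ := abs_le.mp (hX 1 (by norm_num))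
  obtain ⟨x2, y2⟩ := abs_le.mp (hX 2 (by norm_num))
  have x3 := hX 3 (by norm_num)
  refine ⟨?_, ?_, ?_, ?_, ?_, ?_, ?_, ?_, ?_, ?_, ?_, ?_⟩
  any_goals (rw [hx0]; linarith)
  · intro k hk; have := hX k (by omega); rw [hx0]; linarith
  · intro i hi; have := hZ i hi; rw [hx0]; linarith

lemma f1_r (c : R) : (M^[1] c).r = (1/1) * c.r + (-1/4) * c.X 0 := by
  simp [M]; ring
lemma f1_Z (c : R) : (M^[1] c).Z 0 = (2/1) * c.r + (-1/1) * c.Z 0 := by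
  simp [M]; ring
lemma f1_X0 (c : R) : (M^[1] c).X 0 = (1/1) * c.X 0 + (1/1) * c.X 1 := by
  simp [M]; ring
lemma f1_X1 (c : R) : (M^[1] c).X 1 = (-1/2) * c.X 0 + (1/2) * c.X 2 := by
  simp [M]; ring
lemma f1_X2 (c : R) : (M^[1] c).X 2 = (-1/2) * c.X 1 + (1/2) * c.X 3 := by
  simp [M]; ring
lemma f1_X3 (c : R) : (M^[1] c).X 3 = (-1/2) * c.X 2 + (1/2) * c.X 4 := by
  simp [M]; ring
lemma f1_X4 (c : R) : (M^[1] c).X 4 = (-1/2) * c.X 3 + (1/2) * c.X 5 := by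
  simp [M]; ring
lemma f1_X5 (c : R) : (M^[1] c).X 5 = (-1/2) * c.X 4 + (1/2) * c.X 6 := by
  simp [M]; ring
lemma f1_X6 (c : R) : (M^[1] c).X 6 = (-1/2) * c.X 5 + (1/2) * c.X 7 := by
  simp [M]; ring
lemma f1_X7 (c : R) : (M^[1] c).X 7 = (-1/2) * c.X 6 + (1/2) * c.X 8 := by
  simp [M]; ring
lemma f1_X8 (c : R) : (M^[1] c).X 8 = (-1/2) * c.X 7 + (1/2) * c.X 9 := by
  simp [M]; ring
lemma f1_X9 (c : R) : (M^[1] c).X 9 = (-1/2) * c.X 8 + (1/2) * c.X 10 := by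
  simp [M]; ring
lemma f1_X10 (c : R) : (M^[1] c).X 10 = (-1/2) * c.X 9 + (1/2) * c.X 11 := by
  simp [M]; ring
lemma f1_X11 (c : R) : (M^[1] c).X 11 = (-1/2) * c.X 10 + (1/2) * c.X 12 := by
  simp [M]; ring
lemma f1_X12 (c : R) : (M^[1] c).X 12 = (-1/2) * c.X 11 + (1/2) * c.X 13 := by
  simp [M]; ring
lemma f1_X13 (c : R) : (M^[1] c).X 13 = (-1/2) * c.X 12 + (1/2) * c.X 14 := by
  simp [M]; ring
lemma f1_X14 (c : R) : (M^[1] c).X 14 = (-1/2) * c.X 13 + (1/2) * c.X 15 := by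
  simp [M]; ring
lemma f1_X15 (c : R) : (M^[1] c).X 15 = (-1/2) * c.X 14 + (1/2) * c.X 16 := by
  simp [M]; ring
lemma f1_X16 (c : R) : (M^[1] c).X 16 = (-1/2) * c.X 15 + (1/2) * c.X 17 := by
  simp [M]; ring
lemma f1_X17 (c : R) : (M^[1] c).X 17 = (-1/2) * c.X 16 + (1/2) * c.X 18 := by
  simp [M]; ring
lemma f1_X18 (c : R) : (M^[1] c).X 18 = (-1/2) * c.X 17 + (1/2) * c.X 19 := by
  simp [M]; ring
lemma f2_r (c : R) : (M^[2] c).r = (1/1) * c.r + (-1/2) * c.X 0 + (-1/4) * c.X 1 := by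
  rw [it_succ, M_r, f1_r, f1_X0]; ring
lemma f2_Z (c : R) : (M^[2] c).Z 0 = (1/1) * c.Z 0 + (-1/2) * c.X 0 := by
  rw [it_succ, M_Z0, f1_r, f1_Z]; ring
lemma f2_X0 (c : R) : (M^[2] c).X 0 = (1/2) * c.X 0 + (1/1) * c.X 1 + (1/2) * c.X 2 := by
  rw [it_succ, M_X0, f1_X0, f1_X1]; ring
lemma f2_X1 (c : R) : (M^[2] c).X 1 = (-1/2) * c.X 0 + (-3/4) * c.X 1 + (1/4) * c.X 3 := by
  rw [it_succ, M_Xs _ 0, f1_X2, f1_X0]; ring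
lemma f2_X2 (c : R) : (M^[2] c).X 2 = (1/4) * c.X 0 + (-1/2) * c.X 2 + (1/4) * c.X 4 := by
  rw [it_succ, M_Xs _ 1, f1_X3, f1_X1]; ring
lemma f2_X3 (c : R) : (M^[2] c).X 3 = (1/4) * c.X 1 + (-1/2) * c.X 3 + (1/4) * c.X 5 := by
  rw [it_succ, M_Xs _ 2, f1_X4, f1_X2]; ring
lemma f2_X4 (c : R) : (M^[2] c).X 4 = (1/4) * c.X 2 + (-1/2) * c.X 4 + (1/4) * c.X 6 := by
  rw [it_succ, M_Xs _ 3, f1_X5, f1_X3]; ring
lemma f2_X5 (c : R) : (M^[2] c).X 5 = (1/4) * c.X 3 + (-1/2) * c.X 5 + (1/4) * c.X 7 := by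
  rw [it_succ, M_Xs _ 4, f1_X6, f1_X4]; ring
lemma f2_X6 (c : R) : (M^[2] c).X 6 = (1/4) * c.X 4 + (-1/2) * c.X 6 + (1/4) * c.X 8 := by
  rw [it_succ, M_Xs _ 5, f1_X7, f1_X5]; ring
lemma f2_X7 (c : R) : (M^[2] c).X 7 = (1/4) * c.X 5 + (-1/2) * c.X 7 + (1/4) * c.X 9 := by
  rw [it_succ, M_Xs _ 6, f1_X8, f1_X6]; ring
lemma f2_X8 (c : R) : (M^[2] c).X 8 = (1/4) * c.X 6 + (-1/2) * c.X 8 + (1/4) * c.X 10 := by
  rw [it_succ, M_Xs _ 7, f1_X9, f1_X7]; ring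
lemma f2_X9 (c : R) : (M^[2] c).X 9 = (1/4) * c.X 7 + (-1/2) * c.X 9 + (1/4) * c.X 11 := by
  rw [it_succ, M_Xs _ 8, f1_X10, f1_X8]; ring
lemma f2_X10 (c : R) : (M^[2] c).X 10 = (1/4) * c.X 8 + (-1/2) * c.X 10 + (1/4) * c.X 12 := by
  rw [it_succ, M_Xs _ 9, f1_X11, f1_X9]; ring
lemma f2_X11 (c : R) : (M^[2] c).X 11 = (1/4) * c.X 9 + (-1/2) * c.X 11 + (1/4) * c.X 13 := by
  rw [it_succ, M_Xs _ 10, f1_X12, f1_X10]; ring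
lemma f2_X12 (c : R) : (M^[2] c).X 12 = (1/4) * c.X 10 + (-1/2) * c.X 12 + (1/4) * c.X 14 := by
  rw [it_succ, M_Xs _ 11, f1_X13, f1_X11]; ring
lemma f2_X13 (c : R) : (M^[2] c).X 13 = (1/4) * c.X 11 + (-1/2) * c.X 13 + (1/4) * c.X 15 := by
  rw [it_succ, M_Xs _ 12, f1_X14, f1_X12]; ring
lemma f2_X14 (c : R) : (M^[2] c).X 14 = (1/4) * c.X 12 + (-1/2) * c.X 14 + (1/4) * c.X 16 := by
  rw [it_succ, M_Xs _ 13, f1_X15, f1_X13]; ring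
lemma f2_X15 (c : R) : (M^[2] c).X 15 = (1/4) * c.X 13 + (-1/2) * c.X 15 + (1/4) * c.X 17 := by
  rw [it_succ, M_Xs _ 14, f1_X16, f1_X14]; ring
lemma f2_X16 (c : R) : (M^[2] c).X 16 = (1/4) * c.X 14 + (-1/2) * c.X 16 + (1/4) * c.X 18 := by
  rw [it_succ, M_Xs _ 15, f1_X17, f1_X15]; ring
lemma f2_X17 (c : R) : (M^[2] c).X 17 = (1/4) * c.X 15 + (-1/2) * c.X 17 + (1/4) * c.X 19 := by
  rw [it_succ, M_Xs _ 16, f1_X18, f1_X16]; ring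
lemma f3_r (c : R) : (M^[3] c).r = (1/1) * c.r + (-5/8) * c.X 0 + (-1/2) * c.X 1 + (-1/8) * c.X 2 := by
  rw [it_succ, M_r, f2_r, f2_X0]; ring
lemma f3_Z (c : R) : (M^[3] c).Z 0 = (2/1) * c.r + (-1/1) * c.Z 0 + (-1/2) * c.X 0 + (-1/2) * c.X 1 := by
  rw [it_succ, M_Z0, f2_r, f2_Z]; ring
lemma f3_X0 (c : R) : (M^[3] c).X 0 = (1/4) * c.X 1 + (1/2) * c.X 2 + (1/4) * c.X 3 := by
  rw [it_succ, M_X0, f2_X0, f2_X1]; ring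
lemma f3_X1 (c : R) : (M^[3] c).X 1 = (-1/8) * c.X 0 + (-1/2) * c.X 1 + (-1/2) * c.X 2 + (1/8) * c.X 4 := by
  rw [it_succ, M_Xs _ 0, f2_X2, f2_X0]; ring
lemma f3_X2 (c : R) : (M^[3] c).X 2 = (1/4) * c.X 0 + (1/2) * c.X 1 + (-3/8) * c.X 3 + (1/8) * c.X 5 := by
  rw [it_succ, M_Xs _ 1, f2_X3, f2_X1]; ring
lemma f3_X3 (c : R) : (M^[3] c).X 3 = (-1/8) * c.X 0 + (3/8) * c.X 2 + (-3/8) * c.X 4 + (1/8) * c.X 6 := by
  rw [it_succ, M_Xs _ 2, f2_X4, f2_X2]; ring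
lemma f3_X4 (c : R) : (M^[3] c).X 4 = (-1/8) * c.X 1 + (3/8) * c.X 3 + (-3/8) * c.X 5 + (1/8) * c.X 7 := by
  rw [it_succ, M_Xs _ 3, f2_X5, f2_X3]; ring
lemma f3_X5 (c : R) : (M^[3] c).X 5 = (-1/8) * c.X 2 + (3/8) * c.X 4 + (-3/8) * c.X 6 + (1/8) * c.X 8 := by
  rw [it_succ, M_Xs _ 4, f2_X6, f2_X4]; ring
lemma f3_X6 (c : R) : (M^[3] c).X 6 = (-1/8) * c.X 3 + (3/8) * c.X 5 + (-3/8) * c.X 7 + (1/8) * c.X 9 := by
  rw [it_succ, M_Xs _ 5, f2_X7, f2_X5]; ring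
lemma f3_X7 (c : R) : (M^[3] c).X 7 = (-1/8) * c.X 4 + (3/8) * c.X 6 + (-3/8) * c.X 8 + (1/8) * c.X 10 := by
  rw [it_succ, M_Xs _ 6, f2_X8, f2_X6]; ring
lemma f3_X8 (c : R) : (M^[3] c).X 8 = (-1/8) * c.X 5 + (3/8) * c.X 7 + (-3/8) * c.X 9 + (1/8) * c.X 11 := by
  rw [it_succ, M_Xs _ 7, f2_X9, f2_X7]; ring
lemma f3_X9 (c : R) : (M^[3] c).X 9 = (-1/8) * c.X 6 + (3/8) * c.X 8 + (-3/8) * c.X 10 + (1/8) * c.X 12 := by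
  rw [it_succ, M_Xs _ 8, f2_X10, f2_X8]; ring
lemma f3_X10 (c : R) : (M^[3] c).X 10 = (-1/8) * c.X 7 + (3/8) * c.X 9 + (-3/8) * c.X 11 + (1/8) * c.X 13 := by
  rw [it_succ, M_Xs _ 9, f2_X11, f2_X9]; ring
lemma f3_X11 (c : R) : (M^[3] c).X 11 = (-1/8) * c.X 8 + (3/8) * c.X 10 + (-3/8) * c.X 12 + (1/8) * c.X 14 := by
  rw [it_succ, M_Xs _ 10, f2_X12, f2_X10]; ring
lemma f3_X12 (c : R) : (M^[3] c).X 12 = (-1/8) * c.X 9 + (3/8) * c.X 11 + (-3/8) * c.X 13 + (1/8) * c.X 15 := by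
  rw [it_succ, M_Xs _ 11, f2_X13, f2_X11]; ring
lemma f3_X13 (c : R) : (M^[3] c).X 13 = (-1/8) * c.X 10 + (3/8) * c.X 12 + (-3/8) * c.X 14 + (1/8) * c.X 16 := by
  rw [it_succ, M_Xs _ 12, f2_X14, f2_X12]; ring
lemma f3_X14 (c : R) : (M^[3] c).X 14 = (-1/8) * c.X 11 + (3/8) * c.X 13 + (-3/8) * c.X 15 + (1/8) * c.X 17 := by
  rw [it_succ, M_Xs _ 13, f2_X15, f2_X13]; ring
lemma f3_X15 (c : R) : (M^[3] c).X 15 = (-1/8) * c.X 12 + (3/8) * c.X 14 + (-3/8) * c.X 16 + (1/8) * c.X 18 := by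
  rw [it_succ, M_Xs _ 14, f2_X16, f2_X14]; ring
lemma f3_X16 (c : R) : (M^[3] c).X 16 = (-1/8) * c.X 13 + (3/8) * c.X 15 + (-3/8) * c.X 17 + (1/8) * c.X 19 := by
  rw [it_succ, M_Xs _ 15, f2_X17, f2_X15]; ring
lemma f4_r (c : R) : (M^[4] c).r = (1/1) * c.r + (-5/8) * c.X 0 + (-9/16) * c.X 1 + (-1/4) * c.X 2 + (-1/16) * c.X 3 := by
  rw [it_succ, M_r, f3_r, f3_X0]; ring
lemma f4_Z (c : R) : (M^[4] c).Z 0 = (1/1) * c.Z 0 + (-3/4) * c.X 0 + (-1/2) * c.X 1 + (-1/4) * c.X 2 := by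
  rw [it_succ, M_Z0, f3_r, f3_Z]; ring
lemma f4_X0 (c : R) : (M^[4] c).X 0 = (-1/8) * c.X 0 + (-1/4) * c.X 1 + (1/4) * c.X 3 + (1/8) * c.X 4 := by
  rw [it_succ, M_X0, f3_X0, f3_X1]; ring
lemma f4_X1 (c : R) : (M^[4] c).X 1 = (1/8) * c.X 0 + (1/8) * c.X 1 + (-1/4) * c.X 2 + (-5/16) * c.X 3 + (1/16) * c.X 5 := by
  rw [it_succ, M_Xs _ 0, f3_X2, f3_X0]; ring
lemma f4_X2 (c : R) : (M^[4] c).X 2 = (1/4) * c.X 1 + (7/16) * c.X 2 + (-1/4) * c.X 4 + (1/16) * c.X 6 := by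
  rw [it_succ, M_Xs _ 1, f3_X3, f3_X1]; ring
lemma f4_X3 (c : R) : (M^[4] c).X 3 = (-1/8) * c.X 0 + (-5/16) * c.X 1 + (3/8) * c.X 3 + (-1/4) * c.X 5 + (1/16) * c.X 7 := by
  rw [it_succ, M_Xs _ 2, f3_X4, f3_X2]; ring
lemma f4_X4 (c : R) : (M^[4] c).X 4 = (1/16) * c.X 0 + (-1/4) * c.X 2 + (3/8) * c.X 4 + (-1/4) * c.X 6 + (1/16) * c.X 8 := by
  rw [it_succ, M_Xs _ 3, f3_X5, f3_X3]; ring
lemma f4_X5 (c : R) : (M^[4] c).X 5 = (1/16) * c.X 1 + (-1/4) * c.X 3 + (3/8) * c.X 5 + (-1/4) * c.X 7 + (1/16) * c.X 9 := by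
  rw [it_succ, M_Xs _ 4, f3_X6, f3_X4]; ring
lemma f4_X6 (c : R) : (M^[4] c).X 6 = (1/16) * c.X 2 + (-1/4) * c.X 4 + (3/8) * c.X 6 + (-1/4) * c.X 8 + (1/16) * c.X 10 := by
  rw [it_succ, M_Xs _ 5, f3_X7, f3_X5]; ring
lemma f4_X7 (c : R) : (M^[4] c).X 7 = (1/16) * c.X 3 + (-1/4) * c.X 5 + (3/8) * c.X 7 + (-1/4) * c.X 9 + (1/16) * c.X 11 := by
  rw [it_succ, M_Xs _ 6, f3_X8, f3_X6]; ring
lemma f4_X8 (c : R) : (M^[4] c).X 8 = (1/16) * c.X 4 + (-1/4) * c.X 6 + (3/8) * c.X 8 + (-1/4) * c.X 10 + (1/16) * c.X 12 := by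
  rw [it_succ, M_Xs _ 7, f3_X9, f3_X7]; ring
lemma f4_X9 (c : R) : (M^[4] c).X 9 = (1/16) * c.X 5 + (-1/4) * c.X 7 + (3/8) * c.X 9 + (-1/4) * c.X 11 + (1/16) * c.X 13 := by
  rw [it_succ, M_Xs _ 8, f3_X10, f3_X8]; ring
lemma f4_X10 (c : R) : (M^[4] c).X 10 = (1/16) * c.X 6 + (-1/4) * c.X 8 + (3/8) * c.X 10 + (-1/4) * c.X 12 + (1/16) * c.X 14 := by
  rw [it_succ, M_Xs _ 9, f3_X11, f3_X9]; ring
lemma f4_X11 (c : R) : (M^[4] c).X 11 = (1/16) * c.X 7 + (-1/4) * c.X 9 + (3/8) * c.X 11 + (-1/4) * c.X 13 + (1/16) * c.X 15 := by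
  rw [it_succ, M_Xs _ 10, f3_X12, f3_X10]; ring
lemma f4_X12 (c : R) : (M^[4] c).X 12 = (1/16) * c.X 8 + (-1/4) * c.X 10 + (3/8) * c.X 12 + (-1/4) * c.X 14 + (1/16) * c.X 16 := by
  rw [it_succ, M_Xs _ 11, f3_X13, f3_X11]; ring
lemma f4_X13 (c : R) : (M^[4] c).X 13 = (1/16) * c.X 9 + (-1/4) * c.X 11 + (3/8) * c.X 13 + (-1/4) * c.X 15 + (1/16) * c.X 17 := by
  rw [it_succ, M_Xs _ 12, f3_X14, f3_X12]; ring
lemma f4_X14 (c : R) : (M^[4] c).X 14 = (1/16) * c.X 10 + (-1/4) * c.X 12 + (3/8) * c.X 14 + (-1/4) * c.X 16 + (1/16) * c.X 18 := by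
  rw [it_succ, M_Xs _ 13, f3_X15, f3_X13]; ring
lemma f4_X15 (c : R) : (M^[4] c).X 15 = (1/16) * c.X 11 + (-1/4) * c.X 13 + (3/8) * c.X 15 + (-1/4) * c.X 17 + (1/16) * c.X 19 := by
  rw [it_succ, M_Xs _ 14, f3_X16, f3_X14]; ring
lemma f5_r (c : R) : (M^[5] c).r = (1/1) * c.r + (-19/32) * c.X 0 + (-1/2) * c.X 1 + (-1/4) * c.X 2 + (-1/8) * c.X 3 + (-1/32) * c.X 4 := by
  rw [it_succ, M_r, f4_r, f4_X0]; ring
lemma f5_Z (c : R) : (M^[5] c).Z 0 = (2/1) * c.r + (-1/1) * c.Z 0 + (-1/2) * c.X 0 + (-5/8) * c.X 1 + (-1/4) * c.X 2 + (-1/8) * c.X 3 := by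
  rw [it_succ, M_Z0, f4_r, f4_Z]; ring
lemma f5_X0 (c : R) : (M^[5] c).X 0 = (-1/8) * c.X 1 + (-1/4) * c.X 2 + (-1/16) * c.X 3 + (1/8) * c.X 4 + (1/16) * c.X 5 := by
  rw [it_succ, M_X0, f4_X0, f4_X1]; ring
lemma f5_X1 (c : R) : (M^[5] c).X 1 = (1/16) * c.X 0 + (1/4) * c.X 1 + (7/32) * c.X 2 + (-1/8) * c.X 3 + (-3/16) * c.X 4 + (1/32) * c.X 6 := by
  rw [it_succ, M_Xs _ 0, f4_X2, f4_X0]; ring
lemma f5_X2 (c : R) : (M^[5] c).X 2 = (-1/8) * c.X 0 + (-7/32) * c.X 1 + (1/8) * c.X 2 + (11/32) * c.X 3 + (-5/32) * c.X 5 + (1/32) * c.X 7 := by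
  rw [it_succ, M_Xs _ 1, f4_X3, f4_X1]; ring
lemma f5_X3 (c : R) : (M^[5] c).X 3 = (1/32) * c.X 0 + (-1/8) * c.X 1 + (-11/32) * c.X 2 + (5/16) * c.X 4 + (-5/32) * c.X 6 + (1/32) * c.X 8 := by
  rw [it_succ, M_Xs _ 2, f4_X4, f4_X2]; ring
lemma f5_X4 (c : R) : (M^[5] c).X 4 = (1/16) * c.X 0 + (3/16) * c.X 1 + (-5/16) * c.X 3 + (5/16) * c.X 5 + (-5/32) * c.X 7 + (1/32) * c.X 9 := by
  rw [it_succ, M_Xs _ 3, f4_X5, f4_X3]; ring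
lemma f5_X5 (c : R) : (M^[5] c).X 5 = (-1/32) * c.X 0 + (5/32) * c.X 2 + (-5/16) * c.X 4 + (5/16) * c.X 6 + (-5/32) * c.X 8 + (1/32) * c.X 10 := by
  rw [it_succ, M_Xs _ 4, f4_X6, f4_X4]; ring
lemma f5_X6 (c : R) : (M^[5] c).X 6 = (-1/32) * c.X 1 + (5/32) * c.X 3 + (-5/16) * c.X 5 + (5/16) * c.X 7 + (-5/32) * c.X 9 + (1/32) * c.X 11 := by
  rw [it_succ, M_Xs _ 5, f4_X7, f4_X5]; ring
lemma f5_X7 (c : R) : (M^[5] c).X 7 = (-1/32) * c.X 2 + (5/32) * c.X 4 + (-5/16) * c.X 6 + (5/16) * c.X 8 + (-5/32) * c.X 10 + (1/32) * c.X 12 := by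
  rw [it_succ, M_Xs _ 6, f4_X8, f4_X6]; ring
lemma f5_X8 (c : R) : (M^[5] c).X 8 = (-1/32) * c.X 3 + (5/32) * c.X 5 + (-5/16) * c.X 7 + (5/16) * c.X 9 + (-5/32) * c.X 11 + (1/32) * c.X 13 := by
  rw [it_succ, M_Xs _ 7, f4_X9, f4_X7]; ring
lemma f5_X9 (c : R) : (M^[5] c).X 9 = (-1/32) * c.X 4 + (5/32) * c.X 6 + (-5/16) * c.X 8 + (5/16) * c.X 10 + (-5/32) * c.X 12 + (1/32) * c.X 14 := by
  rw [it_succ, M_Xs _ 8, f4_X10, f4_X8]; ring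
lemma f5_X10 (c : R) : (M^[5] c).X 10 = (-1/32) * c.X 5 + (5/32) * c.X 7 + (-5/16) * c.X 9 + (5/16) * c.X 11 + (-5/32) * c.X 13 + (1/32) * c.X 15 := by
  rw [it_succ, M_Xs _ 9, f4_X11, f4_X9]; ring
lemma f5_X11 (c : R) : (M^[5] c).X 11 = (-1/32) * c.X 6 + (5/32) * c.X 8 + (-5/16) * c.X 10 + (5/16) * c.X 12 + (-5/32) * c.X 14 + (1/32) * c.X 16 := by
  rw [it_succ, M_Xs _ 10, f4_X12, f4_X10]; ring
lemma f5_X12 (c : R) : (M^[5] c).X 12 = (-1/32) * c.X 7 + (5/32) * c.X 9 + (-5/16) * c.X 11 + (5/16) * c.X 13 + (-5/32) * c.X 15 + (1/32) * c.X 17 := by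
  rw [it_succ, M_Xs _ 11, f4_X13, f4_X11]; ring
lemma f5_X13 (c : R) : (M^[5] c).X 13 = (-1/32) * c.X 8 + (5/32) * c.X 10 + (-5/16) * c.X 12 + (5/16) * c.X 14 + (-5/32) * c.X 16 + (1/32) * c.X 18 := by
  rw [it_succ, M_Xs _ 12, f4_X14, f4_X12]; ring
lemma f5_X14 (c : R) : (M^[5] c).X 14 = (-1/32) * c.X 9 + (5/32) * c.X 11 + (-5/16) * c.X 13 + (5/16) * c.X 15 + (-5/32) * c.X 17 + (1/32) * c.X 19 := by
  rw [it_succ, M_Xs _ 13, f4_X15, f4_X13]; ring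
lemma f6_r (c : R) : (M^[6] c).r = (1/1) * c.r + (-19/32) * c.X 0 + (-15/32) * c.X 1 + (-3/16) * c.X 2 + (-7/64) * c.X 3 + (-1/16) * c.X 4 + (-1/64) * c.X 5 := by
  rw [it_succ, M_r, f5_r, f5_X0]; ring
lemma f6_Z (c : R) : (M^[6] c).Z 0 = (1/1) * c.Z 0 + (-11/16) * c.X 0 + (-3/8) * c.X 1 + (-1/4) * c.X 2 + (-1/8) * c.X 3 + (-1/16) * c.X 4 := by
  rw [it_succ, M_Z0, f5_r, f5_Z]; ring
lemma f6_X0 (c : R) : (M^[6] c).X 0 = (1/16) * c.X 0 + (1/8) * c.X 1 + (-1/32) * c.X 2 + (-3/16) * c.X 3 + (-1/16) * c.X 4 + (1/16) * c.X 5 + (1/32) * c.X 6 := by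
  rw [it_succ, M_X0, f5_X0, f5_X1]; ring
lemma f6_X1 (c : R) : (M^[6] c).X 1 = (-1/16) * c.X 0 + (-3/64) * c.X 1 + (3/16) * c.X 2 + (13/64) * c.X 3 + (-1/16) * c.X 4 + (-7/64) * c.X 5 + (1/64) * c.X 7 := by
  rw [it_succ, M_Xs _ 0, f5_X2, f5_X0]; ring
lemma f6_X2 (c : R) : (M^[6] c).X 2 = (-1/64) * c.X 0 + (-3/16) * c.X 1 + (-9/32) * c.X 2 + (1/16) * c.X 3 + (1/4) * c.X 4 + (-3/32) * c.X 6 + (1/64) * c.X 8 := by
  rw [it_succ, M_Xs _ 1, f5_X3, f5_X1]; ring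
lemma f6_X3 (c : R) : (M^[6] c).X 3 = (3/32) * c.X 0 + (13/64) * c.X 1 + (-1/16) * c.X 2 + (-21/64) * c.X 3 + (15/64) * c.X 5 + (-3/32) * c.X 7 + (1/64) * c.X 9 := by
  rw [it_succ, M_Xs _ 2, f5_X4, f5_X2]; ring
lemma f6_X4 (c : R) : (M^[6] c).X 4 = (-1/32) * c.X 0 + (1/16) * c.X 1 + (1/4) * c.X 2 + (-5/16) * c.X 4 + (15/64) * c.X 6 + (-3/32) * c.X 8 + (1/64) * c.X 10 := by
  rw [it_succ, M_Xs _ 3, f5_X5, f5_X3]; ring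
lemma f6_X5 (c : R) : (M^[6] c).X 5 = (-1/32) * c.X 0 + (-7/64) * c.X 1 + (15/64) * c.X 3 + (-5/16) * c.X 5 + (15/64) * c.X 7 + (-3/32) * c.X 9 + (1/64) * c.X 11 := by
  rw [it_succ, M_Xs _ 4, f5_X6, f5_X4]; ring
lemma f6_X6 (c : R) : (M^[6] c).X 6 = (1/64) * c.X 0 + (-3/32) * c.X 2 + (15/64) * c.X 4 + (-5/16) * c.X 6 + (15/64) * c.X 8 + (-3/32) * c.X 10 + (1/64) * c.X 12 := by
  rw [it_succ, M_Xs _ 5, f5_X7, f5_X5]; ring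
lemma f6_X7 (c : R) : (M^[6] c).X 7 = (1/64) * c.X 1 + (-3/32) * c.X 3 + (15/64) * c.X 5 + (-5/16) * c.X 7 + (15/64) * c.X 9 + (-3/32) * c.X 11 + (1/64) * c.X 13 := by
  rw [it_succ, M_Xs _ 6, f5_X8, f5_X6]; ring
lemma f6_X8 (c : R) : (M^[6] c).X 8 = (1/64) * c.X 2 + (-3/32) * c.X 4 + (15/64) * c.X 6 + (-5/16) * c.X 8 + (15/64) * c.X 10 + (-3/32) * c.X 12 + (1/64) * c.X 14 := by
  rw [it_succ, M_Xs _ 7, f5_X9, f5_X7]; ring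
lemma f6_X9 (c : R) : (M^[6] c).X 9 = (1/64) * c.X 3 + (-3/32) * c.X 5 + (15/64) * c.X 7 + (-5/16) * c.X 9 + (15/64) * c.X 11 + (-3/32) * c.X 13 + (1/64) * c.X 15 := by
  rw [it_succ, M_Xs _ 8, f5_X10, f5_X8]; ring
lemma f6_X10 (c : R) : (M^[6] c).X 10 = (1/64) * c.X 4 + (-3/32) * c.X 6 + (15/64) * c.X 8 + (-5/16) * c.X 10 + (15/64) * c.X 12 + (-3/32) * c.X 14 + (1/64) * c.X 16 := by
  rw [it_succ, M_Xs _ 9, f5_X11, f5_X9]; ring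
lemma f6_X11 (c : R) : (M^[6] c).X 11 = (1/64) * c.X 5 + (-3/32) * c.X 7 + (15/64) * c.X 9 + (-5/16) * c.X 11 + (15/64) * c.X 13 + (-3/32) * c.X 15 + (1/64) * c.X 17 := by
  rw [it_succ, M_Xs _ 10, f5_X12, f5_X10]; ring
lemma f6_X12 (c : R) : (M^[6] c).X 12 = (1/64) * c.X 6 + (-3/32) * c.X 8 + (15/64) * c.X 10 + (-5/16) * c.X 12 + (15/64) * c.X 14 + (-3/32) * c.X 16 + (1/64) * c.X 18 := by
  rw [it_succ, M_Xs _ 11, f5_X13, f5_X11]; ring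
lemma f6_X13 (c : R) : (M^[6] c).X 13 = (1/64) * c.X 7 + (-3/32) * c.X 9 + (15/64) * c.X 11 + (-5/16) * c.X 13 + (15/64) * c.X 15 + (-3/32) * c.X 17 + (1/64) * c.X 19 := by
  rw [it_succ, M_Xs _ 12, f5_X14, f5_X12]; ring
lemma f7_r (c : R) : (M^[7] c).r = (1/1) * c.r + (-39/64) * c.X 0 + (-1/2) * c.X 1 + (-23/128) * c.X 2 + (-1/16) * c.X 3 + (-3/64) * c.X 4 + (-1/32) * c.X 5 + (-1/128) * c.X 6 := by
  rw [it_succ, M_r, f6_r, f6_X0]; ring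
lemma f7_Z (c : R) : (M^[7] c).Z 0 = (2/1) * c.r + (-1/1) * c.Z 0 + (-1/2) * c.X 0 + (-9/16) * c.X 1 + (-1/8) * c.X 2 + (-3/32) * c.X 3 + (-1/16) * c.X 4 + (-1/32) * c.X 5 := by
  rw [it_succ, M_Z0, f6_r, f6_Z]; ring
lemma f7_X0 (c : R) : (M^[7] c).X 0 = (5/64) * c.X 1 + (5/32) * c.X 2 + (1/64) * c.X 3 + (-1/8) * c.X 4 + (-3/64) * c.X 5 + (1/32) * c.X 6 + (1/64) * c.X 7 := by
  rw [it_succ, M_X0, f6_X0, f6_X1]; ring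
lemma f7_X1 (c : R) : (M^[7] c).X 1 = (-5/128) * c.X 0 + (-5/32) * c.X 1 + (-1/8) * c.X 2 + (1/8) * c.X 3 + (5/32) * c.X 4 + (-1/32) * c.X 5 + (-1/16) * c.X 6 + (1/128) * c.X 8 := by
  rw [it_succ, M_Xs _ 0, f6_X2, f6_X0]; ring
lemma f7_X2 (c : R) : (M^[7] c).X 2 = (5/64) * c.X 0 + (1/8) * c.X 1 + (-1/8) * c.X 2 + (-17/64) * c.X 3 + (1/32) * c.X 4 + (11/64) * c.X 5 + (-7/128) * c.X 7 + (1/128) * c.X 9 := by
  rw [it_succ, M_Xs _ 1, f6_X3, f6_X1]; ring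
lemma f7_X3 (c : R) : (M^[7] c).X 3 = (-1/128) * c.X 0 + (1/8) * c.X 1 + (17/64) * c.X 2 + (-1/32) * c.X 3 + (-9/32) * c.X 4 + (21/128) * c.X 6 + (-7/128) * c.X 8 + (1/128) * c.X 10 := by
  rw [it_succ, M_Xs _ 2, f6_X4, f6_X2]; ring
lemma f7_X4 (c : R) : (M^[7] c).X 4 = (-1/16) * c.X 0 + (-5/32) * c.X 1 + (1/32) * c.X 2 + (9/32) * c.X 3 + (-35/128) * c.X 5 + (21/128) * c.X 7 + (-7/128) * c.X 9 + (1/128) * c.X 11 := by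
  rw [it_succ, M_Xs _ 3, f6_X5, f6_X3]; ring
lemma f7_X5 (c : R) : (M^[7] c).X 5 = (3/128) * c.X 0 + (-1/32) * c.X 1 + (-11/64) * c.X 2 + (35/128) * c.X 4 + (-35/128) * c.X 6 + (21/128) * c.X 8 + (-7/128) * c.X 10 + (1/128) * c.X 12 := by
  rw [it_succ, M_Xs _ 4, f6_X6, f6_X4]; ring
lemma f7_X6 (c : R) : (M^[7] c).X 6 = (1/64) * c.X 0 + (1/16) * c.X 1 + (-21/128) * c.X 3 + (35/128) * c.X 5 + (-35/128) * c.X 7 + (21/128) * c.X 9 + (-7/128) * c.X 11 + (1/128) * c.X 13 := by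
  rw [it_succ, M_Xs _ 5, f6_X7, f6_X5]; ring
lemma f7_X7 (c : R) : (M^[7] c).X 7 = (-1/128) * c.X 0 + (7/128) * c.X 2 + (-21/128) * c.X 4 + (35/128) * c.X 6 + (-35/128) * c.X 8 + (21/128) * c.X 10 + (-7/128) * c.X 12 + (1/128) * c.X 14 := by
  rw [it_succ, M_Xs _ 6, f6_X8, f6_X6]; ring
lemma f7_X8 (c : R) : (M^[7] c).X 8 = (-1/128) * c.X 1 + (7/128) * c.X 3 + (-21/128) * c.X 5 + (35/128) * c.X 7 + (-35/128) * c.X 9 + (21/128) * c.X 11 + (-7/128) * c.X 13 + (1/128) * c.X 15 := by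
  rw [it_succ, M_Xs _ 7, f6_X9, f6_X7]; ring
lemma f7_X9 (c : R) : (M^[7] c).X 9 = (-1/128) * c.X 2 + (7/128) * c.X 4 + (-21/128) * c.X 6 + (35/128) * c.X 8 + (-35/128) * c.X 10 + (21/128) * c.X 12 + (-7/128) * c.X 14 + (1/128) * c.X 16 := by
  rw [it_succ, M_Xs _ 8, f6_X10, f6_X8]; ring
lemma f7_X10 (c : R) : (M^[7] c).X 10 = (-1/128) * c.X 3 + (7/128) * c.X 5 + (-21/128) * c.X 7 + (35/128) * c.X 9 + (-35/128) * c.X 11 + (21/128) * c.X 13 + (-7/128) * c.X 15 + (1/128) * c.X 17 := by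
  rw [it_succ, M_Xs _ 9, f6_X11, f6_X9]; ring
lemma f7_X11 (c : R) : (M^[7] c).X 11 = (-1/128) * c.X 4 + (7/128) * c.X 6 + (-21/128) * c.X 8 + (35/128) * c.X 10 + (-35/128) * c.X 12 + (21/128) * c.X 14 + (-7/128) * c.X 16 + (1/128) * c.X 18 := by
  rw [it_succ, M_Xs _ 10, f6_X12, f6_X10]; ring
lemma f7_X12 (c : R) : (M^[7] c).X 12 = (-1/128) * c.X 5 + (7/128) * c.X 7 + (-21/128) * c.X 9 + (35/128) * c.X 11 + (-35/128) * c.X 13 + (21/128) * c.X 15 + (-7/128) * c.X 17 + (1/128) * c.X 19 := by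
  rw [it_succ, M_Xs _ 11, f6_X13, f6_X11]; ring
lemma f8_r (c : R) : (M^[8] c).r = (1/1) * c.r + (-39/64) * c.X 0 + (-133/256) * c.X 1 + (-7/32) * c.X 2 + (-17/256) * c.X 3 + (-1/64) * c.X 4 + (-5/256) * c.X 5 + (-1/64) * c.X 6 + (-1/256) * c.X 7 := by
  rw [it_succ, M_r, f7_r, f7_X0]; ring
lemma f8_Z (c : R) : (M^[8] c).Z 0 = (1/1) * c.Z 0 + (-23/32) * c.X 0 + (-7/16) * c.X 1 + (-15/64) * c.X 2 + (-1/32) * c.X 3 + (-1/32) * c.X 4 + (-1/32) * c.X 5 + (-1/64) * c.X 6 := by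
  rw [it_succ, M_Z0, f7_r, f7_Z]; ring
lemma f8_X0 (c : R) : (M^[8] c).X 0 = (-5/128) * c.X 0 + (-5/64) * c.X 1 + (1/32) * c.X 2 + (9/64) * c.X 3 + (1/32) * c.X 4 + (-5/64) * c.X 5 + (-1/32) * c.X 6 + (1/64) * c.X 7 + (1/128) * c.X 8 := by
  rw [it_succ, M_X0, f7_X0, f7_X1]; ring
lemma f8_X1 (c : R) : (M^[8] c).X 1 = (5/128) * c.X 0 + (3/128) * c.X 1 + (-9/64) * c.X 2 + (-9/64) * c.X 3 + (5/64) * c.X 4 + (7/64) * c.X 5 + (-1/64) * c.X 6 + (-9/256) * c.X 7 + (1/256) * c.X 9 := by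
  rw [it_succ, M_Xs _ 0, f7_X2, f7_X0]; ring
lemma f8_X2 (c : R) : (M^[8] c).X 2 = (1/64) * c.X 0 + (9/64) * c.X 1 + (25/128) * c.X 2 + (-5/64) * c.X 3 + (-7/32) * c.X 4 + (1/64) * c.X 5 + (29/256) * c.X 6 + (-1/32) * c.X 8 + (1/256) * c.X 10 := by
  rw [it_succ, M_Xs _ 1, f7_X3, f7_X1]; ring
lemma f8_X3 (c : R) : (M^[8] c).X 3 = (-9/128) * c.X 0 + (-9/64) * c.X 1 + (5/64) * c.X 2 + (35/128) * c.X 3 + (-1/64) * c.X 4 + (-57/256) * c.X 5 + (7/64) * c.X 7 + (-1/32) * c.X 9 + (1/256) * c.X 11 := by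
  rw [it_succ, M_Xs _ 2, f7_X4, f7_X2]; ring
lemma f8_X4 (c : R) : (M^[8] c).X 4 = (1/64) * c.X 0 + (-5/64) * c.X 1 + (-7/32) * c.X 2 + (1/64) * c.X 3 + (71/256) * c.X 4 + (-7/32) * c.X 6 + (7/64) * c.X 8 + (-1/32) * c.X 10 + (1/256) * c.X 12 := by
  rw [it_succ, M_Xs _ 3, f7_X5, f7_X3]; ring
lemma f8_X5 (c : R) : (M^[8] c).X 5 = (5/128) * c.X 0 + (7/64) * c.X 1 + (-1/64) * c.X 2 + (-57/256) * c.X 3 + (35/128) * c.X 5 + (-7/32) * c.X 7 + (7/64) * c.X 9 + (-1/32) * c.X 11 + (1/256) * c.X 13 := by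
  rw [it_succ, M_Xs _ 4, f7_X6, f7_X4]; ring
lemma f8_X6 (c : R) : (M^[8] c).X 6 = (-1/64) * c.X 0 + (1/64) * c.X 1 + (29/256) * c.X 2 + (-7/32) * c.X 4 + (35/128) * c.X 6 + (-7/32) * c.X 8 + (7/64) * c.X 10 + (-1/32) * c.X 12 + (1/256) * c.X 14 := by
  rw [it_succ, M_Xs _ 5, f7_X7, f7_X5]; ring
lemma f8_X7 (c : R) : (M^[8] c).X 7 = (-1/128) * c.X 0 + (-9/256) * c.X 1 + (7/64) * c.X 3 + (-7/32) * c.X 5 + (35/128) * c.X 7 + (-7/32) * c.X 9 + (7/64) * c.X 11 + (-1/32) * c.X 13 + (1/256) * c.X 15 := by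
  rw [it_succ, M_Xs _ 6, f7_X8, f7_X6]; ring
lemma f8_X8 (c : R) : (M^[8] c).X 8 = (1/256) * c.X 0 + (-1/32) * c.X 2 + (7/64) * c.X 4 + (-7/32) * c.X 6 + (35/128) * c.X 8 + (-7/32) * c.X 10 + (7/64) * c.X 12 + (-1/32) * c.X 14 + (1/256) * c.X 16 := by
  rw [it_succ, M_Xs _ 7, f7_X9, f7_X7]; ring
lemma f8_X9 (c : R) : (M^[8] c).X 9 = (1/256) * c.X 1 + (-1/32) * c.X 3 + (7/64) * c.X 5 + (-7/32) * c.X 7 + (35/128) * c.X 9 + (-7/32) * c.X 11 + (7/64) * c.X 13 + (-1/32) * c.X 15 + (1/256) * c.X 17 := by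
  rw [it_succ, M_Xs _ 8, f7_X10, f7_X8]; ring
lemma f8_X10 (c : R) : (M^[8] c).X 10 = (1/256) * c.X 2 + (-1/32) * c.X 4 + (7/64) * c.X 6 + (-7/32) * c.X 8 + (35/128) * c.X 10 + (-7/32) * c.X 12 + (7/64) * c.X 14 + (-1/32) * c.X 16 + (1/256) * c.X 18 := by
  rw [it_succ, M_Xs _ 9, f7_X11, f7_X9]; ring
lemma f8_X11 (c : R) : (M^[8] c).X 11 = (1/256) * c.X 3 + (-1/32) * c.X 5 + (7/64) * c.X 7 + (-7/32) * c.X 9 + (35/128) * c.X 11 + (-7/32) * c.X 13 + (7/64) * c.X 15 + (-1/32) * c.X 17 + (1/256) * c.X 19 := by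
  rw [it_succ, M_Xs _ 10, f7_X12, f7_X10]; ring


end Pool.Agent.P.MP_c12967_pr
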