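import Pool.Agent.P.MP_c12967_pr.PosBase

/-!
Exit conditions after short runs.
-/

set_option autoImplicit false

namespace Pool.Agent.P.MP_c12967_pr

lemma out1 (c : R) (h : E c) : Out (M^[1] c) := by
  have hT := tailX c h 1
  have hZ := tailZ c 1
  obtain ⟨hN, a1, a2, b1, b2, c1, c2, d1, d2, ht, hz⟩ := h
  obtain ⟨t3, u3⟩ := abs_le.mp (ht 3 (by norm_num))
  obtain ⟨t4, u4⟩ := abs_le.mp (ht 4 (by norm_num))
  obtain ⟨t5, u5⟩ := abs_le.mp (ht 5 (by norm_num))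
  have hg : c.r - c.X 0 / 4 ≤ 2 * (M^[1] c).r + (M^[1] c).X 0 / 4 := by
    rw [f1_r, f1_X0]; linarith
  have hg2 : 4 / 25 * (c.r - c.X 0 / 4) ≤ 1 / 8 * (2 * (M^[1] c).r + (M^[1] c).X 0 / 4) := by
    rw [f1_r, f1_X0]; linarith
  refine ⟨by linarith, ?_, ?_, ?_, ?_, ?_, ?_, ?_, ?_, ?_, ?_, ?_⟩
  · rw [f1_r, f1_X0]; linarith
  · rw [f1_r, f1_X0]; linarith
  · rw [f1_r, f1_X0, f1_Z]; linarith
  · rw [f1_r, f1_X0, f1_Z]; linarith
  · rw [f1_r, f1_X0, f1_X2]; linarith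
  · rw [f1_r, f1_X0, f1_X2]; linarith
  · rw [f1_r, f1_X0, f1_X1]; linarith
  · rw [f1_r, f1_X0, f1_X1]; linarith
  · rw [f1_r, f1_X0, f1_X3, abs_le]; constructor <;> linarith
  · intro k hk
    by_cases hk2 : 3 + 1 ≤ k
    · have := hT k hk2; linarith
    · omega
  · intro i hi
    rw [hZ i hi]; have := hz i hi; linarith

lemma out2 (c : R) (h : E c) : Out (M^[2] c) := by
  have hT := tailX c h 2
  have hZ := tailZ c 2
  obtain ⟨hN, a1, a2, b1, b2, c1, c2, d1, d2, ht, hz⟩ := h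
  obtain ⟨t3, u3⟩ := abs_le.mp (ht 3 (by norm_num))
  obtain ⟨t4, u4⟩ := abs_le.mp (ht 4 (by norm_num))
  obtain ⟨t5, u5⟩ := abs_le.mp (ht 5 (by norm_num))
  obtain ⟨t6, u6⟩ := abs_le.mp (ht 6 (by norm_num))
  obtain ⟨t7, u7⟩ := abs_le.mp (ht 7 (by norm_num))
  have hg : c.r - c.X 0 / 4 ≤ 2 * (M^[2] c).r + (M^[2] c).X 0 / 4 := by
    rw [f2_r, f2_X0]; linarith
  have hg2 : 4 / 25 * (c.r - c.X 0 / 4) ≤ 1 / 8 * (2 * (M^[2] c).r + (M^[2] c).X 0 / 4) := by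
    rw [f2_r, f2_X0]; linarith
  refine ⟨by linarith, ?_, ?_, ?_, ?_, ?_, ?_, ?_, ?_, ?_, ?_, ?_⟩
  · rw [f2_r, f2_X0]; linarith
  · rw [f2_r, f2_X0]; linarith
  · rw [f2_r, f2_X0, f2_Z]; linarith
  · rw [f2_r, f2_X0, f2_Z]; linarith
  · rw [f2_r, f2_X0, f2_X2]; linarith
  · rw [f2_r, f2_X0, f2_X2]; linarith
  · rw [f2_r, f2_X0, f2_X1]; linarith
  · rw [f2_r, f2_X0, f2_X1]; linarith
  · rw [f2_r, f2_X0, f2_X3, abs_le]; constructor <;> linarith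
  · intro k hk
    by_cases hk2 : 3 + 2 ≤ k
    · have := hT k hk2; linarith
    · have hk3 : k < 5 := by omega
      interval_cases k
      · rw [f2_r, f2_X0, f2_X4, abs_le]; constructor <;> linarith
  · intro i hi
    rw [hZ i hi]; have := hz i hi; linarith

lemma out3 (c : R) (h : E c) : Out (M^[3] c) := by
  have hT := tailX c h 3
  have hZ := tailZ c 3
  obtain ⟨hN, a1, a2, b1, b2, c1, c2, d1, d2, ht, hz⟩ := h
  obtain ⟨t3, u3⟩ := abs_le.mp (ht 3 (by norm_num))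
  obtain ⟨t4, u4⟩ := abs_le.mp (ht 4 (by norm_num))
  obtain ⟨t5, u5⟩ := abs_le.mp (ht 5 (by norm_num))
  obtain ⟨t6, u6⟩ := abs_le.mp (ht 6 (by norm_num))
  obtain ⟨t7, u7⟩ := abs_le.mp (ht 7 (by norm_num))
  obtain ⟨t8, u8⟩ := abs_le.mp (ht 8 (by norm_num))
  obtain ⟨t9, u9⟩ := abs_le.mp (ht 9 (by norm_num))
  have hg : c.r - c.X 0 / 4 ≤ 2 * (M^[3] c).r + (M^[3] c).X 0 / 4 := by
    rw [f3_r, f3_X0]; linarith
  have hg2 : 4 / 25 * (c.r - c.X 0 / 4) ≤ 1 / 8 * (2 * (M^[3] c).r + (M^[3] c).X 0 / 4) := by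
    rw [f3_r, f3_X0]; linarith
  refine ⟨by linarith, ?_, ?_, ?_, ?_, ?_, ?_, ?_, ?_, ?_, ?_, ?_⟩
  · rw [f3_r, f3_X0]; linarith
  · rw [f3_r, f3_X0]; linarith
  · rw [f3_r, f3_X0, f3_Z]; linarith
  · rw [f3_r, f3_X0, f3_Z]; linarith
  · rw [f3_r, f3_X0, f3_X2]; linarith
  · rw [f3_r, f3_X0, f3_X2]; linarith
  · rw [f3_r, f3_X0, f3_X1]; linarith
  · rw [f3_r, f3_X0, f3_X1]; linarith
  · rw [f3_r, f3_X0, f3_X3, abs_le]; constructor <;> linarith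
  · intro k hk
    by_cases hk2 : 3 + 3 ≤ k
    · have := hT k hk2; linarith
    · have hk3 : k < 6 := by omega
      interval_cases k
      · rw [f3_r, f3_X0, f3_X4, abs_le]; constructor <;> linarith
      · rw [f3_r, f3_X0, f3_X5, abs_le]; constructor <;> linarith
  · intro i hi
    rw [hZ i hi]; have := hz i hi; linarith

lemma out4 (c : R) (h : E c) : Out (M^[4] c) := by
  have hT := tailX c h 4
  have hZ := tailZ c 4
  obtain ⟨hN, a1, a2, b1, b2, c1, c2, d1, d2, ht, hz⟩ := h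
  obtain ⟨t3, u3⟩ := abs_le.mp (ht 3 (by norm_num))
  obtain ⟨t4, u4⟩ := abs_le.mp (ht 4 (by norm_num))
  obtain ⟨t5, u5⟩ := abs_le.mp (ht 5 (by norm_num))
  obtain ⟨t6, u6⟩ := abs_le.mp (ht 6 (by norm_num))
  obtain ⟨t7, u7⟩ := abs_le.mp (ht 7 (by norm_num))
  obtain ⟨t8, u8⟩ := abs_le.mp (ht 8 (by norm_num))
  obtain ⟨t9, u9⟩ := abs_le.mp (ht 9 (by norm_num))
  obtain ⟨t10, u10⟩ := abs_le.mp (ht 10 (by norm_num))
  obtain ⟨t11, u11⟩ := abs_le.mp (ht 11 (by norm_num))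
  have hg : c.r - c.X 0 / 4 ≤ 2 * (M^[4] c).r + (M^[4] c).X 0 / 4 := by
    rw [f4_r, f4_X0]; linarith
  have hg2 : 4 / 25 * (c.r - c.X 0 / 4) ≤ 1 / 8 * (2 * (M^[4] c).r + (M^[4] c).X 0 / 4) := by
    rw [f4_r, f4_X0]; linarith
  refine ⟨by linarith, ?_, ?_, ?_, ?_, ?_, ?_, ?_, ?_, ?_, ?_, ?_⟩
  · rw [f4_r, f4_X0]; linarith
  · rw [f4_r, f4_X0]; linarith
  · rw [f4_r, f4_X0, f4_Z]; linarith
  · rw [f4_r, f4_X0, f4_Z]; linarith
  · rw [f4_r, f4_X0, f4_X2]; linarith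
  · rw [f4_r, f4_X0, f4_X2]; linarith
  · rw [f4_r, f4_X0, f4_X1]; linarith
  · rw [f4_r, f4_X0, f4_X1]; linarith
  · rw [f4_r, f4_X0, f4_X3, abs_le]; constructor <;> linarith
  · intro k hk
    by_cases hk2 : 3 + 4 ≤ k
    · have := hT k hk2; linarith
    · have hk3 : k < 7 := by omega
      interval_cases k
      · rw [f4_r, f4_X0, f4_X4, abs_le]; constructor <;> linarith
      · rw [f4_r, f4_X0, f4_X5, abs_le]; constructor <;> linarith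
      · rw [f4_r, f4_X0, f4_X6, abs_le]; constructor <;> linarith
  · intro i hi
    rw [hZ i hi]; have := hz i hi; linarith

lemma out5 (c : R) (h : E c) : Out (M^[5] c) := by
  have hT := tailX c h 5
  have hZ := tailZ c 5
  obtain ⟨hN, a1, a2, b1, b2, c1, c2, d1, d2, ht, hz⟩ := h
  obtain ⟨t3, u3⟩ := abs_le.mp (ht 3 (by norm_num))
  obtain ⟨t4, u4⟩ := abs_le.mp (ht 4 (by norm_num))
  obtain ⟨t5, u5⟩ := abs_le.mp (ht 5 (by norm_num))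
  obtain ⟨t6, u6⟩ := abs_le.mp (ht 6 (by norm_num))
  obtain ⟨t7, u7⟩ := abs_le.mp (ht 7 (by norm_num))
  obtain ⟨t8, u8⟩ := abs_le.mp (ht 8 (by norm_num))
  obtain ⟨t9, u9⟩ := abs_le.mp (ht 9 (by norm_num))
  obtain ⟨t10, u10⟩ := abs_le.mp (ht 10 (by norm_num))
  obtain ⟨t11, u11⟩ := abs_le.mp (ht 11 (by norm_num))
  obtain ⟨t12, u12⟩ := abs_le.mp (ht 12 (by norm_num))
  obtain ⟨t13, u13⟩ := abs_le.mp (ht 13 (by norm_num))
  have hg : c.r - c.X 0 / 4 ≤ 2 * (M^[5] c).r + (M^[5] c).X 0 / 4 := by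
    rw [f5_r, f5_X0]; linarith
  have hg2 : 4 / 25 * (c.r - c.X 0 / 4) ≤ 1 / 8 * (2 * (M^[5] c).r + (M^[5] c).X 0 / 4) := by
    rw [f5_r, f5_X0]; linarith
  refine ⟨by linarith, ?_, ?_, ?_, ?_, ?_, ?_, ?_, ?_, ?_, ?_, ?_⟩
  · rw [f5_r, f5_X0]; linarith
  · rw [f5_r, f5_X0]; linarith
  · rw [f5_r, f5_X0, f5_Z]; linarith
  · rw [f5_r, f5_X0, f5_Z]; linarith
  · rw [f5_r, f5_X0, f5_X2]; linarith
  · rw [f5_r, f5_X0, f5_X2]; linarith
  · rw [f5_r, f5_X0, f5_X1]; linarith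
  · rw [f5_r, f5_X0, f5_X1]; linarith
  · rw [f5_r, f5_X0, f5_X3, abs_le]; constructor <;> linarith
  · intro k hk
    by_cases hk2 : 3 + 5 ≤ k
    · have := hT k hk2; linarith
    · have hk3 : k < 8 := by omega
      interval_cases k
      · rw [f5_r, f5_X0, f5_X4, abs_le]; constructor <;> linarith
      · rw [f5_r, f5_X0, f5_X5, abs_le]; constructor <;> linarith
      · rw [f5_r, f5_X0, f5_X6, abs_le]; constructor <;> linarith
      · rw [f5_r, f5_X0, f5_X7, abs_le]; constructor <;> linarith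
  · intro i hi
    rw [hZ i hi]; have := hz i hi; linarith

lemma out6 (c : R) (h : E c) : Out (M^[6] c) := by
  have hT := tailX c h 6
  have hZ := tailZ c 6
  obtain ⟨hN, a1, a2, b1, b2, c1, c2, d1, d2, ht, hz⟩ := h
  obtain ⟨t3, u3⟩ := abs_le.mp (ht 3 (by norm_num))
  obtain ⟨t4, u4⟩ := abs_le.mp (ht 4 (by norm_num))
  obtain ⟨t5, u5⟩ := abs_le.mp (ht 5 (by norm_num))
  obtain ⟨t6, u6⟩ := abs_le.mp (ht 6 (by norm_num))
  obtain ⟨t7, u7⟩ := abs_le.mp (ht 7 (by norm_num))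
  obtain ⟨t8, u8⟩ := abs_le.mp (ht 8 (by norm_num))
  obtain ⟨t9, u9⟩ := abs_le.mp (ht 9 (by norm_num))
  obtain ⟨t10, u10⟩ := abs_le.mp (ht 10 (by norm_num))
  obtain ⟨t11, u11⟩ := abs_le.mp (ht 11 (by norm_num))
  obtain ⟨t12, u12⟩ := abs_le.mp (ht 12 (by norm_num))
  obtain ⟨t13, u13⟩ := abs_le.mp (ht 13 (by norm_num))
  obtain ⟨t14, u14⟩ := abs_le.mp (ht 14 (by norm_num))
  obtain ⟨t15, u15⟩ := abs_le.mp (ht 15 (by norm_num))
  have hg : c.r - c.X 0 / 4 ≤ 2 * (M^[6] c).r + (M^[6] c).X 0 / 4 := by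
    rw [f6_r, f6_X0]; linarith
  have hg2 : 4 / 25 * (c.r - c.X 0 / 4) ≤ 1 / 8 * (2 * (M^[6] c).r + (M^[6] c).X 0 / 4) := by
    rw [f6_r, f6_X0]; linarith
  refine ⟨by linarith, ?_, ?_, ?_, ?_, ?_, ?_, ?_, ?_, ?_, ?_, ?_⟩
  · rw [f6_r, f6_X0]; linarith
  · rw [f6_r, f6_X0]; linarith
  · rw [f6_r, f6_X0, f6_Z]; linarith
  · rw [f6_r, f6_X0, f6_Z]; linarith
  · rw [f6_r, f6_X0, f6_X2]; linarith
  · rw [f6_r, f6_X0, f6_X2]; linarith
  · rw [f6_r, f6_X0, f6_X1]; linarith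
  · rw [f6_r, f6_X0, f6_X1]; linarith
  · rw [f6_r, f6_X0, f6_X3, abs_le]; constructor <;> linarith
  · intro k hk
    by_cases hk2 : 3 + 6 ≤ k
    · have := hT k hk2; linarith
    · have hk3 : k < 9 := by omega
      interval_cases k
      · rw [f6_r, f6_X0, f6_X4, abs_le]; constructor <;> linarith
      · rw [f6_r, f6_X0, f6_X5, abs_le]; constructor <;> linarith
      · rw [f6_r, f6_X0, f6_X6, abs_le]; constructor <;> linarith
      · rw [f6_r, f6_X0, f6_X7, abs_le]; constructor <;> linarith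
      · rw [f6_r, f6_X0, f6_X8, abs_le]; constructor <;> linarith
  · intro i hi
    rw [hZ i hi]; have := hz i hi; linarith

lemma out7 (c : R) (h : E c) : Out (M^[7] c) := by
  have hT := tailX c h 7
  have hZ := tailZ c 7
  obtain ⟨hN, a1, a2, b1, b2, c1, c2, d1, d2, ht, hz⟩ := h
  obtain ⟨t3, u3⟩ := abs_le.mp (ht 3 (by norm_num))
  obtain ⟨t4, u4⟩ := abs_le.mp (ht 4 (by norm_num))
  obtain ⟨t5, u5⟩ := abs_le.mp (ht 5 (by norm_num))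
  obtain ⟨t6, u6⟩ := abs_le.mp (ht 6 (by norm_num))
  obtain ⟨t7, u7⟩ := abs_le.mp (ht 7 (by norm_num))
  obtain ⟨t8, u8⟩ := abs_le.mp (ht 8 (by norm_num))
  obtain ⟨t9, u9⟩ := abs_le.mp (ht 9 (by norm_num))
  obtain ⟨t10, u10⟩ := abs_le.mp (ht 10 (by norm_num))
  obtain ⟨t11, u11⟩ := abs_le.mp (ht 11 (by norm_num))
  obtain ⟨t12, u12⟩ := abs_le.mp (ht 12 (by norm_num))
  obtain ⟨t13, u13⟩ := abs_le.mp (ht 13 (by norm_num))
  obtain ⟨t14, u14⟩ := abs_le.mp (ht 14 (by norm_num))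
  obtain ⟨t15, u15⟩ := abs_le.mp (ht 15 (by norm_num))
  obtain ⟨t16, u16⟩ := abs_le.mp (ht 16 (by norm_num))
  obtain ⟨t17, u17⟩ := abs_le.mp (ht 17 (by norm_num))
  have hg : c.r - c.X 0 / 4 ≤ 2 * (M^[7] c).r + (M^[7] c).X 0 / 4 := by
    rw [f7_r, f7_X0]; linarith
  have hg2 : 4 / 25 * (c.r - c.X 0 / 4) ≤ 1 / 8 * (2 * (M^[7] c).r + (M^[7] c).X 0 / 4) := by
    rw [f7_r, f7_X0]; linarith
  refine ⟨by linarith, ?_, ?_, ?_, ?_, ?_, ?_, ?_, ?_, ?_, ?_, ?_⟩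
  · rw [f7_r, f7_X0]; linarith
  · rw [f7_r, f7_X0]; linarith
  · rw [f7_r, f7_X0, f7_Z]; linarith
  · rw [f7_r, f7_X0, f7_Z]; linarith
  · rw [f7_r, f7_X0, f7_X2]; linarith
  · rw [f7_r, f7_X0, f7_X2]; linarith
  · rw [f7_r, f7_X0, f7_X1]; linarith
  · rw [f7_r, f7_X0, f7_X1]; linarith
  · rw [f7_r, f7_X0, f7_X3, abs_le]; constructor <;> linarith
  · intro k hk
    by_cases hk2 : 3 + 7 ≤ k
    · have := hT k hk2; linarith
    · have hk3 : k < 10 := by omega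
      interval_cases k
      · rw [f7_r, f7_X0, f7_X4, abs_le]; constructor <;> linarith
      · rw [f7_r, f7_X0, f7_X5, abs_le]; constructor <;> linarith
      · rw [f7_r, f7_X0, f7_X6, abs_le]; constructor <;> linarith
      · rw [f7_r, f7_X0, f7_X7, abs_le]; constructor <;> linarith
      · rw [f7_r, f7_X0, f7_X8, abs_le]; constructor <;> linarith
      · rw [f7_r, f7_X0, f7_X9, abs_le]; constructor <;> linarith
  · intro i hi
    rw [hZ i hi]; have := hz i hi; linarith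


end Pool.Agent.P.MP_c12967_pr
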