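import Pool.Agent.P.MP_c12967_pr.Model

/-!
The second colouring is invariant under all permutations of the colours and under reflection.
-/

set_option autoImplicit false
set_option linter.unusedSimpArgs false

namespace Pool.Agent.P.MP_c12967_pr.Sym

open Finset

/-! ### permutations of the colours -/

/-- The relabelling that exchanges the second and the third operator. -/
noncomputable def sw (f : St) : St :=
  ⟨f.o0, f.o2, f.o1, fun j => -(-1) ^ j * f.e0 j, fun j => -(-1) ^ j * f.e2 j,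
    fun j => -(-1) ^ j * f.e1 j, fun j => (-1) ^ j * f.d0 j, fun j => (-1) ^ j * f.d2 j,
    fun j => (-1) ^ j * f.d1 j⟩

lemma sw_w (f : St) : (sw f).w = f.w := by simp only [sw, St.w]; ring

lemma sw_T0 (f : St) : T0 (sw f) = sw (T0 f) := by
  ext j
  any_goals (simp [T0, sw, St.w]; ring1)
  all_goals rcases j with _ | j <;> simp [T0, sw, St.w, pow_succ] <;> ring1

lemma sw_rot (f : St) : rot (sw f) = sw (rot (rot f)) := rfl

lemma sw_T1 (f : St) : T1 (sw f) = sw (T2 f) := by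
  show rot (rot (T0 (sw (rot (rot f))))) = _
  rw [sw_T0]
  rfl

lemma sw_T2 (f : St) : T2 (sw f) = sw (T1 f) := by
  show rot (T0 (sw (rot f))) = _
  rw [sw_T0]
  rfl

lemma sw_lam : sw lam = lam := by
  ext j
  any_goals rfl
  all_goals rcases j with _ | _ | j <;> simp [sw, lam]

lemma sw_z (f : St) : St.smul 0 (sw f) = sw (St.smul 0 f) := by
  ext j <;> simp [sw, St.smul]

/-- `ρ` realises the permutation `σ` of the colours on states. -/
def Real (σ : Equiv.Perm (Fin 4)) (ρ : St → St) : Prop :=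
  (∀ c d f, Tc (σ c) (σ d) (ρ f) = ρ (Tc c d f)) ∧ ρ lam = lam ∧ ∀ f, (ρ f).w = f.w

lemma real_swap (x y : Fin 4) (h : x ≠ y) : ∃ ρ, Real (Equiv.swap x y) ρ := by
  have a0 : ∀ f, T2 (rot (sw f)) = rot (sw (T0 f)) := fun f => congrArg rot (sw_T0 f)
  have a1 : ∀ f, T1 (rot (sw f)) = rot (sw (T1 f)) := fun f => congrArg rot (sw_T2 f)
  have a2 : ∀ f, T0 (rot (sw f)) = rot (sw (T2 f)) := fun f => congrArg rot (sw_T1 f)
  have az : ∀ f, St.smul 0 (rot (sw f)) = rot (sw (St.smul 0 f)) := fun f => congrArg rot (sw_z f)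
  have b0 : ∀ f, T1 (rot (rot (sw f))) = rot (rot (sw (T0 f))) := fun f => congrArg rot (a0 f)
  have b1 : ∀ f, T0 (rot (rot (sw f))) = rot (rot (sw (T1 f))) := fun f => congrArg rot (a1 f)
  have b2 : ∀ f, T2 (rot (rot (sw f))) = rot (rot (sw (T2 f))) := fun f => congrArg rot (a2 f)
  have bz : ∀ f, St.smul 0 (rot (rot (sw f))) = rot (rot (sw (St.smul 0 f))) :=
    fun f => congrArg rot (az f)
  by_cases h1 : x.val + y.val = 1 ∨ x.val + y.val = 5
  · refine ⟨sw, fun c d f => ?_, sw_lam, sw_w⟩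
    fin_cases x <;> fin_cases y <;> simp at h h1 <;> fin_cases c <;> fin_cases d <;>
      simp [Tc, Equiv.swap_apply_def, sw_T0, sw_T1, sw_T2, sw_z]
  by_cases h2 : x.val + y.val = 3
  · refine ⟨fun f => rot (rot (sw f)), fun c d f => ?_,
      congrArg (fun g => rot (rot g)) sw_lam, fun f => by rw [rot_w, rot_w, sw_w]⟩
    fin_cases x <;> fin_cases y <;> simp at h h2 <;> fin_cases c <;> fin_cases d <;>
      simp [Tc, Equiv.swap_apply_def, b0, b1, b2, bz]
  · refine ⟨fun f => rot (sw f), fun c d f => ?_, congrArg rot sw_lam,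
      fun f => by rw [rot_w, sw_w]⟩
    fin_cases x <;> fin_cases y <;> simp at h h1 h2 <;> fin_cases c <;> fin_cases d <;>
      simp [Tc, Equiv.swap_apply_def, a0, a1, a2, az]

lemma real_all (σ : Equiv.Perm (Fin 4)) : ∃ ρ, Real σ ρ := by
  induction σ using Equiv.Perm.swap_induction_on with
  | one => exact ⟨id, fun _ _ _ => rfl, rfl, fun _ => rfl⟩
  | swap_mul τ x y h ih =>
    obtain ⟨ρ, h1, h2, h3⟩ := ih
    obtain ⟨ρ', k1, k2, k3⟩ := real_swap x y h
    refine ⟨fun f => ρ' (ρ f), fun c d f => ?_, by simp only [h2, k2], fun f => by rw [k3, h3]⟩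
    simp only [Equiv.Perm.mul_apply, k1, h1]

lemma ev_perm {σ : Equiv.Perm (Fin 4)} {ρ : St → St} (h : Real σ ρ) (x : List (Fin 4)) :
    ∀ (f : St) (c : Fin 4), ev (ρ f) (σ c) (x.map σ) = ev f c x := by
  induction x with
  | nil => intro f c; exact h.2.2 f
  | cons d x ih => intro f c; simp only [List.map_cons, ev, h.1, ih]

theorem Pnew_perm (σ : Equiv.Perm (Fin 4)) (x : List (Fin 4)) : Pnew (x.map σ) = Pnew x := by
  obtain ⟨ρ, h⟩ := real_all σ
  rcases x with _ | ⟨c, x⟩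
  · rfl
  · have := ev_perm h x lam c
    rw [h.2.1] at this
    simp only [List.map_cons, Pnew, List.length_map, this]

/-! ### reflection -/

/-- The transpose of the first transfer operator. -/
noncomputable def S0 (u : St) : St where
  o0 := 5 / 2 * u.o0 + 7 / 4 * u.o1 + 7 / 4 * u.o2 - 7 / 6 * u.e1 0 + 7 / 6 * u.e2 0 -
    u.d0 0 / 3 - u.d1 0 / 6 - u.d2 0 / 6
  o1 := -u.o0 / 2 - u.o1 / 4 + 3 / 4 * u.o2 - 2 * u.e0 0 + 5 / 6 * u.e1 0 - 5 / 6 * u.e2 0 -
    u.d0 0 / 3 - u.d1 0 / 6 - u.d2 0 / 6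
  o2 := -u.o0 / 2 + 3 / 4 * u.o1 - u.o2 / 4 + 2 * u.e0 0 + 5 / 6 * u.e1 0 - 5 / 6 * u.e2 0 -
    u.d0 0 / 3 - u.d1 0 / 6 - u.d2 0 / 6
  e0 := u.e0
  d0 := fun j => -u.d0 j
  e1 := fun j => if j = 0 then u.o0 / 4 - u.o2 / 4 - u.e1 0 / 2 + u.d1 0 / 2
    else (u.d1 (j - 1) + u.d1 j) / 2
  d1 := fun j => -(u.e1 j + u.e1 (j + 1)) / 2
  e2 := fun j => if j = 0 then -u.o0 / 4 + u.o1 / 4 - u.e2 0 / 2 - u.d2 0 / 2
    else (u.d2 (j - 1) - u.d2 j) / 2
  d2 := fun j => (u.e2 j - u.e2 (j + 1)) / 2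

/-- One row of the invariant symmetric form. -/
noncomputable def Jo (u : St) : ℝ :=
  27 * u.o0 + 81 / 2 * u.o1 + 81 / 2 * u.o2 + u.e0 1 + 23 / 2 * u.e1 0 + 5 / 2 * u.e1 1 -
    23 / 2 * u.e2 0 + 5 / 2 * u.e2 1 - 13 * u.d0 0 - 17 / 2 * u.d1 0 + u.d1 1 / 2 -
    17 / 2 * u.d2 0 - u.d2 1 / 2

/-- Further rows of the invariant symmetric form. -/
noncomputable def Je (u : St) (j : ℕ) : ℝ :=
  if j = 0 then -23 / 2 * u.o1 + 23 / 2 * u.o2 + 16 * u.e0 0 - u.e0 2 + 16 * u.e1 0 - 2 * u.e1 1 +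
    16 * u.e2 0 + 2 * u.e2 1 - u.d0 1 - 2 * u.d1 0 + 2 * u.d2 0
  else if j = 1 then u.o0 + 5 / 2 * u.o1 + 5 / 2 * u.o2 + 34 * u.e0 1 - u.e0 3 + 2 * u.e1 0 -
    2 * u.e2 0 - u.d0 0
  else -u.e0 (j - 2) + 34 * u.e0 j - u.e0 (j + 2)

/-- The last rows of the invariant symmetric form. -/
noncomputable def Jd (u : St) (j : ℕ) : ℝ :=
  if j = 0 then -13 * u.o0 - 17 / 2 * u.o1 - 17 / 2 * u.o2 - u.e0 1 + 2 * u.e1 0 - 2 * u.e2 0 -
    32 * u.d0 0 + u.d0 2 + 4 * u.d1 0 + 4 * u.d2 0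
  else if j = 1 then -u.o1 / 2 + u.o2 / 2 - u.e0 0 - 34 * u.d0 1 + u.d0 3
  else u.d0 (j - 2) - 34 * u.d0 j + u.d0 (j + 2)

/-- The invariant symmetric form as a map from vectors to functionals. -/
noncomputable def J (u : St) : St :=
  ⟨Jo u, Jo (rot u), Jo (rot (rot u)), Je u, Je (rot u), Je (rot (rot u)), Jd u, Jd (rot u),
    Jd (rot (rot u))⟩

set_option maxHeartbeats 2000000 in
lemma J_S0 (u : St) : J (S0 u) = T0 (J u) := by
  ext j
  any_goals (simp [T0, S0, J, Jo, Je, Jd, rot, St.w]; ring1)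
  all_goals rcases j with _ | _ | _ | _ | j <;> simp [T0, S0, J, Jo, Je, Jd, rot, St.w] <;> ring1

/-- The transposes of the operators attached to pairs of colours. -/
noncomputable def Sc (c d : Fin 4) (u : St) : St :=
  if c = d then St.smul 0 u
  else if c.val + d.val = 1 ∨ c.val + d.val = 5 then S0 u
  else if c.val + d.val = 3 then rot (S0 (rot (rot u))) else rot (rot (S0 (rot u)))

lemma J_Sc (c d : Fin 4) (u : St) : J (Sc c d u) = Tc c d (J u) := by
  unfold Sc Tc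
  split_ifs
  · ext j
    any_goals simp [J, Jo, rot, St.smul]
    all_goals rcases j with _ | _ | j <;> simp [J, Je, Jd, rot, St.smul]
  · exact J_S0 u
  · exact congrArg rot (J_S0 (rot (rot u)))
  · exact congrArg (fun g => rot (rot g)) (J_S0 (rot u))

/-- The truncated pairing of functionals and vectors. -/
noncomputable def pr (N : ℕ) (f u : St) : ℝ :=
  f.o0 * u.o0 + f.o1 * u.o1 + f.o2 * u.o2 + ∑ j ∈ range N, (f.e0 j * u.e0 j + f.e1 j * u.e1 j +
    f.e2 j * u.e2 j + f.d0 j * u.d0 j + f.d1 j * u.d1 j + f.d2 j * u.d2 j)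

lemma pr_rot (N : ℕ) (f u : St) : pr N (rot f) (rot u) = pr N f u := by
  simp only [pr, rot, sum_add_distrib]
  ring

lemma pr_T0' (f u : St) (N : ℕ) : pr (N + 1) (T0 f) u = pr (N + 1) f (S0 u) +
    (f.e1 (N + 1) * u.d1 N + f.d1 N * u.e1 (N + 1) + f.e2 (N + 1) * u.d2 N +
      f.d2 N * u.e2 (N + 1)) / 2 := by
  induction N with
  | zero => simp [pr, T0, S0, St.w]; ring
  | succ N ih =>
    simp only [pr] at ih ⊢
    rw [sum_range_succ _ (N + 1), sum_range_succ _ (N + 1)]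
    simp only [T0, S0, Nat.add_eq_zero_iff, one_ne_zero, and_false, if_false,
      Nat.add_sub_cancel] at ih ⊢
    linear_combination ih

/-- The vector vanishes from the index `n` on. -/
def Supp (n : ℕ) (u : St) : Prop :=
  ∀ j, n ≤ j → u.e0 j = 0 ∧ u.e1 j = 0 ∧ u.e2 j = 0 ∧ u.d0 j = 0 ∧ u.d1 j = 0 ∧ u.d2 j = 0

lemma Supp.rot {n : ℕ} {u : St} (h : Supp n u) : Supp n (rot u) := fun j hj => by
  obtain ⟨a, b, c, d, e, f⟩ := h j hj
  exact ⟨b, c, a, e, f, d⟩

lemma Supp.S0 {n : ℕ} {u : St} (h : Supp n u) : Supp (n + 1) (S0 u) := fun j hj => by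
  obtain ⟨j, rfl⟩ : ∃ i, j = i + 1 := ⟨j - 1, by omega⟩
  obtain ⟨a, b, c, d, e, f⟩ := h (j + 1) (by omega)
  obtain ⟨a', b', c', d', e', f'⟩ := h j (by omega)
  obtain ⟨a'', b'', c'', d'', e'', f''⟩ := h (j + 1 + 1) (by omega)
  simp [Sym.S0, *]

lemma Supp.Sc {n : ℕ} {u : St} (h : Supp n u) (c d : Fin 4) : Supp (n + 1) (Sc c d u) := by
  unfold Sym.Sc
  split_ifs
  · intro j _
    simp [St.smul]
  · exact h.S0
  · exact h.rot.rot.S0.rot
  · exact h.rot.S0.rot.rot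

lemma pr_T0 {n N : ℕ} {u : St} (h : Supp n u) (hN : n ≤ N) (f : St) :
    pr (N + 1) (T0 f) u = pr (N + 1) f (S0 u) := by
  obtain ⟨-, -, -, -, e, g⟩ := h N hN
  obtain ⟨-, b, c, -⟩ := h (N + 1) (by omega)
  rw [pr_T0', e, g, b, c]
  ring

lemma pr_Tc {n N : ℕ} {u : St} (h : Supp n u) (hN : n ≤ N) (c d : Fin 4) (f : St) :
    pr (N + 1) (Tc c d f) u = pr (N + 1) f (Sc c d u) := by
  unfold Tc Sc
  split_ifs
  · simp [pr, St.smul]
  · exact pr_T0 h hN f
  · have h1 := pr_T0 h.rot.rot hN (rot (rot f))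
    rw [← pr_rot, ← pr_rot _ (rot (rot f))] at h1
    exact h1
  · have h1 := pr_T0 h.rot hN (rot f)
    rw [← pr_rot, ← pr_rot, ← pr_rot _ (rot f), ← pr_rot _ (rot (rot f))] at h1
    exact h1

/-- The cyclic vector. -/
noncomputable def v0 : St :=
  ⟨1 / 6, 1 / 6, 1 / 6, fun _ => 0, fun _ => 0, fun _ => 0, fun _ => 0, fun _ => 0, fun _ => 0⟩

/-- The transposed operators applied from the far end of a word. -/
noncomputable def back : Fin 4 → List (Fin 4) → St
  | _, [] => v0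
  | c, d :: x => Sc c d (back d x)

lemma back_supp (x : List (Fin 4)) : ∀ c, Supp x.length (back c x) := by
  induction x with
  | nil => intro c j _; simp [back, v0]
  | cons d x ih => intro c; exact (ih d).Sc c d

lemma ev_pr (N : ℕ) (x : List (Fin 4)) : ∀ (f : St) (c : Fin 4), x.length ≤ N →
    ev f c x = pr (N + 1) f (back c x) := by
  induction x with
  | nil => intro f c _; simp [ev, back, pr, v0, St.w]; ring
  | cons d x ih =>
    intro f c h
    have h' : x.length ≤ N := by simp at h; omega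
    rw [ev, ih _ d h', back, pr_Tc (back_supp x d) h']

lemma pr_lam (N : ℕ) (u : St) : pr (N + 2) lam u = (J u).w := by
  induction N with
  | zero => simp [pr, lam, J, Jo, rot, St.w, sum_range_succ]; ring
  | succ N ih =>
    rw [← ih]
    simp only [pr]
    rw [show N + 1 + 2 = (N + 2) + 1 by ring, sum_range_succ _ (N + 2)]
    simp [lam]

lemma J_v0 : J v0 = lam := by
  ext j
  any_goals (simp [J, Jo, rot, v0, lam]; norm_num)
  all_goals rcases j with _ | _ | j <;> simp [J, Je, Jd, rot, v0, lam] <;> norm_num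

lemma Tc_comm (c d : Fin 4) (f : St) : Tc c d f = Tc d c f := by
  simp only [Tc, add_comm c.val d.val, eq_comm (a := c)]

lemma ev_back (x : List (Fin 4)) : ∀ (c : Fin 4) (y : List (Fin 4)),
    ∃ c' x', x.reverse ++ c :: y = c' :: x' ∧ ev lam c' x' = ev (J (back c x)) c y := by
  induction x with
  | nil => intro c y; exact ⟨c, y, rfl, by rw [back, J_v0]⟩
  | cons d x ih =>
    intro c y
    obtain ⟨c', x', h1, h2⟩ := ih d (c :: y)
    refine ⟨c', x', by simpa using h1, ?_⟩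
    rw [h2, ev, back, J_Sc, Tc_comm]

theorem Pnew_rev (x : List (Fin 4)) : Pnew x.reverse = Pnew x := by
  rcases x with _ | ⟨c, x⟩
  · rfl
  · obtain ⟨c', x', h1, h2⟩ := ev_back x c []
    have h3 : x'.length = x.length := by simpa using (congrArg List.length h1).symm
    rw [List.reverse_cons, h1, Pnew, Pnew, h2, h3, ev_pr (x.length + 1) x lam c (by omega), pr_lam]
    rfl

end Pool.Agent.P.MP_c12967_pr.Sym
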