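import Pool.Agent.P.MP_c12967_pr.Measure
import Pool.Agent.P.MP_c12967_pr.HL

/-!
Symmetries of the Holroyd-Liggett word function, and symmetric measures from symmetric word
functions.
-/

set_option autoImplicit false
open MeasureTheory ProbabilityTheory Filter Topology

namespace Pool.Agent.P.MP_c12967_pr.Sym2

open HL Meas

theorem del_map (σ : Equiv.Perm (Fin 4)) : ∀ (w : List (Fin 4)) (f : List (Fin 4) → ℝ),
    del f (w.map σ) = del (fun u => f (u.map σ)) w
  | [], _ => rfl
  | a :: w, f => by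
    simp only [List.map_cons, del]
    rw [del_map σ w (fun u => f (σ a :: u))]

theorem del_rev : ∀ (w : List (Fin 4)) (f : List (Fin 4) → ℝ),
    del f w.reverse = del (fun u => f u.reverse) w
  | [], _ => rfl
  | a :: w, f => by
    rw [List.reverse_cons, del_append, del_rev w]
    simp [del, add_comm]

theorem H_map (σ : Equiv.Perm (Fin 4)) : ∀ (n : ℕ) (w : List (Fin 4)), H n (w.map σ) = H n w
  | 0, _ => rfl
  | n + 1, w => by
    have h1 : (w.map σ).IsChain (· ≠ ·) ↔ w.IsChain (· ≠ ·) := by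
      simp [List.isChain_map]
    have h2 : (fun u : List (Fin 4) => H n (u.map σ)) = H n := funext (H_map σ n)
    simp only [H, del_map, h2]
    by_cases h : w.IsChain (· ≠ ·)
    · rw [if_pos h, if_pos (h1.2 h)]
    · rw [if_neg h, if_neg fun k => h (h1.1 k)]

theorem H_rev : ∀ (n : ℕ) (w : List (Fin 4)), H n w.reverse = H n w
  | 0, _ => rfl
  | n + 1, w => by
    have h1 : w.reverse.IsChain (· ≠ ·) ↔ w.IsChain (· ≠ ·) := by
      rw [List.isChain_reverse]
      exact List.IsChain.iff fun _ _ => ne_comm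
    have h2 : (fun u : List (Fin 4) => H n u.reverse) = H n := funext (H_rev n)
    simp only [H, del_rev, h2]
    by_cases h : w.IsChain (· ≠ ·)
    · rw [if_pos h, if_pos (h1.2 h)]
    · rw [if_neg h, if_neg fun k => h (h1.1 k)]

theorem Q_map (σ : Equiv.Perm (Fin 4)) (w : List (Fin 4)) : Q (w.map σ) = Q w := by
  rw [Q, Q, List.length_map, H_map]

theorem Q_rev (w : List (Fin 4)) : Q w.reverse = Q w := by
  rw [Q, Q, List.length_reverse, H_rev]

theorem ext_perm (σ : Equiv.Perm (Fin 4)) : ∀ (L : List (Finset (Fin 4))) (P : List (Fin 4) → ℝ),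
    ext (fun w => P (w.map σ)) (L.map fun A => A.map σ.symm.toEmbedding) = ext P L
  | [], _ => rfl
  | A :: L, P => by
    simp only [List.map_cons, ext, Finset.sum_map, Equiv.coe_toEmbedding, Equiv.apply_symm_apply]
    exact Finset.sum_congr rfl fun a _ => ext_perm σ L fun w => P (a :: w)

theorem ext_snoc (A : Finset (Fin 4)) : ∀ (L : List (Finset (Fin 4))) (P : List (Fin 4) → ℝ),
    ext P (L ++ [A]) = ∑ a ∈ A, ext (fun w => P (w ++ [a])) L
  | [], _ => rfl
  | B :: L, P => by
    simp only [List.cons_append, ext]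
    rw [Finset.sum_comm]
    exact Finset.sum_congr rfl fun b _ => ext_snoc A L fun w => P (b :: w)

theorem ext_rev : ∀ (L : List (Finset (Fin 4))) (P : List (Fin 4) → ℝ),
    ext (fun w => P w.reverse) L.reverse = ext P L
  | [], _ => rfl
  | A :: L, P => by
    rw [List.reverse_cons, ext_snoc]
    simp only [ext, List.reverse_append, List.reverse_cons, List.reverse_nil, List.nil_append,
      List.singleton_append]
    exact Finset.sum_congr rfl fun a _ => ext_rev L fun w => P (a :: w)

theorem lst_map (A : ℤ → Finset (Fin 4)) (g : Finset (Fin 4) → Finset (Fin 4)) :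
    ∀ (n : ℕ) (t : ℤ), lst (fun i => g (A i)) t n = (lst A t n).map g
  | 0, _ => rfl
  | n + 1, t => by simp only [lst, List.map_cons, lst_map A g n]

theorem lst_rev (A : ℤ → Finset (Fin 4)) :
    ∀ (n : ℕ) (s : ℤ), lst (fun i => A (-i)) s n = (lst A (-s - n + 1) n).reverse
  | 0, _ => rfl
  | n + 1, s => by
    rw [lst_add A n _ 1, lst, lst_rev A n]
    simp only [lst, List.reverse_append, List.reverse_cons, List.reverse_nil, List.nil_append,
      List.singleton_append]
    congr 3 <;> push_cast <;> ring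

theorem exists_sym (P : List (Fin 4) → ℝ) (h0 : P [] = 1) (hpos : ∀ x, 0 ≤ P x)
    (hsum : ∀ x y, ∑ a, P (x ++ a :: y) = P x * P y) (hrep : ∀ a, P [a, a] = 0)
    (hperm : ∀ (σ : Equiv.Perm (Fin 4)) x, P (x.map σ) = P x) (hrev : ∀ x, P x.reverse = P x) :
    ∃ μ : Measure (ℤ → Fin 4), IsProbabilityMeasure μ ∧
      Measure.map (fun x : ℤ → Fin 4 => fun n : ℤ => x (n + 1)) μ = μ ∧
      (∀ᵐ x ∂μ, ∀ n : ℤ, x n ≠ x (n + 1)) ∧
      (∀ A B : Set ℤ, (∀ a ∈ A, ∀ b ∈ B, 1 < |a - b|) →
        Indep (⨆ a ∈ A, MeasurableSpace.comap (fun x : ℤ → Fin 4 => x a)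
            (⊤ : MeasurableSpace (Fin 4)))
          (⨆ b ∈ B, MeasurableSpace.comap (fun x : ℤ → Fin 4 => x b)
            (⊤ : MeasurableSpace (Fin 4))) μ) ∧
      (∀ σ : Equiv.Perm (Fin 4),
        Measure.map (fun x : ℤ → Fin 4 => fun n : ℤ => σ (x n)) μ = μ) ∧
      Measure.map (fun x : ℤ → Fin 4 => fun n : ℤ => x (-n)) μ = μ ∧
      μ {x | x 0 = 0 ∧ x 1 = 1 ∧ x 2 = 0 ∧ x 3 = 1} = ENNReal.ofReal (P [0, 1, 0, 1]) := by
  obtain ⟨μ, hμ, hr⟩ := exists_limit h0 hpos hsum
  have hshift : Measurable (fun x : ℤ → Fin 4 => fun n : ℤ => x (n + 1)) :=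
    measurable_pi_lambda _ fun n => measurable_pi_apply _
  refine ⟨μ, hμ, ?_, ?_, ?_, ?_, ?_, ?_⟩
  · have : IsProbabilityMeasure (Measure.map (fun x : ℤ → Fin 4 => fun n : ℤ => x (n + 1)) μ) :=
      Measure.isProbabilityMeasure_map hshift.aemeasurable
    refine ext_of_generate_finite (rects Set.univ) pi_eq (isPiSystem_rects _) ?_ (by simp)
    rintro _ ⟨A, N, hA, rfl⟩
    rw [box_eq A N fun i hi => (hA i hi).2, Measure.map_apply hshift (measurableSet_rect _ _ _)]
    have : (fun x : ℤ → Fin 4 => fun n : ℤ => x (n + 1)) ⁻¹' rect A (-N) (2 * N) =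
        rect (fun i => A (i - 1)) (-N + 1) (2 * N) := by
      ext x
      simp only [rect, Set.mem_preimage, Set.mem_ofPred_eq]
      refine forall_congr' fun i => forall_congr' fun _ => ?_
      rw [show -(N : ℤ) + 1 + i - 1 = -N + i by ring, show -(N : ℤ) + 1 + i = -N + i + 1 by ring]
    rw [this, hr, hr]
    congr 2
    exact lst_congr _ _ _ _ _ fun i _ => by
      show A _ = A _
      congr 1
      ring
  · rw [ae_all_iff]
    intro n
    rw [ae_iff]
    have : {x : ℤ → Fin 4 | ¬x n ≠ x (n + 1)} = ⋃ a : Fin 4, rect (fun _ => {a}) n 2 := by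
      ext x
      simp only [rect, Set.mem_ofPred_eq, Set.mem_iUnion, not_not, Finset.mem_singleton]
      constructor
      · intro h
        refine ⟨x n, fun i hi => ?_⟩
        interval_cases i
        · simp
        · simp [h]
      · rintro ⟨a, h⟩
        have h1 := h 0 (by omega)
        have h2 := h 1 (by omega)
        simp only [Nat.cast_zero, add_zero, Nat.cast_one] at h1 h2
        rw [h1, h2]
    rw [this]
    refine measure_iUnion_null fun a => ?_
    rw [hr]
    simp [lst, ext, hrep]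
  · intro S T hST
    refine IndepSets.indep (sup_le_pi S) (sup_le_pi T) (isPiSystem_rects S) (isPiSystem_rects T)
      (generateFrom_rects S) (generateFrom_rects T) ?_
    rw [IndepSets_iff]
    rintro _ _ ⟨A, N, hA, rfl⟩ ⟨B, M, hB, rfl⟩
    have hA' : ∀ i, A i ≠ Finset.univ → -((N + M : ℕ) : ℤ) ≤ i ∧ i < (N + M : ℕ) := by
      intro i hi
      have := hA i hi
      push_cast
      omega
    have hB' : ∀ i, B i ≠ Finset.univ → -((N + M : ℕ) : ℤ) ≤ i ∧ i < (N + M : ℕ) := by
      intro i hi
      have := hB i hi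
      push_cast
      omega
    rw [box_inter, box_eq A _ hA', box_eq B _ hB', box_eq (fun i => A i ∩ B i) (N + M)
      (fun i hi => (inter_ne_univ hi).elim (hA' i) (hB' i)), hr, hr, hr,
      val_inter h0 hsum A B (fun i j hi hj => hST i (hA i hi).1 j (hB j hj).1),
      ENNReal.ofReal_mul (ext_nonneg _ _ hpos)]
  · intro σ
    have hm : Measurable (fun x : ℤ → Fin 4 => fun n : ℤ => σ (x n)) :=
      measurable_pi_lambda _ fun n => (measurable_of_finite σ).comp (measurable_pi_apply n)
    have : IsProbabilityMeasure (Measure.map (fun x : ℤ → Fin 4 => fun n : ℤ => σ (x n)) μ) :=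
      Measure.isProbabilityMeasure_map hm.aemeasurable
    refine ext_of_generate_finite (rects Set.univ) pi_eq (isPiSystem_rects _) ?_ (by simp)
    rintro _ ⟨A, N, hA, rfl⟩
    rw [box_eq A N fun i hi => (hA i hi).2, Measure.map_apply hm (measurableSet_rect _ _ _)]
    have : (fun x : ℤ → Fin 4 => fun n : ℤ => σ (x n)) ⁻¹' rect A (-N) (2 * N) =
        rect (fun i => (A i).map σ.symm.toEmbedding) (-N) (2 * N) := by
      ext x
      simp [rect]
    rw [this, hr, hr, lst_map, ← ext_perm σ (lst A (-N) (2 * N)) P]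
    simp only [hperm]
  · have hm : Measurable (fun x : ℤ → Fin 4 => fun n : ℤ => x (-n)) :=
      measurable_pi_lambda _ fun n => measurable_pi_apply _
    have : IsProbabilityMeasure (Measure.map (fun x : ℤ → Fin 4 => fun n : ℤ => x (-n)) μ) :=
      Measure.isProbabilityMeasure_map hm.aemeasurable
    refine ext_of_generate_finite (rects Set.univ) pi_eq (isPiSystem_rects _) ?_ (by simp)
    rintro _ ⟨A, N, hA, rfl⟩
    rw [box_eq A N fun i hi => (hA i hi).2, Measure.map_apply hm (measurableSet_rect _ _ _)]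
    have : (fun x : ℤ → Fin 4 => fun n : ℤ => x (-n)) ⁻¹' rect A (-N) (2 * N) =
        rect (fun i => A (-i)) (-N + 1) (2 * N) := by
      ext x
      simp only [rect, Set.mem_preimage, Set.mem_ofPred_eq]
      constructor
      · intro h i hi
        have h1 := h (2 * N - 1 - i) (by omega)
        rw [show -(N : ℤ) + ((2 * N - 1 - i : ℕ) : ℤ) = -(-N + 1 + i) by omega, neg_neg] at h1
        exact h1
      · intro h i hi
        have h1 := h (2 * N - 1 - i) (by omega)
        rw [show -(N : ℤ) + 1 + ((2 * N - 1 - i : ℕ) : ℤ) = -(-N + i) by omega, neg_neg] at h1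
        exact h1
    rw [this, hr, hr, lst_rev, show -(-(N : ℤ) + 1) - ((2 * N : ℕ) : ℤ) + 1 = -N by push_cast; ring,
      ← ext_rev (lst A (-N) (2 * N)) P]
    simp only [hrev]
  · have : {x : ℤ → Fin 4 | x 0 = 0 ∧ x 1 = 1 ∧ x 2 = 0 ∧ x 3 = 1} =
        rect (fun i => if i = 0 ∨ i = 2 then {0} else {1}) 0 4 := by
      ext x
      simp only [rect, Set.mem_ofPred_eq]
      constructor
      · rintro ⟨h1, h2, h3, h4⟩ i hi
        interval_cases i <;> simp [h1, h2, h3, h4]
      · intro h
        have h1 := h 0 (by omega)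
        have h2 := h 1 (by omega)
        have h3 := h 2 (by omega)
        have h4 := h 3 (by omega)
        simp at h1 h2 h3 h4
        exact ⟨h1, h2, h3, h4⟩
    rw [this, hr]
    simp [lst, ext]

end Pool.Agent.P.MP_c12967_pr.Sym2
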